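import Pool.Agent.Lib.MP_478c11_gt.Spec

section
set_option autoImplicit false

open Real MeasureTheory Set Filter Topology
open scoped ContDiff InnerProductSpace Manifold

namespace Rim478

theorem specANA : SpecANA := by
  intro w hw h0 t
  have ha : AnalyticOnNhd ℝ w Set.univ := hw.analyticOnNhd
  have h1 : analyticOrderAt w 0 = ⊤ := by
    refine ENat.eq_top_iff_forall_ge.2 fun n => ?_
    exact (natCast_le_analyticOrderAt_iff_iteratedDeriv_eq_zero (ha 0 (Set.mem_univ _))).2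
      fun i _ => h0 i
  have h2 : ∀ᶠ z in 𝓝 (0 : ℝ), w z = 0 := analyticOrderAt_eq_top.1 h1
  have := ha.eqOn_zero_of_preconnected_of_eventuallyEq_zero isPreconnected_univ
    (Set.mem_univ (0 : ℝ)) h2
  exact this (Set.mem_univ t)

end Rim478
end

section
set_option autoImplicit false

/-!
Module MOV of MP_478c11_gt (helper9): a rim with `τ = 0` is moved back by a rigid motion.
-/

open Real MeasureTheory Set Filter Topology
open scoped ContDiff InnerProductSpace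

namespace Rim478

namespace MOVM

/-- `T' = U`, `U' = -T` -/
lemma circ {T U : ℝ → E3} (hT : ∀ θ, HasDerivAt T (U θ) θ) (hU : ∀ θ, HasDerivAt U (-T θ) θ) (θ : ℝ) :
    T θ = cos θ • T 0 + sin θ • U 0 ∧ U θ = -sin θ • T 0 + cos θ • U 0 := by
  have hP : ∀ x, HasDerivAt (fun x => cos x • T x - sin x • U x) 0 x := by
    intro x
    have h := ((hasDerivAt_cos x).smul (hT x)).sub ((hasDerivAt_sin x).smul (hU x))
    refine h.congr_deriv ?_
    module
  have hQ : ∀ x, HasDerivAt (fun x => sin x • T x + cos x • U x) 0 x := by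
    intro x
    have h := ((hasDerivAt_sin x).smul (hT x)).add ((hasDerivAt_cos x).smul (hU x))
    refine h.congr_deriv ?_
    module
  have cP : cos θ • T θ - sin θ • U θ = T 0 := by
    have := is_const_of_deriv_eq_zero (fun x => (hP x).differentiableAt) (fun x => (hP x).deriv) θ 0
    simpa using this
  have cQ : sin θ • T θ + cos θ • U θ = U 0 := by
    have := is_const_of_deriv_eq_zero (fun x => (hQ x).differentiableAt) (fun x => (hQ x).deriv) θ 0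
    simpa using this
  have hcs := cos_sq_add_sin_sq θ
  rw [← cP, ← cQ]
  constructor
  · calc T θ = (cos θ ^ 2 + sin θ ^ 2) • T θ := by rw [hcs, one_smul]
      _ = _ := by module
  · calc U θ = (cos θ ^ 2 + sin θ ^ 2) • U θ := by rw [hcs, one_smul]
      _ = _ := by module

lemma cr_comb (p q r s : ℝ) (a b : E3) : cr (p • a + q • b) (r • a + s • b) = (p * s - q * r) • cr a b := by
  ext i
  fin_cases i <;> simp [cr] <;> ring

end MOVM

open MOVM in
/-- **MOV** -/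
theorem specMOV (hGAU : SpecGAU) (hCRS : SpecCRS) (hDRV : SpecDRV) : SpecMOV := by
  intro X R u₁ u₂ e F α hτ hℓ
  have hν : ∀ θ, nu X R α θ = 0 := by
    intro θ
    have h := hGAU.K F α θ
    rw [hτ θ] at h
    have hR := (F.Rpos θ).ne'
    have h2 : R θ * nu X R α θ = 0 := by
      rcases mul_eq_zero.mp (show R θ * nu X R α θ * ell X R α θ = 0 by rw [h]; norm_num) with h3 | h3
      · exact h3
      · exact absurd h3 (hℓ θ)
    rcases mul_eq_zero.mp h2 with h3 | h3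
    · exact absurd h3 hR
    · exact h3
  have hT : ∀ θ, HasDerivAt (fun s => fT X R α s) (fU X α θ) θ := by
    intro θ
    have := hGAU.T' F α θ
    rwa [hν θ, zero_smul, add_zero] at this
  have hU : ∀ θ, HasDerivAt (fun s => fU X α s) (-fT X R α θ) θ := by
    intro θ
    have := hGAU.U' F α θ
    rwa [hτ θ, zero_smul, add_zero] at this
  have hc := circ hT hU
  obtain ⟨n1, n2, n3⟩ := hGAU.on F α 0
  obtain ⟨g, g1, g2, g3⟩ := hCRS.mot _ _ _ _ n1 n2 n3 F.h1 F.h2 F.h12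
  have gT : ∀ θ, g (fT X R α θ) = cos θ • u₁ + sin θ • u₂ := by
    intro θ
    rw [(hc θ).1, map_add, map_smul, map_smul, g1, g2]
  have gU : ∀ θ, g (fU X α θ) = -sin θ • u₁ + cos θ • u₂ := by
    intro θ
    rw [(hc θ).2, map_add, map_smul, map_smul, g1, g2]
  have gX : ∀ θ, HasDerivAt (fun s => g (X α 0 s) - X 0 0 s) 0 θ := by
    intro θ
    have h1 := hDRV.hdh F.sm α 0 θ
    have h2 := hDRV.hdh F.sm 0 0 θ
    have h3 : HasDerivAt (fun s => g (X α 0 s)) (g (dh X α 0 θ)) θ :=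
      (g.toContinuousLinearEquiv.toContinuousLinearMap.hasFDerivAt).comp_hasDerivAt θ h1
    refine (h3.sub h2).congr_deriv ?_
    have hR := F.Rpos θ
    have h4 : dh X α 0 θ = R θ • fT X R α θ := by
      rw [fT, smul_smul, mul_inv_cancel₀ hR.ne', one_smul]
    rw [h4, map_smul, gT, F.tan, sub_self]
  refine ⟨g, X 0 0 0 - g (X α 0 0), ?_, ?_, ?_⟩
  · intro θ
    have := is_const_of_deriv_eq_zero (fun x => (gX x).differentiableAt) (fun x => (gX x).deriv) θ 0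
    have h5 : g (X α 0 θ) - X 0 0 θ = g (X α 0 0) - X 0 0 0 := this
    rw [← sub_eq_zero]
    calc g (X α 0 θ) + (X 0 0 0 - g (X α 0 0)) - X 0 0 θ
        = (g (X α 0 θ) - X 0 0 θ) - (g (X α 0 0) - X 0 0 0) := by abel
      _ = 0 := by rw [h5, sub_self]
  · intro θ
    rw [F.nor, ← gU θ]
    rfl
  · intro θ
    have hcs := cos_sq_add_sin_sq θ
    rw [fN, (hc θ).1, (hc θ).2, cr_comb, show cos θ * cos θ - sin θ * -sin θ = 1 by linear_combination hcs,
      one_smul, g3, F.he]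

end Rim478
end

section
set_option autoImplicit false

/-!
Module OPN of MP_478c11_gt (helper9): the rim stays planar.
-/

open Real MeasureTheory Set Filter Topology
open scoped ContDiff InnerProductSpace

namespace Rim478

namespace OPNM

/-- uniformity over a period -/
lemma unif {Y : Type} [TopologicalSpace Y] {G : ℝ → ℝ → Y} {α₀ : ℝ} {O : Set Y} (hO : IsOpen O)
    (hG : ∀ θ, ContinuousAt (fun p : ℝ × ℝ => G p.1 p.2) (α₀, θ)) (h0 : ∀ θ, G α₀ θ ∈ O)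
    (hper : ∀ α θ, G α (θ + 2 * π) = G α θ) : ∀ᶠ α in 𝓝 α₀, ∀ θ, G α θ ∈ O := by
  have h1 : ∀ᶠ α in 𝓝 α₀, ∀ θ ∈ Icc (0:ℝ) (2 * π), G α θ ∈ O := by
    apply IsCompact.eventually_forall_of_forall_eventually isCompact_Icc
    intro θ _
    exact (hG θ).eventually (hO.mem_nhds (h0 θ))
  filter_upwards [h1] with α hα θ
  have hp : Function.Periodic (G α) (2 * π) := hper α
  obtain ⟨y, hy, hy2⟩ := hp.exists_mem_Ico₀ two_pi_pos θ
  rw [hy2]
  exact hα y ⟨hy.1, hy.2.le⟩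

lemma slc {Y : Type} [TopologicalSpace Y] (G : ℝ → ℝ → Y) (h : Continuous (fun p : ℝ × ℝ => G p.1 p.2)) (α : ℝ) :
    Continuous (G α) := by
  have ι : Continuous (fun θ : ℝ => ((α, θ) : ℝ × ℝ)) := by fun_prop
  exact h.comp ι

section
variable (hD : SpecDRV)
include hD

lemma itS {G : ℝ → ℝ → ℝ → E3} (sG : Sm G) (k : ℕ) : Sm (dh^[k] G) := by
  induction k with
  | zero => exact sG
  | succ n ih =>
    rw [Function.iterate_succ_apply']
    exact hD.sdh ih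

lemma itb {G : ℝ → ℝ → ℝ → E3} (sG : Sm G) (v : E3) (α t : ℝ) (k : ℕ) :
    iteratedDeriv k (fun θ => ⟪G α t θ, v⟫_ℝ) = fun θ => ⟪(dh^[k] G) α t θ, v⟫_ℝ := by
  induction k with
  | zero => rw [iteratedDeriv_zero]; rfl
  | succ n ih =>
    rw [iteratedDeriv_succ, ih, Function.iterate_succ_apply']
    funext θ
    have h1 := (hD.hdh (itS hD sG n) α t θ).inner ℝ (hasDerivAt_const θ v)
    rw [h1.deriv, inner_zero_right, zero_add]

end

lemma per_dh {V : Type} [NormedAddCommGroup V] [NormedSpace ℝ V] {G : ℝ → ℝ → ℝ → V}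
    (h : ∀ α t θ, G α t (θ + 2 * π) = G α t θ) (α t θ : ℝ) :
    dh G α t (θ + 2 * π) = dh G α t θ := by
  unfold dh
  rw [← deriv_comp_add_const]
  congr 1
  funext s
  exact h α t s

lemma per_dt {V : Type} [NormedAddCommGroup V] [NormedSpace ℝ V] {G : ℝ → ℝ → ℝ → V}
    (h : ∀ α t θ, G α t (θ + 2 * π) = G α t θ) (α t θ : ℝ) :
    dt G α t (θ + 2 * π) = dt G α t θ := by
  unfold dt
  congr 1
  funext s
  exact h α s θ

lemma per_it {V : Type} [NormedAddCommGroup V] [NormedSpace ℝ V] {G : ℝ → ℝ → ℝ → V}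
    (h : ∀ α t θ, G α t (θ + 2 * π) = G α t θ) (k : ℕ) : ∀ (α t θ : ℝ),
    (dh^[k] G) α t (θ + 2 * π) = (dh^[k] G) α t θ := by
  induction k with
  | zero => exact h
  | succ n ih =>
    rw [Function.iterate_succ_apply']
    exact per_dh ih

lemma sm_cont {V : Type} [NormedAddCommGroup V] [NormedSpace ℝ V] {G : ℝ → ℝ → ℝ → V} (hG : Sm G) :
    Continuous (fun p : ℝ × ℝ => G p.1 0 p.2) := by
  have h := hG.continuous
  exact h.comp (by fun_prop : Continuous fun p : ℝ × ℝ => ((p.1, 0, p.2) : ℝ × ℝ × ℝ))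

lemma sm_sl {V : Type} [NormedAddCommGroup V] [NormedSpace ℝ V] {G : ℝ → ℝ → ℝ → V} (hG : Sm G) (α t : ℝ) :
    ContDiff ℝ ∞ (fun θ => G α t θ) :=
  ContDiff.comp (g := fun p : ℝ × ℝ × ℝ => G p.1 p.2.1 p.2.2) (f := fun θ : ℝ => ((α, t, θ) : ℝ × ℝ × ℝ)) hG
    (contDiff_const.prodMk (contDiff_const.prodMk contDiff_id))

lemma cr_smul2 (p q : ℝ) (a b : E3) : cr (p • a) (q • b) = (p * q) • cr a b := by
  ext i
  fin_cases i <;> simp [cr] <;> ring

section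
variable {X : ℝ → ℝ → ℝ → E3} {R : ℝ → ℝ} {u₁ u₂ e : E3} (F : Fam X R u₁ u₂ e)
variable (hG : SpecGAU) (hC : SpecCRS) (hD : SpecDRV)
include F hG hD

lemma cT : Continuous (fun p : ℝ × ℝ => fT X R p.1 p.2) := by
  have h1 : Continuous (fun p : ℝ × ℝ => (R p.2)⁻¹) :=
    (((hG.R F).1.continuous).comp continuous_snd).inv₀ (fun p => (F.Rpos p.2).ne')
  exact h1.smul (sm_cont (hD.sdh F.sm))

omit hG in
lemma cU : Continuous (fun p : ℝ × ℝ => fU X p.1 p.2) := sm_cont (hD.sdt F.sm)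

include hC in
lemma cN : Continuous (fun p : ℝ × ℝ => fN X R p.1 p.2) :=
  hC.sm.continuous.comp ((cT F hG hD).prodMk (cU F hD))

include hC in
lemma cnu : Continuous (fun p : ℝ × ℝ => nu X R p.1 p.2) := by
  have h1 : Continuous (fun p : ℝ × ℝ => (R p.2)⁻¹) :=
    (((hG.R F).1.continuous).comp continuous_snd).inv₀ (fun p => (F.Rpos p.2).ne')
  exact h1.mul ((sm_cont (hD.sdh (hD.sdh F.sm))).inner (cN F hG hC hD))

include hC in
lemma ctau : Continuous (fun p : ℝ × ℝ => tau X R p.1 p.2) :=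
  (sm_cont (hD.sdh (hD.sdt F.sm))).inner (cN F hG hC hD)

include hC in
lemma cell : Continuous (fun p : ℝ × ℝ => ell X R p.1 p.2) :=
  (sm_cont (hD.sdt (hD.sdt F.sm))).inner (cN F hG hC hD)

omit hD in
lemma pT (α θ : ℝ) : fT X R α (θ + 2 * π) = fT X R α θ := by
  rw [fT, fT, (hG.R F).2.1, per_dh F.per]

omit hG hD in
lemma pU (α θ : ℝ) : fU X α (θ + 2 * π) = fU X α θ := per_dt F.per α 0 θ

omit hD in
lemma pN (α θ : ℝ) : fN X R α (θ + 2 * π) = fN X R α θ := by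
  rw [fN, fN, pT F hG, pU F]

omit hD in
lemma pnu (α θ : ℝ) : nu X R α (θ + 2 * π) = nu X R α θ := by
  rw [nu, nu, pN F hG, (hG.R F).2.1, per_dh (per_dh F.per)]

omit hD in
lemma pell (α θ : ℝ) : ell X R α (θ + 2 * π) = ell X R α θ := by
  rw [ell, ell, pN F hG, per_dt (per_dt F.per)]

lemma sT (α : ℝ) : ContDiff ℝ ∞ (fun θ => fT X R α θ) :=
  ((hG.R F).1.inv (fun θ => (F.Rpos θ).ne')).smul (sm_sl (hD.sdh F.sm) α 0)

omit hG in
lemma sU (α : ℝ) : ContDiff ℝ ∞ (fun θ => fU X α θ) := sm_sl (hD.sdt F.sm) α 0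

end

/-- `∫ ⟨f, v⟩ = ⟨∫ f, v⟩` -/
lemma int_inner {f : ℝ → E3} (hf : Continuous f) (v : E3) (a b : ℝ) :
    ∫ x in a..b, ⟪f x, v⟫_ℝ = ⟪∫ x in a..b, f x, v⟫_ℝ := by
  have h := (innerSL ℝ v).intervalIntegral_comp_comm (hf.intervalIntegrable a b (μ := volume))
  simp only [innerSL_apply_apply] at h
  rw [real_inner_comm, ← h]
  congr 1
  funext x
  exact real_inner_comm _ _

noncomputable def vP (X : ℝ → ℝ → ℝ → E3) (R : ℝ → ℝ) (α : ℝ) : E3 := ∫ θ in (0:ℝ)..(2 * π), cos θ • fT X R α θ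
noncomputable def vQ (X : ℝ → ℝ → ℝ → E3) (R : ℝ → ℝ) (α : ℝ) : E3 := ∫ θ in (0:ℝ)..(2 * π), sin θ • fT X R α θ
noncomputable def vW (X : ℝ → ℝ → ℝ → E3) (R : ℝ → ℝ) (α : ℝ) : E3 := cr (vP X R α) (vQ X R α)
noncomputable def ve (X : ℝ → ℝ → ℝ → E3) (R : ℝ → ℝ) (α : ℝ) : E3 := ‖vW X R α‖⁻¹ • vW X R α

section
variable {X : ℝ → ℝ → ℝ → E3} {R : ℝ → ℝ} {u₁ u₂ e : E3} (F : Fam X R u₁ u₂ e)
variable (hG : SpecGAU) (hC : SpecCRS) (hD : SpecDRV)
include F hG hD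

lemma cP : Continuous (vP X R) := by
  have h : Continuous (Function.uncurry fun (α θ : ℝ) => cos θ • fT X R α θ) :=
    (continuous_cos.comp continuous_snd).smul (cT F hG hD)
  exact intervalIntegral.continuous_parametric_intervalIntegral_of_continuous' h 0 (2 * π)

lemma cQ : Continuous (vQ X R) := by
  have h : Continuous (Function.uncurry fun (α θ : ℝ) => sin θ • fT X R α θ) :=
    (continuous_sin.comp continuous_snd).smul (cT F hG hD)
  exact intervalIntegral.continuous_parametric_intervalIntegral_of_continuous' h 0 (2 * π)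

include hC in
lemma cW : Continuous (vW X R) := hC.sm.continuous.comp ((cP F hG hD).prodMk (cQ F hG hD))

include hC in
lemma ce {α₀ : ℝ} (h : vW X R α₀ ≠ 0) : ContinuousAt (ve X R) α₀ := by
  have h1 := (cW F hG hC hD).continuousAt (x := α₀)
  exact (h1.norm.inv₀ (norm_ne_zero_iff.mpr h)).smul h1

omit F hG hD in
lemma ne {α : ℝ} (h : vW X R α ≠ 0) : ‖ve X R α‖ = 1 := by
  rw [ve, norm_smul, norm_inv, norm_norm, inv_mul_cancel₀ (norm_ne_zero_iff.mpr h)]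

omit F hG hD in
include hC in
lemma eP (α : ℝ) : ⟪vP X R α, ve X R α⟫_ℝ = 0 := by
  rw [ve, inner_smul_right, vW, real_inner_comm, hC.o1, mul_zero]

omit F hG hD in
include hC in
lemma eQ (α : ℝ) : ⟪vQ X R α, ve X R α⟫_ℝ = 0 := by
  rw [ve, inner_smul_right, vW, real_inner_comm, hC.o2, mul_zero]

lemma sliceT (α : ℝ) : Continuous (fun θ => fT X R α θ) := (sT F hG hD α).continuous

include hC in
lemma acos (α : ℝ) : ∫ x in (0:ℝ)..(2 * π), ⟪fT X R α x, ve X R α⟫_ℝ * cos x = 0 := by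
  have h := int_inner (f := fun x => cos x • fT X R α x) (continuous_cos.smul (sliceT F hG hD α)) (ve X R α) 0 (2 * π)
  have h2 : ⟪∫ x in (0:ℝ)..(2 * π), cos x • fT X R α x, ve X R α⟫_ℝ = 0 := eP hC α
  rw [h2] at h
  rw [← h]
  congr 1
  funext x
  rw [inner_smul_left, conj_trivial, mul_comm]

include hC in
lemma asin (α : ℝ) : ∫ x in (0:ℝ)..(2 * π), ⟪fT X R α x, ve X R α⟫_ℝ * sin x = 0 := by
  have h := int_inner (f := fun x => sin x • fT X R α x) (continuous_sin.smul (sliceT F hG hD α)) (ve X R α) 0 (2 * π)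
  have h2 : ⟪∫ x in (0:ℝ)..(2 * π), sin x • fT X R α x, ve X R α⟫_ℝ = 0 := eQ hC α
  rw [h2] at h
  rw [← h]
  congr 1
  funext x
  rw [inner_smul_left, conj_trivial, mul_comm]

omit hG in
lemma aR (α : ℝ) (v : E3) : ∫ x in (0:ℝ)..(2 * π), ⟪fT X R α x, v⟫_ℝ * R x = 0 := by
  have h : ∀ x ∈ uIcc (0:ℝ) (2 * π), HasDerivAt (fun θ => ⟪X α 0 θ, v⟫_ℝ) (⟪fT X R α x, v⟫_ℝ * R x) x := by
    intro x _
    have h1 := (hD.hdh F.sm α 0 x).inner ℝ (hasDerivAt_const x v)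
    refine h1.congr_deriv ?_
    rw [inner_zero_right, zero_add, fT, inner_smul_left, conj_trivial, mul_comm, ← mul_assoc,
      mul_inv_cancel₀ (F.Rpos x).ne', one_mul]
  rw [intervalIntegral.integral_eq_sub_of_hasDerivAt h]
  · have := F.per α 0 0
    rw [zero_add] at this
    rw [this, sub_self]
  · apply Continuous.intervalIntegrable
    have e1 : (fun x => ⟪fT X R α x, v⟫_ℝ * R x) = fun x => ⟪dh X α 0 x, v⟫_ℝ := by
      funext x
      rw [fT, inner_smul_left, conj_trivial, mul_comm, ← mul_assoc, mul_inv_cancel₀ (F.Rpos x).ne', one_mul]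
    rw [e1]
    exact (sm_sl (hD.sdh F.sm) α 0).continuous.inner continuous_const

end

/-- value at a planar rim -/
lemma W0 {X : ℝ → ℝ → ℝ → E3} {R : ℝ → ℝ} {α : ℝ}
    (hc : ∀ θ, fT X R α θ = cos θ • fT X R α 0 + sin θ • fU X α 0) :
    vW X R α = π ^ 2 • cr (fT X R α 0) (fU X α 0) := by
  set T0 := fT X R α 0
  set U0 := fU X α 0
  have hP : vP X R α = π • T0 := by
    have e1 : (fun θ => cos θ • fT X R α θ) = fun θ => (cos θ ^ 2) • T0 + (sin θ * cos θ) • U0 := by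
      funext θ
      rw [hc θ, smul_add, smul_smul, smul_smul]
      congr 2 <;> ring
    rw [vP, e1, intervalIntegral.integral_add (by apply Continuous.intervalIntegrable; fun_prop)
      (by apply Continuous.intervalIntegrable; fun_prop), intervalIntegral.integral_smul_const,
      intervalIntegral.integral_smul_const, integral_cos_sq, integral_sin_mul_cos₁]
    simp
  have hQ : vQ X R α = π • U0 := by
    have e1 : (fun θ => sin θ • fT X R α θ) = fun θ => (sin θ * cos θ) • T0 + (sin θ ^ 2) • U0 := by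
      funext θ
      rw [hc θ, smul_add, smul_smul, smul_smul]
      congr 2
      ring
    rw [vQ, e1, intervalIntegral.integral_add (by apply Continuous.intervalIntegrable; fun_prop)
      (by apply Continuous.intervalIntegrable; fun_prop), intervalIntegral.integral_smul_const,
      intervalIntegral.integral_smul_const, integral_sin_sq, integral_sin_mul_cos₁]
    simp
  rw [vW, hP, hQ, cr_smul2, sq]

/-- the elementary inequality for the normal component -/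
lemma c_le {a b c : ℝ} (h : a ^ 2 + b ^ 2 + c ^ 2 = 1) : c ≤ 1 - (a ^ 2 + b ^ 2) / 2 := by
  nlinarith [sq_nonneg (a ^ 2 + b ^ 2), sq_nonneg (1 - (a ^ 2 + b ^ 2) / 2 - c), sq_nonneg c, sq_nonneg a,
    sq_nonneg b, sq_nonneg (c - 1)]

/-- from the winding number to the integral inequality -/
lemma wind {a b c ν : ℝ → ℝ} (ca : Continuous a) (cb : Continuous b) (cc : Continuous c) (cν : Continuous ν)
    (a2 : ∀ x, a x ^ 2 ≤ 1 / 4) (hp : ∀ x, a x ^ 2 + b x ^ 2 + c x ^ 2 = 1)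
    (H : ∀ x, (c x - ν x * b x) / (1 - a x ^ 2) ∈ Ioo (1 / 2 : ℝ) (3 / 2))
    (hn : ∃ n : ℤ, ∫ θ in (0:ℝ)..(2 * π), (c θ - ν θ * b θ) / (1 - a θ ^ 2) = 2 * π * n) :
    0 ≤ ∫ x in (0:ℝ)..(2 * π), ((a x ^ 2 - b x ^ 2) / 2 - ν x * b x) / (1 - a x ^ 2) := by
  obtain ⟨n, hn2⟩ := hn
  have hne : ∀ x, 1 - a x ^ 2 ≠ 0 := fun x => by have := a2 x; intro h; linarith
  have cG : Continuous (fun θ => (c θ - ν θ * b θ) / (1 - a θ ^ 2)) :=
    Continuous.div (by fun_prop) (by fun_prop) hne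
  have n1' : n = 1 := by
    have l1 : ∫ θ in (0:ℝ)..(2 * π), (1 / 2 : ℝ) ≤ 2 * π * n := by
      rw [← hn2]
      refine intervalIntegral.integral_mono_on (f := fun _ => (1 / 2 : ℝ)) two_pi_pos.le
        (continuous_const.intervalIntegrable (μ := volume) 0 (2 * π))
        (cG.intervalIntegrable (μ := volume) 0 (2 * π)) ?_
      intro x _
      exact (H x).1.le
    have l2 : 2 * π * n ≤ ∫ θ in (0:ℝ)..(2 * π), (3 / 2 : ℝ) := by
      rw [← hn2]
      refine intervalIntegral.integral_mono_on (g := fun _ => (3 / 2 : ℝ)) two_pi_pos.le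
        (cG.intervalIntegrable (μ := volume) 0 (2 * π))
        (continuous_const.intervalIntegrable (μ := volume) 0 (2 * π)) ?_
      intro x _
      exact (H x).2.le
    rw [intervalIntegral.integral_const, smul_eq_mul, sub_zero] at l1 l2
    have p0 := two_pi_pos
    have l3 : (1 / 2 : ℝ) ≤ n := by
      by_contra h
      push Not at h
      nlinarith
    have l4 : (n : ℝ) ≤ 3 / 2 := by
      by_contra h
      push Not at h
      nlinarith
    have l5 : (0:ℝ) < n := by linarith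
    have l6 : (n:ℝ) < 2 := by linarith
    have l7 : 0 < n := by exact_mod_cast l5
    have l8 : n < 2 := by exact_mod_cast l6
    omega
  have e1 : ∫ x in (0:ℝ)..(2 * π), ((c x - ν x * b x) / (1 - a x ^ 2) - 1) = 0 := by
    rw [intervalIntegral.integral_sub (cG.intervalIntegrable _ _) (continuous_const.intervalIntegrable _ _), hn2, n1']
    simp
  have cG1 : Continuous (fun x => (c x - ν x * b x) / (1 - a x ^ 2) - 1) := cG.sub continuous_const
  have cH1 : Continuous (fun x => ((a x ^ 2 - b x ^ 2) / 2 - ν x * b x) / (1 - a x ^ 2)) :=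
    Continuous.div (by fun_prop) (by fun_prop) hne
  refine e1.symm.le.trans (intervalIntegral.integral_mono_on two_pi_pos.le
    (cG1.intervalIntegrable (μ := volume) 0 (2 * π)) (cH1.intervalIntegrable (μ := volume) 0 (2 * π)) ?_)
  · intro x _
    have h1 := a2 x
    have h2 := c_le (hp x)
    have h3 : 0 < 1 - a x ^ 2 := by linarith
    rw [div_sub_one h3.ne']
    apply div_le_div_of_nonneg_right _ h3.le
    linarith

section
variable {X : ℝ → ℝ → ℝ → E3} {R : ℝ → ℝ} {u₁ u₂ e : E3} (F : Fam X R u₁ u₂ e)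
variable (hG : SpecGAU) (hC : SpecCRS) (hD : SpecDRV)
include F hG hD hC

/-- one value of `α`, all smallness conditions satisfied -/
lemma one (hWND : SpecWND) {α ε m : ℝ} (hm : 0 < m)
    (hrim : ∀ a b c ν τ : ℝ → ℝ, ContDiff ℝ ∞ a → ContDiff ℝ ∞ b → Continuous c → Continuous ν →
    Continuous τ → (∀ x, a (x + 2 * π) = a x) → (∀ x, b (x + 2 * π) = b x) →
    (∀ x, deriv a x = b x + ν x * c x) → (∀ x, deriv b x = -a x + τ x * c x) → (∀ x, |ν x| ≤ (1 / m) * τ x ^ 2) →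
    (∀ x, 1 / 2 ≤ c x) → (∀ x, c x ≤ 1) → (∀ x, |a x| ≤ ε) → (∀ x, |b x| ≤ ε) →
    (∀ x, |iteratedDeriv 2 b x| ≤ ε) → (∀ x, |iteratedDeriv 3 b x| ≤ ε) →
    ∫ x in (0:ℝ)..(2 * π), a x * R x = 0 → ∫ x in (0:ℝ)..(2 * π), a x * cos x = 0 →
    ∫ x in (0:ℝ)..(2 * π), a x * sin x = 0 →
    0 ≤ ∫ x in (0:ℝ)..(2 * π), ((a x ^ 2 - b x ^ 2) / 2 - ν x * b x) / (1 - a x ^ 2) →
    ∀ x, a x = 0 ∧ b x = 0 ∧ τ x = 0)
    (H0 : ∀ θ, m < R θ * |ell X R α θ|)
    (H1 : ∀ θ, ⟪fT X R α θ, ve X R α⟫_ℝ ∈ Ioo (-(min ε (1 / 2))) (min ε (1 / 2)))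
    (H2 : ∀ θ, ⟪(dh^[0] (dt X)) α 0 θ, ve X R α⟫_ℝ ∈ Ioo (-ε) ε)
    (H3 : ∀ θ, ⟪(dh^[2] (dt X)) α 0 θ, ve X R α⟫_ℝ ∈ Ioo (-ε) ε)
    (H4 : ∀ θ, ⟪(dh^[3] (dt X)) α 0 θ, ve X R α⟫_ℝ ∈ Ioo (-ε) ε)
    (H5 : ∀ θ, ⟪fN X R α θ, ve X R α⟫_ℝ ∈ Ioi (1 / 2 : ℝ))
    (H6 : vW X R α ≠ 0)
    (H7 : ∀ θ, (⟪fN X R α θ, ve X R α⟫_ℝ - nu X R α θ * ⟪fU X α θ, ve X R α⟫_ℝ) /
      (1 - ⟪fT X R α θ, ve X R α⟫_ℝ ^ 2) ∈ Ioo (1 / 2 : ℝ) (3 / 2)) (θ : ℝ) : tau X R α θ = 0 := by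
  have nv := ne H6
  have hon := hG.on F α
  have cTα : Continuous (fun θ => fT X R α θ) := (sT F hG hD α).continuous
  have cUα : Continuous (fun θ => fU X α θ) := (sU F hD α).continuous
  have cNα : Continuous (fun θ => fN X R α θ) := slc (fN X R) (cN F hG hC hD) α
  have cnα : Continuous (fun θ => nu X R α θ) := slc (nu X R) (cnu F hG hC hD) α
  have ctα : Continuous (fun θ => tau X R α θ) := slc (tau X R) (ctau F hG hC hD) α
  obtain ⟨a, ha⟩ : ∃ a : ℝ → ℝ, a = fun θ => ⟪fT X R α θ, ve X R α⟫_ℝ := ⟨_, rfl⟩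
  obtain ⟨b, hb⟩ : ∃ b : ℝ → ℝ, b = fun θ => ⟪fU X α θ, ve X R α⟫_ℝ := ⟨_, rfl⟩
  obtain ⟨c, hc⟩ : ∃ c : ℝ → ℝ, c = fun θ => ⟪fN X R α θ, ve X R α⟫_ℝ := ⟨_, rfl⟩
  obtain ⟨ν, hν⟩ : ∃ ν : ℝ → ℝ, ν = fun θ => nu X R α θ := ⟨_, rfl⟩
  obtain ⟨τ, hτ⟩ : ∃ τ : ℝ → ℝ, τ = fun θ => tau X R α θ := ⟨_, rfl⟩
  have a' : ∀ x, ⟪fT X R α x, ve X R α⟫_ℝ = a x := fun x => by rw [ha]
  have b' : ∀ x, ⟪fU X α x, ve X R α⟫_ℝ = b x := fun x => by rw [hb]
  have c' : ∀ x, ⟪fN X R α x, ve X R α⟫_ℝ = c x := fun x => by rw [hc]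
  have ν' : ∀ x, nu X R α x = ν x := fun x => by rw [hν]
  have τ' : ∀ x, tau X R α x = τ x := fun x => by rw [hτ]
  have H2' : ∀ x, b x ∈ Ioo (-ε) ε := fun x => by rw [← b' x]; exact H2 x
  have H3' : ∀ x, iteratedDeriv 2 b x ∈ Ioo (-ε) ε := by
    intro x
    have e1 : iteratedDeriv 2 b x = ⟪(dh^[2] (dt X)) α 0 x, ve X R α⟫_ℝ := by
      rw [hb]; exact congrFun (itb hD (hD.sdt F.sm) (ve X R α) α 0 2) x
    rw [e1]; exact H3 x
  have H4' : ∀ x, iteratedDeriv 3 b x ∈ Ioo (-ε) ε := by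
    intro x
    have e1 : iteratedDeriv 3 b x = ⟪(dh^[3] (dt X)) α 0 x, ve X R α⟫_ℝ := by
      rw [hb]; exact congrFun (itb hD (hD.sdt F.sm) (ve X R α) α 0 3) x
    rw [e1]; exact H4 x
  have hpar : ∀ x, a x ^ 2 + b x ^ 2 + c x ^ 2 = 1 := by
    intro x
    obtain ⟨k1, k2, k3⟩ := hon x
    have h := hC.par _ _ k1 k2 k3 (ve X R α)
    rw [nv, real_inner_comm (fT X R α x), real_inner_comm (fU X α x),
      real_inner_comm (cr (fT X R α x) (fU X α x))] at h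
    rw [← a', ← b', ← c', fN, ← h]
    norm_num
  have sa : ContDiff ℝ ∞ a := by rw [ha]; exact (sT F hG hD α).inner ℝ contDiff_const
  have sb : ContDiff ℝ ∞ b := by rw [hb]; exact (sU F hD α).inner ℝ contDiff_const
  have cc : Continuous c := by rw [hc]; exact cNα.inner continuous_const
  have cν : Continuous ν := by rw [hν]; exact cnα
  have cτ : Continuous τ := by rw [hτ]; exact ctα
  have pa : ∀ x, a (x + 2 * π) = a x := fun x => by rw [← a', ← a', pT F hG]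
  have pb : ∀ x, b (x + 2 * π) = b x := fun x => by rw [← b', ← b', pU F]
  have da : ∀ x, deriv a x = b x + ν x * c x := by
    intro x
    have h1 := (hG.T' F α x).inner ℝ (hasDerivAt_const x (ve X R α))
    rw [ha, h1.deriv, inner_zero_right, zero_add, inner_add_left, inner_smul_left, conj_trivial, b', c', ν']
  have db : ∀ x, deriv b x = -a x + τ x * c x := by
    intro x
    have h1 := (hG.U' F α x).inner ℝ (hasDerivAt_const x (ve X R α))
    rw [hb, h1.deriv, inner_zero_right, zero_add, inner_add_left, inner_smul_left, conj_trivial, inner_neg_left,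
      a', c', τ']
  have hΛ : ∀ x, |ν x| ≤ (1 / m) * τ x ^ 2 := by
    intro x
    have h1 := hG.K F α x
    rw [ν', τ'] at h1
    have h2 := H0 x
    have h3 : |ν x| * (R x * |ell X R α x|) = τ x ^ 2 := by
      have h4 : |R x * ν x * ell X R α x| = τ x ^ 2 := by rw [h1]; exact abs_of_nonneg (sq_nonneg _)
      rw [abs_mul, abs_mul, abs_of_pos (F.Rpos x)] at h4
      rw [← h4]; ring
    have h4 : |ν x| * m ≤ τ x ^ 2 := by
      rw [← h3]
      exact mul_le_mul_of_nonneg_left h2.le (abs_nonneg _)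
    rw [one_div, inv_mul_eq_div, le_div_iff₀ hm]
    exact h4
  have H1' : ∀ x, a x ∈ Ioo (-(min ε (1 / 2))) (min ε (1 / 2)) := fun x => by rw [← a' x]; exact H1 x
  have H5' : ∀ x, 1 / 2 < c x := fun x => by rw [← c' x]; exact H5 x
  have H7' : ∀ x, (c x - ν x * b x) / (1 - a x ^ 2) ∈ Ioo (1 / 2 : ℝ) (3 / 2) := fun x => by
    rw [← c', ← a', ← b', ← ν']; exact H7 x
  have a2 : ∀ x, a x ^ 2 ≤ 1 / 4 := by
    intro x
    have h1 := (H1' x).1
    have h2 := (H1' x).2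
    have h3 : min ε (1 / 2 : ℝ) ≤ 1 / 2 := min_le_right _ _
    nlinarith
  have i1 : ∫ x in (0:ℝ)..(2 * π), a x * R x = 0 := by
    rw [ha]; exact aR F hD α (ve X R α)
  have i2 : ∫ x in (0:ℝ)..(2 * π), a x * cos x = 0 := by
    rw [ha]; exact acos F hG hC hD α
  have i3 : ∫ x in (0:ℝ)..(2 * π), a x * sin x = 0 := by
    rw [ha]; exact asin F hG hC hD α
  have hn : ∃ n : ℤ, ∫ θ in (0:ℝ)..(2 * π), (c θ - ν θ * b θ) / (1 - a θ ^ 2) = 2 * π * n := by
    have g1 : ∀ θ, HasDerivAt (fun s => fT X R α s) (fU X α θ + nu X R α θ • cr (fT X R α θ) (fU X α θ)) θ := by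
      intro θ
      have h := hG.T' F α θ
      rw [fN] at h
      exact h
    have g2 : fT X R α (2 * π) = fT X R α 0 := by
      have := pT F hG α 0
      rwa [zero_add] at this
    have g3 : ∀ θ, ⟪fT X R α θ, ve X R α⟫_ℝ ^ 2 < 1 := by
      intro θ
      have := a2 θ
      rw [a']; linarith
    have h1 := hWND (fun θ => fT X R α θ) (fun θ => fU X α θ) (fun θ => nu X R α θ) (ve X R α) cTα cUα cnα
      g1 g2 hon nv g3
    obtain ⟨n, hn⟩ := h1
    refine ⟨n, ?_⟩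
    rw [← hn]
    apply intervalIntegral.integral_congr
    intro x _
    simp only [← c', ← a', ← b', ← ν', fN]
  have key := wind sa.continuous sb.continuous cc cν a2 hpar H7' hn
  have fin := hrim a b c ν τ sa sb cc cν cτ pa pb da db hΛ (fun x => (H5' x).le)
    (fun x => by
      have h1 := c_le (hpar x)
      nlinarith [sq_nonneg (a x), sq_nonneg (b x)])
    (fun x => by
      have h1 := H1' x
      have h3 : min ε (1 / 2 : ℝ) ≤ ε := min_le_left _ _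
      exact abs_le.mpr ⟨by linarith [h1.1], by linarith [h1.2]⟩)
    (fun x => abs_le.mpr ⟨(H2' x).1.le, (H2' x).2.le⟩)
    (fun x => abs_le.mpr ⟨(H3' x).1.le, (H3' x).2.le⟩)
    (fun x => abs_le.mpr ⟨(H4' x).1.le, (H4' x).2.le⟩) i1 i2 i3 key
  rw [τ']
  exact (fin θ).2.2

end

end OPNM

open OPNM in
/-- **OPN** -/
theorem specOPN (hGAU : SpecGAU) (hWND : SpecWND) (hRMP : SpecRMP) (hCRS : SpecCRS) (hDRV : SpecDRV) :
    SpecOPN := by
  intro X R u₁ u₂ e F α₀ hτ hℓ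
  obtain ⟨Rs, Rp, Rc, Rsn⟩ := hGAU.R F
  have hν : ∀ θ, nu X R α₀ θ = 0 := by
    intro θ
    have h := hGAU.K F α₀ θ
    rw [hτ θ] at h
    have hR := (F.Rpos θ).ne'
    have h2 : R θ * nu X R α₀ θ = 0 := by
      rcases mul_eq_zero.mp (show R θ * nu X R α₀ θ * ell X R α₀ θ = 0 by rw [h]; norm_num) with h3 | h3
      · exact h3
      · exact absurd h3 (hℓ θ)
    rcases mul_eq_zero.mp h2 with h3 | h3
    · exact absurd h3 hR
    · exact h3
  have hT : ∀ θ, HasDerivAt (fun s => fT X R α₀ s) (fU X α₀ θ) θ := by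
    intro θ
    have := hGAU.T' F α₀ θ
    rwa [hν θ, zero_smul, add_zero] at this
  have hU : ∀ θ, HasDerivAt (fun s => fU X α₀ s) (-fT X R α₀ θ) θ := by
    intro θ
    have := hGAU.U' F α₀ θ
    rwa [hτ θ, zero_smul, add_zero] at this
  have hc := MOVM.circ hT hU
  obtain ⟨n1, n2, n3⟩ := hGAU.on F α₀ 0
  obtain ⟨N₀, hN₀⟩ : ∃ N₀, N₀ = cr (fT X R α₀ 0) (fU X α₀ 0) := ⟨_, rfl⟩
  have nN : ‖N₀‖ = 1 := by rw [hN₀]; exact hCRS.nrm _ _ n1 n2 n3
  have hW : vW X R α₀ = π ^ 2 • N₀ := by rw [hN₀]; exact W0 (fun θ => (hc θ).1)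
  have hWne : vW X R α₀ ≠ 0 := by
    rw [hW]
    exact smul_ne_zero (pow_ne_zero _ pi_ne_zero) (norm_ne_zero_iff.mp (by rw [nN]; norm_num))
  have he₀ : ve X R α₀ = N₀ := by
    rw [ve, hW, norm_smul, nN, mul_one, norm_pow, Real.norm_eq_abs, abs_of_pos pi_pos, smul_smul,
      inv_mul_cancel₀ (pow_ne_zero _ pi_ne_zero), one_smul]
  have hNc : ∀ θ, fN X R α₀ θ = N₀ := by
    intro θ
    have hcs := cos_sq_add_sin_sq θ
    rw [fN, (hc θ).1, (hc θ).2, MOVM.cr_comb, show cos θ * cos θ - sin θ * -sin θ = 1 by linear_combination hcs,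
      one_smul, hN₀]
  have hev := ce F hGAU hCRS hDRV hWne
  have hev2 : ∀ θ, ContinuousAt (fun p : ℝ × ℝ => ve X R p.1) (α₀, θ) := fun θ =>
    ContinuousAt.comp (f := fun p : ℝ × ℝ => p.1) (g := ve X R) (x := (α₀, θ)) hev continuousAt_fst
  -- the functions
  have ca : ∀ θ, ContinuousAt (fun p : ℝ × ℝ => ⟪fT X R p.1 p.2, ve X R p.1⟫_ℝ) (α₀, θ) := fun θ =>
    ((cT F hGAU hDRV).continuousAt).inner (hev2 θ)
  have cb : ∀ θ, ContinuousAt (fun p : ℝ × ℝ => ⟪fU X p.1 p.2, ve X R p.1⟫_ℝ) (α₀, θ) := fun θ =>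
    ((cU F hDRV).continuousAt).inner (hev2 θ)
  have cc : ∀ θ, ContinuousAt (fun p : ℝ × ℝ => ⟪fN X R p.1 p.2, ve X R p.1⟫_ℝ) (α₀, θ) := fun θ =>
    ((cN F hGAU hCRS hDRV).continuousAt).inner (hev2 θ)
  have cn : ∀ θ, ContinuousAt (fun p : ℝ × ℝ => nu X R p.1 p.2) (α₀, θ) := fun θ =>
    (cnu F hGAU hCRS hDRV).continuousAt
  have a0 : ∀ θ, ⟪fT X R α₀ θ, ve X R α₀⟫_ℝ = 0 := by
    intro θ; rw [he₀, ← hNc θ, real_inner_comm]; exact hCRS.o1 _ _
  have b0 : ∀ θ, ⟪fU X α₀ θ, ve X R α₀⟫_ℝ = 0 := by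
    intro θ; rw [he₀, ← hNc θ, real_inner_comm]; exact hCRS.o2 _ _
  have c0 : ∀ θ, ⟪fN X R α₀ θ, ve X R α₀⟫_ℝ = 1 := by
    intro θ; rw [he₀, hNc θ, real_inner_self_eq_norm_sq, nN]; norm_num
  have bk0 : ∀ (k : ℕ) (θ : ℝ), ⟪(dh^[k] (dt X)) α₀ 0 θ, ve X R α₀⟫_ℝ = 0 := by
    intro k θ
    have h1 := congrFun (itb hDRV (hDRV.sdt F.sm) (ve X R α₀) α₀ 0 k) θ
    rw [← h1]
    have h2 : (fun θ => ⟪dt X α₀ 0 θ, ve X R α₀⟫_ℝ) = fun _ => 0 := funext b0
    rw [h2]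
    simp
  have cbk : ∀ (k : ℕ) (θ : ℝ), ContinuousAt (fun p : ℝ × ℝ => ⟪(dh^[k] (dt X)) p.1 0 p.2, ve X R p.1⟫_ℝ) (α₀, θ) :=
    fun k θ => ((sm_cont (itS hDRV (hDRV.sdt F.sm) k)).continuousAt).inner (hev2 θ)
  -- lower bound for `R |ℓ|`
  obtain ⟨m, hm, hm2⟩ : ∃ m : ℝ, 0 < m ∧ ∀ᶠ α in 𝓝 α₀, ∀ θ, m < R θ * |ell X R α θ| := by
    have hcont : Continuous (fun θ => R θ * |ell X R α₀ θ|) := by
      have h1 : Continuous (fun θ => ell X R α₀ θ) := slc (ell X R) (cell F hGAU hCRS hDRV) α₀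
      exact Rs.continuous.mul h1.abs
    obtain ⟨x, hx, hx2⟩ := isCompact_Icc.exists_isMinOn (⟨0, by simp [pi_pos.le]⟩ : (Icc (0:ℝ) (2 * π)).Nonempty)
      hcont.continuousOn
    have hm0p : 0 < R x * |ell X R α₀ x| := mul_pos (F.Rpos x) (abs_pos.mpr (hℓ x))
    refine ⟨(R x * |ell X R α₀ x|) / 2, by positivity, ?_⟩
    refine unif (G := fun α θ => R θ * |ell X R α θ|) (O := Ioi ((R x * |ell X R α₀ x|) / 2)) isOpen_Ioi ?_ ?_ ?_
    · intro θ
      have hc1 : Continuous (fun p : ℝ × ℝ => R p.2) := Rs.continuous.comp continuous_snd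
      have hc2 : Continuous (fun p : ℝ × ℝ => |ell X R p.1 p.2|) := (cell F hGAU hCRS hDRV).abs
      exact (hc1.mul hc2).continuousAt
    · intro θ
      have hp : Function.Periodic (fun θ => R θ * |ell X R α₀ θ|) (2 * π) := by
        intro y; simp only [Rp, pell F hGAU]
      obtain ⟨y, hy, hy2⟩ := hp.exists_mem_Ico₀ two_pi_pos θ
      have h3 : R x * |ell X R α₀ x| ≤ R y * |ell X R α₀ y| := hx2 ⟨hy.1, hy.2.le⟩
      simp only [mem_Ioi]
      have h4 : R θ * |ell X R α₀ θ| = R y * |ell X R α₀ y| := hy2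
      rw [h4]
      linarith
    · intro α θ
      simp only [Rp, pell F hGAU]
  obtain ⟨ε, hε, hrim⟩ := hRMP R Rs.continuous Rp F.Rpos Rc Rsn (1 / m) (by positivity)
  -- all smallness conditions
  have ev1 : ∀ᶠ α in 𝓝 α₀, ∀ θ, ⟪fT X R α θ, ve X R α⟫_ℝ ∈ Ioo (-(min ε (1 / 2))) (min ε (1 / 2)) := by
    refine unif (G := fun α θ => ⟪fT X R α θ, ve X R α⟫_ℝ) (O := Ioo (-(min ε (1 / 2))) (min ε (1 / 2)))
      isOpen_Ioo ca ?_ ?_
    · intro θ; rw [a0]; constructor <;> simp [hε]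
    · intro α θ; simp only [pT F hGAU]
  have ev2 : ∀ k : ℕ, ∀ᶠ α in 𝓝 α₀, ∀ θ, ⟪(dh^[k] (dt X)) α 0 θ, ve X R α⟫_ℝ ∈ Ioo (-ε) ε := by
    intro k
    refine unif (G := fun α θ => ⟪(dh^[k] (dt X)) α 0 θ, ve X R α⟫_ℝ) (O := Ioo (-ε) ε) isOpen_Ioo (cbk k) ?_ ?_
    · intro θ; rw [bk0]; constructor <;> simp [hε]
    · intro α θ; simp only [per_it (per_dt F.per)]
  have ev3 : ∀ᶠ α in 𝓝 α₀, ∀ θ, ⟪fN X R α θ, ve X R α⟫_ℝ ∈ Ioi (1 / 2 : ℝ) := by
    refine unif (G := fun α θ => ⟪fN X R α θ, ve X R α⟫_ℝ) (O := Ioi (1 / 2 : ℝ)) isOpen_Ioi cc ?_ ?_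
    · intro θ; rw [c0]; simp only [mem_Ioi]; norm_num
    · intro α θ; simp only [pN F hGAU]
  have ev4 : ∀ᶠ α in 𝓝 α₀, vW X R α ≠ 0 := (cW F hGAU hCRS hDRV).continuousAt.eventually_ne hWne
  have ev5 : ∀ᶠ α in 𝓝 α₀, ∀ θ, (⟪fN X R α θ, ve X R α⟫_ℝ - nu X R α θ * ⟪fU X α θ, ve X R α⟫_ℝ) /
      (1 - ⟪fT X R α θ, ve X R α⟫_ℝ ^ 2) ∈ Ioo (1 / 2 : ℝ) (3 / 2) := by
    refine unif (G := fun α θ => (⟪fN X R α θ, ve X R α⟫_ℝ - nu X R α θ * ⟪fU X α θ, ve X R α⟫_ℝ) /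
      (1 - ⟪fT X R α θ, ve X R α⟫_ℝ ^ 2)) isOpen_Ioo ?_ ?_ ?_
    · intro θ
      refine ((cc θ).sub ((cn θ).mul (cb θ))).div (continuousAt_const.sub ((ca θ).pow 2)) ?_
      simp only [a0]; norm_num
    · intro θ
      rw [a0, b0, c0]; constructor <;> norm_num
    · intro α θ; simp only [pT F hGAU, pU F, pN F hGAU, pnu F hGAU]
  filter_upwards [hm2, ev1, ev2 0, ev2 2, ev2 3, ev3, ev4, ev5] with α H0 H1 H2 H3 H4 H5 H6 H7
  exact one F hGAU hCRS hDRV hWND hm hrim H0 H1 H2 H3 H4 H5 H6 H7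

end Rim478
end

section
set_option autoImplicit false

/-!
Module CLP of MP_478c11_gt (helper9): infinite order rigidity of the rim along a bending.
-/

open Real MeasureTheory Set Filter Topology
open scoped ContDiff InnerProductSpace

namespace Rim478

namespace CLPM

lemma cr_add_left (a b c : E3) : cr (a + b) c = cr a c + cr b c := by
  ext i
  fin_cases i <;> simp [cr] <;> ring

lemma cr_add_right (a b c : E3) : cr a (b + c) = cr a b + cr a c := by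
  ext i
  fin_cases i <;> simp [cr] <;> ring

lemma cr_smul_left (p : ℝ) (a b : E3) : cr (p • a) b = p • cr a b := by
  ext i
  fin_cases i <;> simp [cr] <;> ring

lemma cr_smul_right (p : ℝ) (a b : E3) : cr a (p • b) = p • cr a b := by
  ext i
  fin_cases i <;> simp [cr] <;> ring

lemma cr_self (a : E3) : cr a a = 0 := by
  ext i
  fin_cases i <;> simp [cr] <;> ring

lemma cr_swap (a b : E3) : cr b a = -cr a b := by
  ext i
  fin_cases i <;> simp [cr] <;> ring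

lemma slc1 {Y : Type} [TopologicalSpace Y] (G : ℝ → ℝ → Y) (h : Continuous (fun p : ℝ × ℝ => G p.1 p.2)) (θ : ℝ) :
    Continuous (fun α => G α θ) := by
  have ι : Continuous (fun α : ℝ => ((α, θ) : ℝ × ℝ)) := by fun_prop
  exact h.comp ι

lemma cr_neg_right (a b : E3) : cr a (-b) = -cr a b := by
  ext i
  fin_cases i <;> simp [cr] <;> ring

lemma cr_neg_left (a b : E3) : cr (-a) b = -cr a b := by
  ext i
  fin_cases i <;> simp [cr] <;> ring

/-- an isometry which respects one product of an orthonormal pair respects all products -/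
lemma or_pres (hC : SpecCRS) (g : E3 ≃ₗᵢ[ℝ] E3) {a b : E3} (ha : ‖a‖ = 1) (hb : ‖b‖ = 1) (hab : ⟪a, b⟫_ℝ = 0)
    (h : cr (g a) (g b) = g (cr a b)) (x y : E3) : cr (g x) (g y) = g (cr x y) := by
  have ba : ⟪b, a⟫_ℝ = 0 := by rw [real_inner_comm]; exact hab
  have aa : ⟪a, a⟫_ℝ = 1 := by rw [real_inner_self_eq_norm_sq, ha]; norm_num
  have bb : ⟪b, b⟫_ℝ = 1 := by rw [real_inner_self_eq_norm_sq, hb]; norm_num
  have t1 : ∀ a b : E3, ⟪a, b⟫_ℝ = 0 → ⟪a, a⟫_ℝ = 1 → cr a (cr a b) = -b := by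
    intro a b h1 h2
    rw [hC.dbl, h1, h2]; simp
  have t2 : ∀ a b : E3, ⟪b, a⟫_ℝ = 0 → ⟪b, b⟫_ℝ = 1 → cr b (cr a b) = a := by
    intro a b h1 h2
    rw [cr_swap b a, cr_neg_right, hC.dbl, h1, h2]; simp
  have ga : ⟪g a, g a⟫_ℝ = 1 := by rw [g.inner_map_map]; exact aa
  have gb : ⟪g b, g b⟫_ℝ = 1 := by rw [g.inner_map_map]; exact bb
  have gab : ⟪g a, g b⟫_ℝ = 0 := by rw [g.inner_map_map]; exact hab
  have gba : ⟪g b, g a⟫_ℝ = 0 := by rw [g.inner_map_map]; exact ba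
  have p1 : cr (g a) (g (cr a b)) = g (cr a (cr a b)) := by
    rw [← h, t1 _ _ gab ga, t1 _ _ hab aa, map_neg]
  have p2 : cr (g b) (g (cr a b)) = g (cr b (cr a b)) := by
    rw [← h, t2 _ _ gba gb, t2 _ _ ba bb]
  have p3 : cr (g b) (g a) = g (cr b a) := by
    rw [cr_swap (g a) (g b), h, cr_swap a b, map_neg]
  have p4 : cr (g (cr a b)) (g a) = g (cr (cr a b) a) := by
    rw [cr_swap (g a) (g (cr a b)), p1, cr_swap a (cr a b), map_neg]
  have p5 : cr (g (cr a b)) (g b) = g (cr (cr a b) b) := by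
    rw [cr_swap (g b) (g (cr a b)), p2, cr_swap b (cr a b), map_neg]
  have ex := hC.exp a b ha hb hab x
  have ey := hC.exp a b ha hb hab y
  generalize ⟪x, a⟫_ℝ = x1 at ex
  generalize ⟪x, b⟫_ℝ = x2 at ex
  generalize ⟪x, cr a b⟫_ℝ = x3 at ex
  generalize ⟪y, a⟫_ℝ = y1 at ey
  generalize ⟪y, b⟫_ℝ = y2 at ey
  generalize ⟪y, cr a b⟫_ℝ = y3 at ey
  rw [ex, ey]
  simp only [map_add, map_smul, cr_add_left, cr_add_right, cr_smul_left, cr_smul_right, cr_self, h, p1, p2, p3,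
    p4, p5, map_zero]

section
variable {X : ℝ → ℝ → ℝ → E3} {R : ℝ → ℝ} {u₁ u₂ e : E3}

lemma dt_g (hD : SpecDRV) (g : E3 ≃ₗᵢ[ℝ] E3) (b : E3) {G : ℝ → ℝ → ℝ → E3} (sG : Sm G) :
    dt (fun α t θ => g (G α t θ) + b) = fun α t θ => g (dt G α t θ) := by
  funext α t θ
  have h1 := hD.hdt sG α t θ
  have h3 : HasDerivAt (fun s => g (G α s θ)) (g (dt G α t θ)) t :=
    (g.toContinuousLinearEquiv.toContinuousLinearMap.hasFDerivAt).comp_hasDerivAt t h1
  exact (h3.add_const b).deriv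

lemma dh_g (hD : SpecDRV) (g : E3 ≃ₗᵢ[ℝ] E3) (b : E3) {G : ℝ → ℝ → ℝ → E3} (sG : Sm G) :
    dh (fun α t θ => g (G α t θ) + b) = fun α t θ => g (dh G α t θ) := by
  funext α t θ
  have h1 := hD.hdh sG α t θ
  have h3 : HasDerivAt (fun s => g (G α t s)) (g (dh G α t θ)) θ :=
    (g.toContinuousLinearEquiv.toContinuousLinearMap.hasFDerivAt).comp_hasDerivAt θ h1
  exact (h3.add_const b).deriv

lemma dt_g0 (hD : SpecDRV) (g : E3 ≃ₗᵢ[ℝ] E3) {G : ℝ → ℝ → ℝ → E3} (sG : Sm G) :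
    dt (fun α t θ => g (G α t θ)) = fun α t θ => g (dt G α t θ) := by
  have := dt_g hD g 0 sG
  simpa using this

lemma sm_g (g : E3 ≃ₗᵢ[ℝ] E3) (b : E3) {G : ℝ → ℝ → ℝ → E3} (sG : Sm G) :
    Sm (fun α t θ => g (G α t θ) + b) := by
  have h : ContDiff ℝ ∞ (fun p : ℝ × ℝ × ℝ => g.toContinuousLinearEquiv.toContinuousLinearMap (G p.1 p.2.1 p.2.2)) :=
    (g.toContinuousLinearEquiv.toContinuousLinearMap.contDiff).comp sG
  exact h.add contDiff_const

lemma sm_0 {G : ℝ → ℝ → ℝ → E3} (sG : Sm G) : Sm (fun _ t θ => G 0 t θ) :=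
  ContDiff.comp (g := fun p : ℝ × ℝ × ℝ => G p.1 p.2.1 p.2.2)
    (f := fun p : ℝ × ℝ × ℝ => ((0, p.2.1, p.2.2) : ℝ × ℝ × ℝ)) sG
    (contDiff_const.prodMk contDiff_snd)

/-- the data of a rim with `τ = 0` -/
lemma pack (F : Fam X R u₁ u₂ e) (hD : SpecDRV) (hC : SpecCRS) (hG : SpecGAU) (hM : SpecMOV) {α : ℝ}
    (h1 : ∀ θ, tau X R α θ = 0) (h2 : ∀ θ, ell X R α θ ≠ 0) :
    ∃ (g : E3 ≃ₗᵢ[ℝ] E3) (b : E3), (∀ x y, cr (g x) (g y) = g (cr x y)) ∧
      (∀ θ, g (X α 0 θ) + b = X 0 0 θ) ∧ (∀ θ, g (dt X α 0 θ) = dt X 0 0 θ) ∧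
      (∀ θ, ell X R α θ = ⟪g (dt (dt X) α 0 θ), cr u₁ u₂⟫_ℝ) := by
  obtain ⟨g, b, g1, g2, g3⟩ := hM F α h1 h2
  have g4 : ∀ θ, g (dh X α 0 θ) = dh X 0 0 θ := by
    intro θ
    have e1 := congrFun (congrFun (congrFun (dh_g hD g b F.sm) α) 0) θ
    rw [← e1]
    unfold dh
    congr 1
    funext s
    exact g1 s
  obtain ⟨n1, n2, n3⟩ := hG.on F α 0
  have g5 : g (fT X R α 0) = fT X R 0 0 := by
    rw [fT, fT, map_smul, g4]
  have g6 : cr (g (fT X R α 0)) (g (fU X α 0)) = g (cr (fT X R α 0) (fU X α 0)) := by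
    have e1 : g (cr (fT X R α 0) (fU X α 0)) = e := g3 0
    have e2 : cr (fT X R 0 0) (fU X 0 0) = e := (hG.base F 0).1
    have e3 : g (fU X α 0) = fU X 0 0 := g2 0
    rw [e1, g5, e3, e2]
  refine ⟨g, b, or_pres hC g n1 n2 n3 g6, g1, g2, ?_⟩
  intro θ
  rw [← F.he, ← g3 θ, g.inner_map_map]
  rfl

end

end CLPM

open CLPM OPNM in
/-- **CLP**, strong form -/
theorem clp (hD : SpecDRV) (hC : SpecCRS) (hG : SpecGAU) (hM : SpecMOV) (hO : SpecOPN) (hJ : SpecJET)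
    {X : ℝ → ℝ → ℝ → E3} {R : ℝ → ℝ} {u₁ u₂ e : E3} (F : Fam X R u₁ u₂ e) (α : ℝ) :
    ∃ (g : E3 ≃ₗᵢ[ℝ] E3) (b : E3), (∀ x y, cr (g x) (g y) = g (cr x y)) ∧
      ∀ (k : ℕ) (θ : ℝ), (dt^[k] (fun α t θ => g (X α t θ) + b)) α 0 θ = (dt^[k] (fun _ t θ => X 0 t θ)) α 0 θ := by
  have hct : ∀ θ, Continuous (fun α => tau X R α θ) := slc1 (tau X R) (ctau F hG hC hD)
  have hce : ∀ θ, Continuous (fun α => ell X R α θ) := slc1 (ell X R) (cell F hG hC hD)
  -- the strips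
  have s0 : Sm (fun (_ : ℝ) t θ => X 0 t θ) := sm_0 F.sm
  have gmet : ∀ (g : E3 ≃ₗᵢ[ℝ] E3) (b : E3) (α : ℝ),
      (∀ t θ, ⟪dh (fun α t θ => g (X α t θ) + b) α t θ, dh (fun α t θ => g (X α t θ) + b) α t θ⟫_ℝ =
        ⟪dh (fun _ t θ => X 0 t θ) α t θ, dh (fun _ t θ => X 0 t θ) α t θ⟫_ℝ) ∧
      (∀ t θ, ⟪dt (fun α t θ => g (X α t θ) + b) α t θ, dh (fun α t θ => g (X α t θ) + b) α t θ⟫_ℝ =
        ⟪dt (fun _ t θ => X 0 t θ) α t θ, dh (fun _ t θ => X 0 t θ) α t θ⟫_ℝ) ∧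
      (∀ t θ, ⟪dt (fun α t θ => g (X α t θ) + b) α t θ, dt (fun α t θ => g (X α t θ) + b) α t θ⟫_ℝ =
        ⟪dt (fun _ t θ => X 0 t θ) α t θ, dt (fun _ t θ => X 0 t θ) α t θ⟫_ℝ) := by
    intro g b α
    rw [dt_g hD g b F.sm, dh_g hD g b F.sm]
    refine ⟨fun t θ => ?_, fun t θ => ?_, fun t θ => ?_⟩
    · simp only [g.inner_map_map]; exact F.gE α t θ
    · simp only [g.inner_map_map]; exact F.gF α t θ
    · simp only [g.inner_map_map]; exact F.gG α t θ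
  have dd : ∀ (g : E3 ≃ₗᵢ[ℝ] E3) (b : E3) (α θ : ℝ), dt (dt (fun α t θ => g (X α t θ) + b)) α 0 θ =
      g (dt (dt X) α 0 θ) := by
    intro g b α θ
    rw [dt_g hD g b F.sm, dt_g0 hD g (hD.sdt F.sm)]
  have b0 : ∀ θ, ell X R 0 θ = ⟪dt (dt X) 0 0 θ, cr u₁ u₂⟫_ℝ := by
    intro θ
    rw [ell, (hG.base F θ).1, F.he]
  have b1 : ∀ θ, ell X R 0 θ ≠ 0 := fun θ => (hG.base F θ).2.2
  have S1 : ∀ α, (∀ θ, tau X R α θ = 0) ∧ ∀ θ, ell X R α θ = ell X R 0 θ := by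
    have hcl : IsClosed {α | (∀ θ, tau X R α θ = 0) ∧ ∀ θ, ell X R α θ = ell X R 0 θ} := by
      simp only [setOf_and, setOf_forall]
      refine IsClosed.inter (isClosed_iInter fun θ => ?_) (isClosed_iInter fun θ => ?_)
      · exact isClosed_eq (hct θ) continuous_const
      · exact isClosed_eq (hce θ) continuous_const
    have hop : IsOpen {α | (∀ θ, tau X R α θ = 0) ∧ ∀ θ, ell X R α θ = ell X R 0 θ} := by
      rw [isOpen_iff_mem_nhds]
      rintro α₀ ⟨h1, h2⟩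
      have h3 : ∀ θ, ell X R α₀ θ ≠ 0 := fun θ => by rw [h2 θ]; exact b1 θ
      have v1 := hO F α₀ h1 h3
      have v2 : ∀ᶠ α in 𝓝 α₀, ∀ θ, ell X R α θ * ell X R 0 θ ∈ Ioi (0:ℝ) := by
        refine unif (G := fun α θ => ell X R α θ * ell X R 0 θ) (O := Ioi (0:ℝ)) isOpen_Ioi ?_ ?_ ?_
        · intro θ
          have c1 : Continuous (fun p : ℝ × ℝ => ell X R p.1 p.2) := cell F hG hC hD
          have c2 : Continuous (fun p : ℝ × ℝ => ell X R 0 p.2) :=
            (slc (ell X R) c1 0).comp continuous_snd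
          exact (c1.mul c2).continuousAt
        · intro θ
          have := mul_self_pos.mpr (b1 θ)
          simp only [h2 θ, mem_Ioi]
          exact this
        · intro α θ
          simp only [pell F hG]
      filter_upwards [v1, v2] with α w1 w2
      have w3 : ∀ θ, ell X R α θ ≠ 0 := by
        intro θ h
        have := w2 θ
        simp only [h, zero_mul, mem_Ioi, lt_self_iff_false] at this
      obtain ⟨g, b, g0, g1, g2, g3⟩ := pack F hD hC hG hM w1 w3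
      refine ⟨w1, ?_⟩
      obtain ⟨m1, m2, m3⟩ := gmet g b α
      have jt := hJ.two (X := fun _ t θ => X 0 t θ) (Y := fun α t θ => g (X α t θ) + b) (R := R) (u₁ := u₁)
        (u₂ := u₂) (α := α) s0 (sm_g g b F.sm) F.h1 F.h2 F.h12 F.Rpos m1 m2 m3 F.tan F.nor g1
        (fun θ => by rw [dt_g hD g b F.sm]; exact g2 θ)
      intro θ
      have j1 := jt θ
      rw [dd g b α θ, ← g3 θ] at j1
      have j2 : ⟪dt (dt fun _ t θ => X 0 t θ) α 0 θ, cr u₁ u₂⟫_ℝ = ell X R 0 θ := (b0 θ).symm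
      rw [j2] at j1
      rcases j1 with j1 | j1
      · exact j1
      · have := w2 θ
        rw [j1] at this
        have h5 := mul_self_pos.mpr (b1 θ)
        simp only [mem_Ioi] at this
        nlinarith
    have hun : {α | (∀ θ, tau X R α θ = 0) ∧ ∀ θ, ell X R α θ = ell X R 0 θ} = univ :=
      IsClopen.eq_univ ⟨hcl, hop⟩ ⟨0, fun θ => (hG.base F θ).2.1, fun θ => rfl⟩
    intro α
    have : α ∈ {α | (∀ θ, tau X R α θ = 0) ∧ ∀ θ, ell X R α θ = ell X R 0 θ} := by rw [hun]; trivial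
    exact this
  obtain ⟨h1, h2⟩ := S1 α
  have h3 : ∀ θ, ell X R α θ ≠ 0 := fun θ => by rw [h2 θ]; exact b1 θ
  obtain ⟨g, b, g0, g1, g2, g3⟩ := pack F hD hC hG hM h1 h3
  refine ⟨g, b, g0, ?_⟩
  obtain ⟨m1, m2, m3⟩ := gmet g b α
  exact hJ.all (X := fun _ t θ => X 0 t θ) (Y := fun α t θ => g (X α t θ) + b) (R := R) (u₁ := u₁)
        (u₂ := u₂) (α := α) s0 (sm_g g b F.sm) F.h1 F.h2 F.h12 F.Rpos m1 m2 m3 F.tan F.nor g1
        (fun θ => by rw [dt_g hD g b F.sm]; exact g2 θ)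
        (fun θ => by
          have j2 : ⟪dt (dt fun _ t θ => X 0 t θ) α 0 θ, cr u₁ u₂⟫_ℝ = ell X R 0 θ := (b0 θ).symm
          rw [j2]; exact b1 θ)
        (fun θ => by
          have j2 : ⟪dt (dt fun _ t θ => X 0 t θ) α 0 θ, cr u₁ u₂⟫_ℝ = ell X R 0 θ := (b0 θ).symm
          rw [dd g b α θ, ← g3 θ, j2]; exact h2 θ)

/-- **CLP** -/
theorem specCLP (hDRV : SpecDRV) (hCRS : SpecCRS) (hGAU : SpecGAU) (hMOV : SpecMOV) (hOPN : SpecOPN)
    (hJET : SpecJET) : SpecCLP := by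
  intro X R u₁ u₂ e F α
  obtain ⟨g, b, _, h⟩ := clp hDRV hCRS hGAU hMOV hOPN hJET F α
  refine ⟨g, b, ?_⟩
  intro k θ
  have h1 := hDRV.itd (CLPM.sm_g g b F.sm) k α 0 θ
  have h2 := hDRV.itd (CLPM.sm_0 F.sm) k α 0 θ
  have h3 : iteratedDeriv k (fun t => g (X α t θ) + b) 0 = iteratedDeriv k (fun t => X 0 t θ) 0 :=
    h1.trans ((h k θ).trans h2.symm)
  exact h3

end Rim478
end

section
set_option autoImplicit false

/-!
# CRS: the cross product
-/

open Real MeasureTheory Set Filter Topology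
open scoped ContDiff InnerProductSpace Manifold

namespace Rim478

namespace CRSM

theorem inn3 (a b : E3) : ⟪a, b⟫_ℝ = a 0 * b 0 + a 1 * b 1 + a 2 * b 2 := by
  rw [PiLp.inner_apply, Fin.sum_univ_three]
  simp only [RCLike.inner_apply, conj_trivial]
  ring

theorem cr0 (a b : E3) : cr a b 0 = a 1 * b 2 - a 2 * b 1 := rfl
theorem cr1 (a b : E3) : cr a b 1 = a 2 * b 0 - a 0 * b 2 := rfl
theorem cr2 (a b : E3) : cr a b 2 = a 0 * b 1 - a 1 * b 0 := rfl

theorem ext3 {a b : E3} (h0 : a 0 = b 0) (h1 : a 1 = b 1) (h2 : a 2 = b 2) : a = b := by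
  ext i
  fin_cases i
  · exact h0
  · exact h1
  · exact h2

theorem sm0 : ContDiff ℝ ∞ (fun p : E3 × E3 => cr p.1 p.2) := by
  have hc : ∀ i : Fin 3, ContDiff ℝ ∞ (fun p : E3 × E3 => p.1 i) := fun i =>
    (contDiff_euclidean.1 contDiff_id i).comp contDiff_fst
  have hd : ∀ i : Fin 3, ContDiff ℝ ∞ (fun p : E3 × E3 => p.2 i) := fun i =>
    (contDiff_euclidean.1 contDiff_id i).comp contDiff_snd
  rw [contDiff_euclidean]
  intro i
  fin_cases i
  · exact ((hc 1).mul (hd 2)).sub ((hc 2).mul (hd 1))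
  · exact ((hc 2).mul (hd 0)).sub ((hc 0).mul (hd 2))
  · exact ((hc 0).mul (hd 1)).sub ((hc 1).mul (hd 0))

theorem lag0 (a b c d : E3) :
    ⟪cr a b, cr c d⟫_ℝ = ⟪a, c⟫_ℝ * ⟪b, d⟫_ℝ - ⟪a, d⟫_ℝ * ⟪b, c⟫_ℝ := by
  simp only [inn3, cr0, cr1, cr2]
  ring

theorem o10 (a b : E3) : ⟪cr a b, a⟫_ℝ = 0 := by
  simp only [inn3, cr0, cr1, cr2]
  ring

theorem o20 (a b : E3) : ⟪cr a b, b⟫_ℝ = 0 := by
  simp only [inn3, cr0, cr1, cr2]
  ring

theorem dbl0 (a b : E3) : cr a (cr a b) = ⟪a, b⟫_ℝ • a - ⟪a, a⟫_ℝ • b := by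
  apply ext3 <;>
  · simp only [cr0, cr1, cr2, inn3, PiLp.sub_apply, PiLp.smul_apply, smul_eq_mul]
    ring

theorem nrm0 (a b : E3) (ha : ‖a‖ = 1) (hb : ‖b‖ = 1) (h : ⟪a, b⟫_ℝ = 0) : ‖cr a b‖ = 1 := by
  have h1 : ‖cr a b‖ ^ 2 = 1 := by
    rw [← real_inner_self_eq_norm_sq, lag0, real_inner_self_eq_norm_sq,
      real_inner_self_eq_norm_sq, real_inner_comm a b, ha, hb]
    simp [h]
  nlinarith [norm_nonneg (cr a b)]

/-- The orthonormal basis `a, b, a × b`. -/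
theorem onb (a b : E3) (ha : ‖a‖ = 1) (hb : ‖b‖ = 1) (h : ⟪a, b⟫_ℝ = 0) :
    ∃ B : OrthonormalBasis (Fin 3) ℝ E3, B 0 = a ∧ B 1 = b ∧ B 2 = cr a b := by
  have hv : Orthonormal ℝ (![a, b, cr a b] : Fin 3 → E3) := by
    have e1 : ⟪b, a⟫_ℝ = 0 := by rw [real_inner_comm]; exact h
    have e2 : ⟪a, cr a b⟫_ℝ = 0 := by rw [real_inner_comm]; exact o10 a b
    have e3 : ⟪b, cr a b⟫_ℝ = 0 := by rw [real_inner_comm]; exact o20 a b
    refine ⟨fun i => ?_, fun i j hij => ?_⟩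
    · fin_cases i
      · exact ha
      · exact hb
      · exact nrm0 a b ha hb h
    · fin_cases i <;> fin_cases j
      · exact absurd rfl hij
      · exact h
      · exact e2
      · exact e1
      · exact absurd rfl hij
      · exact e3
      · exact o10 a b
      · exact o20 a b
      · exact absurd rfl hij
  have hcard : Fintype.card (Fin 3) = Module.finrank ℝ E3 := by simp
  set B0 := basisOfOrthonormalOfCardEqFinrank hv hcard with hB0
  have hc : (B0 : Fin 3 → E3) = ![a, b, cr a b] :=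
    coe_basisOfOrthonormalOfCardEqFinrank hv hcard
  have hon : Orthonormal ℝ (B0 : Fin 3 → E3) := by rw [hc]; exact hv
  refine ⟨B0.toOrthonormalBasis hon, ?_, ?_, ?_⟩
  · rw [Module.Basis.coe_toOrthonormalBasis, hc]; rfl
  · rw [Module.Basis.coe_toOrthonormalBasis, hc]; rfl
  · rw [Module.Basis.coe_toOrthonormalBasis, hc]; rfl

theorem frm0 (e : E3) (he : ‖e‖ = 1) :
    ∃ a b : E3, ‖a‖ = 1 ∧ ‖b‖ = 1 ∧ ⟪a, b⟫_ℝ = 0 ∧ cr a b = e := by
  have key : ∀ a : E3, ‖a‖ = 1 → ⟪e, a⟫_ℝ = 0 → ∃ a b : E3, ‖a‖ = 1 ∧ ‖b‖ = 1 ∧ ⟪a, b⟫_ℝ = 0 ∧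
      cr a b = e := by
    intro a ha h
    refine ⟨a, cr e a, ha, nrm0 e a he ha h, ?_, ?_⟩
    · rw [real_inner_comm]
      exact o20 e a
    · have h1 : ⟪a, a⟫_ℝ = 1 := by rw [real_inner_self_eq_norm_sq, ha]; norm_num
      have h2 : cr a (cr e a) = ⟪a, a⟫_ℝ • e - ⟪e, a⟫_ℝ • a := by
        apply ext3 <;>
        · simp only [cr0, cr1, cr2, inn3, PiLp.sub_apply, PiLp.smul_apply, smul_eq_mul]
          ring
      rw [h2, h1, h]
      simp
  by_cases h : e 0 ^ 2 + e 1 ^ 2 = 0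
  · have h0 : e 0 = 0 := by nlinarith [sq_nonneg (e 0), sq_nonneg (e 1)]
    refine key !₂[1, 0, 0] ?_ ?_
    · have : ‖(!₂[(1 : ℝ), 0, 0] : E3)‖ ^ 2 = 1 := by
        rw [← real_inner_self_eq_norm_sq, inn3]
        simp
      nlinarith [norm_nonneg (!₂[(1 : ℝ), 0, 0] : E3)]
    · rw [inn3]
      simp [h0]
  · have hpos : 0 < e 0 ^ 2 + e 1 ^ 2 :=
      lt_of_le_of_ne (by positivity) (Ne.symm h)
    have hs : √(e 0 ^ 2 + e 1 ^ 2) ^ 2 = e 0 ^ 2 + e 1 ^ 2 := Real.sq_sqrt hpos.le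
    have hs0 : 0 < √(e 0 ^ 2 + e 1 ^ 2) := Real.sqrt_pos.2 hpos
    set r := √(e 0 ^ 2 + e 1 ^ 2) with hr
    have hv : ‖(r⁻¹ • !₂[-e 1, e 0, 0] : E3)‖ ^ 2 = 1 := by
      rw [← real_inner_self_eq_norm_sq, inn3]
      simp only [PiLp.smul_apply, smul_eq_mul]
      simp only [Matrix.cons_val_zero, Matrix.cons_val_one, Matrix.cons_val]
      field_simp
      rw [hs]
      ring
    refine key (r⁻¹ • !₂[-e 1, e 0, 0]) ?_ ?_
    · nlinarith [norm_nonneg (r⁻¹ • !₂[-e 1, e 0, 0] : E3)]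
    · rw [inn3]
      simp only [PiLp.smul_apply, smul_eq_mul]
      simp only [Matrix.cons_val_zero, Matrix.cons_val_one, Matrix.cons_val]
      ring

end CRSM

open CRSM in
theorem specCRS : SpecCRS where
  sm := sm0
  o1 := o10
  o2 := o20
  lag := lag0
  dbl := dbl0
  nrm := nrm0
  exp := fun a b ha hb h x => by
    obtain ⟨B, h0, h1, h2⟩ := onb a b ha hb h
    have h3 := B.sum_repr' x
    rw [Fin.sum_univ_three, h0, h1, h2] at h3
    rw [real_inner_comm a x, real_inner_comm b x, real_inner_comm (cr a b) x]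
    exact h3.symm
  par := fun a b ha hb h x => by
    obtain ⟨B, h0, h1, h2⟩ := onb a b ha hb h
    have h3 := B.sum_sq_norm_inner_right x
    rw [Fin.sum_univ_three, h0, h1, h2] at h3
    rw [real_inner_comm a x, real_inner_comm b x, real_inner_comm (cr a b) x, ← h3]
    simp only [Real.norm_eq_abs, sq_abs]
  mot := fun a b a' b' ha hb h ha' hb' h' => by
    obtain ⟨B, h0, h1, h2⟩ := onb a b ha hb h
    obtain ⟨B', h0', h1', h2'⟩ := onb a' b' ha' hb' h'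
    refine ⟨B.equiv B' (Equiv.refl _), ?_, ?_, ?_⟩
    · rw [← h0, ← h0', OrthonormalBasis.equiv_apply_basis]
      rfl
    · rw [← h1, ← h1', OrthonormalBasis.equiv_apply_basis]
      rfl
    · rw [← h2, ← h2', OrthonormalBasis.equiv_apply_basis]
      rfl
  frm := frm0

end Rim478
end

section
set_option autoImplicit false

/-!
# DRV: partial derivatives of smooth functions of three variables
-/

open Real MeasureTheory Set Filter Topology
open scoped ContDiff InnerProductSpace Manifold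

namespace Rim478

namespace DRVM

section

variable {V : Type} [NormedAddCommGroup V] [NormedSpace ℝ V] {G : ℝ → ℝ → ℝ → V}

/-- uncurried function -/
def unc (G : ℝ → ℝ → ℝ → V) : ℝ × ℝ × ℝ → V := fun p => G p.1 p.2.1 p.2.2

theorem hasF (hG : Sm G) (p : ℝ × ℝ × ℝ) : HasFDerivAt (unc G) (fderiv ℝ (unc G) p) p :=
  ((hG.differentiable (by simp)) p).hasFDerivAt

theorem hdt0 (hG : Sm G) (α t θ : ℝ) :
    HasDerivAt (fun s => G α s θ) (fderiv ℝ (unc G) (α, t, θ) (0, 1, 0)) t := by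
  have h1 : HasDerivAt (fun s : ℝ => ((α, s, θ) : ℝ × ℝ × ℝ)) (0, 1, 0) t :=
    (hasDerivAt_const t α).prodMk ((hasDerivAt_id t).prodMk (hasDerivAt_const t θ))
  exact (hasF hG (α, t, θ)).comp_hasDerivAt t h1

theorem hdh0 (hG : Sm G) (α t θ : ℝ) :
    HasDerivAt (fun s => G α t s) (fderiv ℝ (unc G) (α, t, θ) (0, 0, 1)) θ := by
  have h1 : HasDerivAt (fun s : ℝ => ((α, t, s) : ℝ × ℝ × ℝ)) (0, 0, 1) θ :=
    (hasDerivAt_const θ α).prodMk ((hasDerivAt_const θ t).prodMk (hasDerivAt_id θ))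
  exact (hasF hG (α, t, θ)).comp_hasDerivAt θ h1

theorem dt_eq (hG : Sm G) (α t θ : ℝ) : dt G α t θ = fderiv ℝ (unc G) (α, t, θ) (0, 1, 0) :=
  (hdt0 hG α t θ).deriv

theorem dh_eq (hG : Sm G) (α t θ : ℝ) : dh G α t θ = fderiv ℝ (unc G) (α, t, θ) (0, 0, 1) :=
  (hdh0 hG α t θ).deriv

theorem smF (hG : Sm G) (v : ℝ × ℝ × ℝ) :
    ContDiff ℝ ∞ (fun p : ℝ × ℝ × ℝ => fderiv ℝ (unc G) p v) :=
  (hG.fderiv_right (m := ∞) (by simp)).clm_apply contDiff_const

theorem sdt0 (hG : Sm G) : Sm (dt G) := by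
  have : (fun p : ℝ × ℝ × ℝ => dt G p.1 p.2.1 p.2.2) =
      fun p : ℝ × ℝ × ℝ => fderiv ℝ (unc G) p (0, 1, 0) := funext fun p => dt_eq hG _ _ _
  unfold Sm
  rw [this]
  exact smF hG _

theorem sdh0 (hG : Sm G) : Sm (dh G) := by
  have : (fun p : ℝ × ℝ × ℝ => dh G p.1 p.2.1 p.2.2) =
      fun p : ℝ × ℝ × ℝ => fderiv ℝ (unc G) p (0, 0, 1) := funext fun p => dh_eq hG _ _ _
  unfold Sm
  rw [this]
  exact smF hG _

theorem second (hG : Sm G) (p v w : ℝ × ℝ × ℝ) :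
    fderiv ℝ (fun q : ℝ × ℝ × ℝ => fderiv ℝ (unc G) q v) p w =
      fderiv ℝ (fderiv ℝ (unc G)) p w v := by
  have h1 : DifferentiableAt ℝ (fderiv ℝ (unc G)) p :=
    ((hG.fderiv_right (m := ∞) (by simp)).differentiable (by simp)) p
  have h2 := h1.hasFDerivAt.clm_apply (hasFDerivAt_const v p)
  rw [h2.fderiv]
  simp

theorem comm0 (hG : Sm G) : dt (dh G) = dh (dt G) := by
  funext α t θ
  rw [dt_eq (sdh0 hG), dh_eq (sdt0 hG)]
  have h1 : unc (dh G) = fun p : ℝ × ℝ × ℝ => fderiv ℝ (unc G) p (0, 0, 1) :=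
    funext fun p => dh_eq hG _ _ _
  have h2 : unc (dt G) = fun p : ℝ × ℝ × ℝ => fderiv ℝ (unc G) p (0, 1, 0) :=
    funext fun p => dt_eq hG _ _ _
  rw [h1, h2, second hG, second hG]
  have h3 : IsSymmSndFDerivAt ℝ (unc G) (α, t, θ) :=
    (ContDiff.contDiffAt hG).isSymmSndFDerivAt (by
      rw [minSmoothness_of_isRCLikeNormedField]
      exact WithTop.coe_le_coe.2 (le_top (a := (2:ℕ∞))))
  exact h3 _ _

end

end DRVM

open DRVM in
theorem specDRV : SpecDRV where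
  sdt := sdt0
  sdh := sdh0
  hdt := fun hG α t θ => by
    rw [dt_eq hG]
    exact hdt0 hG α t θ
  hdh := fun hG α t θ => by
    rw [dh_eq hG]
    exact hdh0 hG α t θ
  comm := comm0
  inn := fun hF hG => ContDiff.inner ℝ hF hG
  idt := fun {F G} hF hG α t θ => by
    have h1 := hdt0 hF α t θ
    have h2 := hdt0 hG α t θ
    rw [← dt_eq hF] at h1
    rw [← dt_eq hG] at h2
    have h3 := (h1.inner ℝ h2).deriv
    change deriv (fun s => ⟪F α s θ, G α s θ⟫_ℝ) t = _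
    rw [h3]
    ring
  idh := fun {F G} hF hG α t θ => by
    have h1 := hdh0 hF α t θ
    have h2 := hdh0 hG α t θ
    rw [← dh_eq hF] at h1
    rw [← dh_eq hG] at h2
    have h3 := (h1.inner ℝ h2).deriv
    change deriv (fun s => ⟪F α t s, G α t s⟫_ℝ) θ = _
    rw [h3]
    ring
  itd := fun {V} _ _ {G} hG k α t θ => by
    clear hG
    induction k generalizing G with
    | zero => simp
    | succ k ih =>
      rw [iteratedDeriv_succ', Function.iterate_succ_apply, ← ih]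
      rfl

end Rim478
end

section
set_option autoImplicit false

/-!
Module GAU of MP_478c11_gt (helper9): the rim equations.
-/

open Real MeasureTheory Set Filter Topology
open scoped ContDiff InnerProductSpace

namespace Rim478

namespace GAUM

section
variable {V : Type} [NormedAddCommGroup V] [NormedSpace ℝ V]

lemma ind_dt {G : ℝ → ℝ → ℝ → V} (h : ∀ α t θ, G α t θ = G 0 t θ) (α t θ : ℝ) :
    dt G α t θ = dt G 0 t θ := by
  unfold dt
  congr 1
  funext s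
  exact h α s θ

lemma ind_dh {G : ℝ → ℝ → ℝ → V} (h : ∀ α t θ, G α t θ = G 0 t θ) (α t θ : ℝ) :
    dh G α t θ = dh G 0 t θ := by
  unfold dh
  congr 1
  funext s
  exact h α t s

lemma per_dh {G : ℝ → ℝ → ℝ → V} (h : ∀ α t θ, G α t (θ + 2 * π) = G α t θ) (α t θ : ℝ) :
    dh G α t (θ + 2 * π) = dh G α t θ := by
  unfold dh
  rw [← deriv_comp_add_const]
  congr 1
  funext s
  exact h α t s

end

section
variable (hD : SpecDRV) {X : ℝ → ℝ → ℝ → E3} (sX : Sm X)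
include hD sX

/-- first derivatives of the metric -/
lemma m1 (α t θ : ℝ) :
    ⟪dh (dh X) α t θ, dh X α t θ⟫_ℝ = (1 / 2) * dh (fun α t θ => ⟪dh X α t θ, dh X α t θ⟫_ℝ) α t θ := by
  rw [hD.idh (hD.sdh sX) (hD.sdh sX), real_inner_comm (dh (dh X) α t θ) (dh X α t θ)]
  ring

lemma m2 (α t θ : ℝ) :
    ⟪dh (dt X) α t θ, dh X α t θ⟫_ℝ = (1 / 2) * dt (fun α t θ => ⟪dh X α t θ, dh X α t θ⟫_ℝ) α t θ := by
  rw [hD.idt (hD.sdh sX) (hD.sdh sX), real_inner_comm (dt (dh X) α t θ) (dh X α t θ), hD.comm sX]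
  ring

lemma m3 (α t θ : ℝ) :
    ⟪dt (dt X) α t θ, dt X α t θ⟫_ℝ = (1 / 2) * dt (fun α t θ => ⟪dt X α t θ, dt X α t θ⟫_ℝ) α t θ := by
  rw [hD.idt (hD.sdt sX) (hD.sdt sX), real_inner_comm (dt (dt X) α t θ) (dt X α t θ)]
  ring

lemma m4 (α t θ : ℝ) :
    ⟪dh (dt X) α t θ, dt X α t θ⟫_ℝ = (1 / 2) * dh (fun α t θ => ⟪dt X α t θ, dt X α t θ⟫_ℝ) α t θ := by
  rw [hD.idh (hD.sdt sX) (hD.sdt sX), real_inner_comm (dh (dt X) α t θ) (dt X α t θ)]
  ring

lemma m5 (α t θ : ℝ) :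
    ⟪dt (dt X) α t θ, dh X α t θ⟫_ℝ = dt (fun α t θ => ⟪dt X α t θ, dh X α t θ⟫_ℝ) α t θ -
      (1 / 2) * dh (fun α t θ => ⟪dt X α t θ, dt X α t θ⟫_ℝ) α t θ := by
  rw [← m4 hD sX, hD.idt (hD.sdt sX) (hD.sdh sX), hD.comm sX, real_inner_comm (dh (dt X) α t θ) (dt X α t θ)]
  ring

lemma m6 (α t θ : ℝ) :
    ⟪dh (dh X) α t θ, dt X α t θ⟫_ℝ = dh (fun α t θ => ⟪dt X α t θ, dh X α t θ⟫_ℝ) α t θ -
      (1 / 2) * dt (fun α t θ => ⟪dh X α t θ, dh X α t θ⟫_ℝ) α t θ := by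
  rw [← m2 hD sX, hD.idh (hD.sdt sX) (hD.sdh sX), real_inner_comm (dh (dh X) α t θ) (dt X α t θ)]
  ring

/-- the Gauss equation -/
lemma m7 (α t θ : ℝ) :
    ⟪dt (dt X) α t θ, dh (dh X) α t θ⟫_ℝ - ⟪dh (dt X) α t θ, dh (dt X) α t θ⟫_ℝ =
      dt (dh (fun α t θ => ⟪dt X α t θ, dh X α t θ⟫_ℝ)) α t θ -
      (1 / 2) * dt (dt (fun α t θ => ⟪dh X α t θ, dh X α t θ⟫_ℝ)) α t θ -
      (1 / 2) * dh (dh (fun α t θ => ⟪dt X α t θ, dt X α t θ⟫_ℝ)) α t θ := by
  have st := hD.sdt sX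
  have sh := hD.sdh sX
  have sth := hD.sdh st
  have shh := hD.sdh sh
  have stt := hD.sdt st
  have eF : dh (fun α t θ => ⟪dt X α t θ, dh X α t θ⟫_ℝ) =
      fun α t θ => ⟪dh (dt X) α t θ, dh X α t θ⟫_ℝ + ⟪dt X α t θ, dh (dh X) α t θ⟫_ℝ := by
    funext α t θ
    exact hD.idh st sh α t θ
  have eE : dt (fun α t θ => ⟪dh X α t θ, dh X α t θ⟫_ℝ) =
      fun α t θ => 2 * ⟪dh (dt X) α t θ, dh X α t θ⟫_ℝ := by
    funext α t θ
    rw [m2 hD sX]; ring
  have eG : dh (fun α t θ => ⟪dt X α t θ, dt X α t θ⟫_ℝ) =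
      fun α t θ => 2 * ⟪dh (dt X) α t θ, dt X α t θ⟫_ℝ := by
    funext α t θ
    rw [m4 hD sX]; ring
  have aF : dt (fun α t θ => ⟪dh (dt X) α t θ, dh X α t θ⟫_ℝ + ⟪dt X α t θ, dh (dh X) α t θ⟫_ℝ) α t θ =
      (⟪dt (dh (dt X)) α t θ, dh X α t θ⟫_ℝ + ⟪dh (dt X) α t θ, dt (dh X) α t θ⟫_ℝ) +
      (⟪dt (dt X) α t θ, dh (dh X) α t θ⟫_ℝ + ⟪dt X α t θ, dt (dh (dh X)) α t θ⟫_ℝ) := by
    rw [← hD.idt sth sh, ← hD.idt st shh]
    exact ((hD.hdt (hD.inn sth sh) α t θ).add (hD.hdt (hD.inn st shh) α t θ)).deriv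
  have aE : dt (fun α t θ => 2 * ⟪dh (dt X) α t θ, dh X α t θ⟫_ℝ) α t θ =
      2 * (⟪dt (dh (dt X)) α t θ, dh X α t θ⟫_ℝ + ⟪dh (dt X) α t θ, dt (dh X) α t θ⟫_ℝ) := by
    rw [← hD.idt sth sh]
    exact ((hD.hdt (hD.inn sth sh) α t θ).const_mul 2).deriv
  have aG : dh (fun α t θ => 2 * ⟪dh (dt X) α t θ, dt X α t θ⟫_ℝ) α t θ =
      2 * (⟪dh (dh (dt X)) α t θ, dt X α t θ⟫_ℝ + ⟪dh (dt X) α t θ, dh (dt X) α t θ⟫_ℝ) := by
    rw [← hD.idh sth st]
    exact ((hD.hdh (hD.inn sth st) α t θ).const_mul 2).deriv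
  have c1 : dt (dh X) = dh (dt X) := hD.comm sX
  have c2 : dh (dh (dt X)) = dt (dh (dh X)) := by
    rw [← c1]
    exact (hD.comm sh).symm
  rw [eF, eE, eG, aF, aE, aG, c1, c2, real_inner_comm (dt (dh (dh X)) α t θ) (dt X α t θ)]
  ring

end

section
variable (hC : SpecCRS)
include hC

lemma par2 {a b : E3} (ha : ‖a‖ = 1) (hb : ‖b‖ = 1) (hab : ⟪a, b⟫_ℝ = 0) (x y : E3) :
    ⟪x, y⟫_ℝ = ⟪x, a⟫_ℝ * ⟪y, a⟫_ℝ + ⟪x, b⟫_ℝ * ⟪y, b⟫_ℝ + ⟪x, cr a b⟫_ℝ * ⟪y, cr a b⟫_ℝ := by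
  conv_lhs => rw [hC.exp a b ha hb hab x]
  rw [inner_add_left, inner_add_left, inner_smul_left, inner_smul_left, inner_smul_left,
    real_inner_comm y a, real_inner_comm y b, real_inner_comm y (cr a b)]
  simp

end

section
variable {X : ℝ → ℝ → ℝ → E3} {R : ℝ → ℝ} {u₁ u₂ e : E3} (F : Fam X R u₁ u₂ e)
include F

lemma uu1 : ⟪u₁, u₁⟫_ℝ = 1 := by rw [real_inner_self_eq_norm_sq, F.h1]; norm_num

lemma uu2 : ⟪u₂, u₂⟫_ℝ = 1 := by rw [real_inner_self_eq_norm_sq, F.h2]; norm_num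

lemma u21 : ⟪u₂, u₁⟫_ℝ = 0 := by rw [real_inner_comm]; exact F.h12

/-- inner products of combinations of `u₁, u₂` -/
lemma uc (p q r s : ℝ) : ⟪p • u₁ + q • u₂, r • u₁ + s • u₂⟫_ℝ = p * r + q * s := by
  simp only [inner_add_left, inner_add_right, inner_smul_left, inner_smul_right, uu1 F, uu2 F, u21 F, F.h12,
    conj_trivial]
  ring

lemma R_eq (θ : ℝ) : R θ = ⟪dh X 0 0 θ, cos θ • u₁ + sin θ • u₂⟫_ℝ := by
  rw [F.tan, inner_smul_left, uc F]
  have := cos_sq_add_sin_sq θ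
  simp only [conj_trivial]
  linear_combination (-R θ) * this

variable (hD : SpecDRV) (hC : SpecCRS)
include hD

omit F hD in
lemma sm_slice {G : ℝ → ℝ → ℝ → E3} (hG : Sm G) (α t : ℝ) : ContDiff ℝ ∞ (fun θ => G α t θ) :=
  ContDiff.comp (g := fun p : ℝ × ℝ × ℝ => G p.1 p.2.1 p.2.2) (f := fun θ : ℝ => ((α, t, θ) : ℝ × ℝ × ℝ)) hG
    (contDiff_const.prodMk (contDiff_const.prodMk contDiff_id))

lemma R_sm : ContDiff ℝ ∞ R := by
  have : R = fun θ => ⟪dh X 0 0 θ, cos θ • u₁ + sin θ • u₂⟫_ℝ := funext (R_eq F)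
  rw [this]
  exact (sm_slice (hD.sdh F.sm) 0 0).inner ℝ
    ((contDiff_cos.smul contDiff_const).add (contDiff_sin.smul contDiff_const))

omit hD in
lemma R_per (θ : ℝ) : R (θ + 2 * π) = R θ := by
  rw [R_eq F, R_eq F, per_dh F.per, cos_add_two_pi, sin_add_two_pi]

lemma R_clo (p q : ℝ) : ∫ x in (0:ℝ)..(2 * π), R x * (p * cos x + q * sin x) = 0 := by
  have h : ∀ x ∈ uIcc (0:ℝ) (2 * π), HasDerivAt (fun θ => ⟪X 0 0 θ, p • u₁ + q • u₂⟫_ℝ)
      (R x * (p * cos x + q * sin x)) x := by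
    intro x _
    have h1 := (hD.hdh F.sm 0 0 x).inner ℝ (hasDerivAt_const x (p • u₁ + q • u₂))
    rw [F.tan, inner_smul_left, uc F, inner_zero_right] at h1
    exact h1.congr_deriv (by rw [zero_add, conj_trivial]; ring)
  have hR := (R_sm F hD).continuous
  rw [intervalIntegral.integral_eq_sub_of_hasDerivAt h]
  · have := F.per 0 0 0
    rw [zero_add] at this
    rw [this, sub_self]
  · apply Continuous.intervalIntegrable
    fun_prop

/-- second derivatives at `α = 0` on the rim -/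
lemma hh0 (θ : ℝ) : dh (dh X) 0 0 θ = deriv R θ • (cos θ • u₁ + sin θ • u₂) + R θ • (-sin θ • u₁ + cos θ • u₂) := by
  have e1 : (fun s => dh X 0 0 s) = fun s => R s • (cos s • u₁ + sin s • u₂) := funext F.tan
  have h1 := hD.hdh (hD.sdh F.sm) 0 0 θ
  rw [e1] at h1
  have hR : HasDerivAt R (deriv R θ) θ := ((R_sm F hD).differentiable (by simp)).differentiableAt.hasDerivAt
  have h2 := hR.smul (((hasDerivAt_cos θ).smul_const u₁).add ((hasDerivAt_sin θ).smul_const u₂))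
  have h3 := h1.unique h2
  rw [h3]
  exact add_comm _ _

lemma th0 (θ : ℝ) : dh (dt X) 0 0 θ = -cos θ • u₁ + -sin θ • u₂ := by
  have e1 : (fun s => dt X 0 0 s) = fun s => -sin s • u₁ + cos s • u₂ := funext F.nor
  have h1 := hD.hdh (hD.sdt F.sm) 0 0 θ
  rw [e1] at h1
  have h2 := ((hasDerivAt_sin θ).neg.smul_const u₁).add ((hasDerivAt_cos θ).smul_const u₂)
  exact h1.unique h2

omit hD in
lemma on (α θ : ℝ) : ‖fT X R α θ‖ = 1 ∧ ‖fU X α θ‖ = 1 ∧ ⟪fT X R α θ, fU X α θ⟫_ℝ = 0 := by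
  have hR := F.Rpos θ
  have hcs := cos_sq_add_sin_sq θ
  have hE : ⟪dh X α 0 θ, dh X α 0 θ⟫_ℝ = R θ ^ 2 := by
    rw [F.gE, F.tan, inner_smul_left, inner_smul_right, uc F]
    simp only [conj_trivial]
    nlinarith
  have hF : ⟪dt X α 0 θ, dh X α 0 θ⟫_ℝ = 0 := by
    rw [F.gF, F.tan, F.nor, inner_smul_right, uc F]
    ring
  have hG : ⟪dt X α 0 θ, dt X α 0 θ⟫_ℝ = 1 := by
    rw [F.gG, F.nor, uc F]
    nlinarith
  refine ⟨?_, ?_, ?_⟩
  · rw [fT, norm_smul, Real.norm_eq_abs, abs_of_pos (inv_pos.mpr hR)]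
    rw [real_inner_self_eq_norm_sq] at hE
    have h2 : ‖dh X α 0 θ‖ = R θ := (sq_eq_sq₀ (norm_nonneg _) hR.le).mp hE
    rw [h2, inv_mul_cancel₀ hR.ne']
  · rw [real_inner_self_eq_norm_sq] at hG
    rw [fU]
    nlinarith [norm_nonneg (dt X α 0 θ)]
  · rw [fT, fU, inner_smul_left, real_inner_comm, hF]
    simp

include hC

omit F hD in
lemma fNT (α θ : ℝ) : ⟪fN X R α θ, fT X R α θ⟫_ℝ = 0 := hC.o1 _ _

omit F hD in
lemma fNU (α θ : ℝ) : ⟪fN X R α θ, fU X α θ⟫_ℝ = 0 := hC.o2 _ _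

/-- `T' = U + ν N` -/
lemma T' (α θ : ℝ) : HasDerivAt (fun s => fT X R α s) (fU X α θ + nu X R α θ • fN X R α θ) θ := by
  have hR := F.Rpos θ
  obtain ⟨n1, n2, n3⟩ := on F α θ
  have hRd : HasDerivAt (fun s => (R s)⁻¹) (-deriv R θ / R θ ^ 2) θ :=
    (((R_sm F hD).differentiable (by simp)).differentiableAt.hasDerivAt).inv hR.ne'
  have h1 := hRd.smul (hD.hdh (hD.sdh F.sm) α 0 θ)
  set D := (R θ)⁻¹ • dh (dh X) α 0 θ + (-deriv R θ / R θ ^ 2) • dh X α 0 θ with hDdef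
  have h2 : HasDerivAt (fun s => fT X R α s) D θ := h1
  have e1 : ⟪D, fT X R α θ⟫_ℝ = 0 := by
    have h3 := h2.inner ℝ h2
    have h4 : (fun s => ⟪fT X R α s, fT X R α s⟫_ℝ) = fun _ => (1:ℝ) := by
      funext s
      rw [real_inner_self_eq_norm_sq, (on F α s).1]; norm_num
    rw [h4] at h3
    have h5 := h3.unique (hasDerivAt_const θ (1:ℝ))
    rw [real_inner_comm D (fT X R α θ)] at h5
    linarith
  have hF : ⟪dt X α 0 θ, dh X α 0 θ⟫_ℝ = 0 := by
    rw [F.gF, F.tan, F.nor, inner_smul_right, uc F]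
    ring
  have e2 : ⟪D, fU X α θ⟫_ℝ = 1 := by
    have h6 : ⟪dh (dh X) α 0 θ, dt X α 0 θ⟫_ℝ = R θ := by
      have h7 : ⟪dh (dh X) α 0 θ, dt X α 0 θ⟫_ℝ = ⟪dh (dh X) 0 0 θ, dt X 0 0 θ⟫_ℝ := by
        rw [m6 hD F.sm, m6 hD F.sm, ind_dh F.gF, ind_dt F.gE]
      rw [h7, hh0 F hD, F.nor, inner_add_left, inner_smul_left, inner_smul_left, uc F, uc F]
      have hcs := cos_sq_add_sin_sq θ
      simp only [conj_trivial]
      linear_combination (R θ) * hcs
    rw [hDdef, inner_add_left, inner_smul_left, inner_smul_left, fU, h6, real_inner_comm, hF]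
    simp [hR.ne']
  have e3 : ⟪D, fN X R α θ⟫_ℝ = nu X R α θ := by
    have h8 : ⟪dh X α 0 θ, fN X R α θ⟫_ℝ = 0 := by
      have h9 := fNT hC (X := X) (R := R) α θ
      rw [fT, inner_smul_right, real_inner_comm] at h9
      rcases mul_eq_zero.mp h9 with h | h
      · exact absurd h (inv_ne_zero hR.ne')
      · exact h
    rw [hDdef, inner_add_left, inner_smul_left, inner_smul_left, h8, nu]
    simp
  have e4 := hC.exp _ _ n1 n2 n3 D
  rw [e1, e2] at e4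
  have e5 : ⟪D, cr (fT X R α θ) (fU X α θ)⟫_ℝ = nu X R α θ := e3
  rw [e5, zero_smul, zero_add, one_smul] at e4
  rw [e4] at h2
  exact h2

/-- `U' = -T + τ N` -/
lemma U' (α θ : ℝ) : HasDerivAt (fun s => fU X α s) (-fT X R α θ + tau X R α θ • fN X R α θ) θ := by
  have hR := F.Rpos θ
  obtain ⟨n1, n2, n3⟩ := on F α θ
  have h2 : HasDerivAt (fun s => fU X α s) (dh (dt X) α 0 θ) θ := hD.hdh (hD.sdt F.sm) α 0 θ
  have e2 : ⟪dh (dt X) α 0 θ, fU X α θ⟫_ℝ = 0 := by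
    have h3 := h2.inner ℝ h2
    have h4 : (fun s => ⟪fU X α s, fU X α s⟫_ℝ) = fun _ => (1:ℝ) := by
      funext s
      rw [real_inner_self_eq_norm_sq, (on F α s).2.1]; norm_num
    rw [h4] at h3
    have h5 := h3.unique (hasDerivAt_const θ (1:ℝ))
    rw [real_inner_comm (dh (dt X) α 0 θ) (fU X α θ)] at h5
    linarith
  have e1 : ⟪dh (dt X) α 0 θ, fT X R α θ⟫_ℝ = -1 := by
    have h6 : ⟪dh (dt X) α 0 θ, dh X α 0 θ⟫_ℝ = -R θ := by
      have h7 : ⟪dh (dt X) α 0 θ, dh X α 0 θ⟫_ℝ = ⟪dh (dt X) 0 0 θ, dh X 0 0 θ⟫_ℝ := by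
        rw [m2 hD F.sm, m2 hD F.sm, ind_dt F.gE]
      rw [h7, th0 F hD, F.tan, inner_smul_right, uc F]
      have hcs := cos_sq_add_sin_sq θ
      linear_combination (-R θ) * hcs
    rw [fT, inner_smul_right, h6]
    field_simp
  have e4 := hC.exp _ _ n1 n2 n3 (dh (dt X) α 0 θ)
  have e5 : ⟪dh (dt X) α 0 θ, cr (fT X R α θ) (fU X α θ)⟫_ℝ = tau X R α θ := rfl
  rw [e1, e2, e5, zero_smul, add_zero, neg_one_smul] at e4
  rw [e4] at h2
  exact h2

omit F hD hC in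
lemma cr_comb (p q r s : ℝ) (a b : E3) : cr (p • a + q • b) (r • a + s • b) = (p * s - q * r) • cr a b := by
  ext i
  fin_cases i <;> simp [cr] <;> ring

omit hD hC in
lemma fN0 (θ : ℝ) : fN X R 0 θ = e := by
  have hR := F.Rpos θ
  have hcs := cos_sq_add_sin_sq θ
  have h1 : fT X R 0 θ = cos θ • u₁ + sin θ • u₂ := by
    rw [fT, F.tan, smul_smul, inv_mul_cancel₀ hR.ne', one_smul]
  have h2 : fU X 0 θ = -sin θ • u₁ + cos θ • u₂ := F.nor θ
  rw [fN, h1, h2, F.he, cr_comb, show cos θ * cos θ - sin θ * -sin θ = 1 by linear_combination hcs, one_smul]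

omit hD in
lemma eu1 : ⟪u₁, e⟫_ℝ = 0 := by rw [F.he, real_inner_comm]; exact hC.o1 _ _

omit hD in
lemma eu2 : ⟪u₂, e⟫_ℝ = 0 := by rw [F.he, real_inner_comm]; exact hC.o2 _ _

omit hD in
lemma uce (p q : ℝ) : ⟪p • u₁ + q • u₂, e⟫_ℝ = 0 := by
  rw [inner_add_left, inner_smul_left, inner_smul_left, eu1 F hC, eu2 F hC]
  simp

lemma tau0 (θ : ℝ) : tau X R 0 θ = 0 := by
  rw [tau, fN0 F, th0 F hD, uce F hC]

lemma hhN0 (θ : ℝ) : ⟪dh (dh X) 0 0 θ, fN X R 0 θ⟫_ℝ = 0 := by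
  rw [fN0 F, hh0 F hD, inner_add_left, inner_smul_left, inner_smul_left, uce F hC, uce F hC]
  simp

lemma K (α θ : ℝ) : R θ * nu X R α θ * ell X R α θ = tau X R α θ ^ 2 := by
  have hR := F.Rpos θ
  obtain ⟨n1, n2, n3⟩ := on F α θ
  obtain ⟨k1, k2, k3⟩ := on F 0 θ
  -- tangential parts
  have a1 : ⟪dh (dh X) α 0 θ, fT X R α θ⟫_ℝ = ⟪dh (dh X) 0 0 θ, fT X R 0 θ⟫_ℝ := by
    rw [fT, fT, inner_smul_right, inner_smul_right, m1 hD F.sm, m1 hD F.sm, ind_dh F.gE]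
  have a2 : ⟪dh (dh X) α 0 θ, fU X α θ⟫_ℝ = ⟪dh (dh X) 0 0 θ, fU X 0 θ⟫_ℝ := by
    rw [fU, fU, m6 hD F.sm, m6 hD F.sm, ind_dh F.gF, ind_dt F.gE]
  have b1 : ⟪dt (dt X) α 0 θ, fT X R α θ⟫_ℝ = ⟪dt (dt X) 0 0 θ, fT X R 0 θ⟫_ℝ := by
    rw [fT, fT, inner_smul_right, inner_smul_right, m5 hD F.sm, m5 hD F.sm, ind_dt F.gF, ind_dh F.gG]
  have b2 : ⟪dt (dt X) α 0 θ, fU X α θ⟫_ℝ = ⟪dt (dt X) 0 0 θ, fU X 0 θ⟫_ℝ := by
    rw [fU, fU, m3 hD F.sm, m3 hD F.sm, ind_dt F.gG]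
  have c1 : ⟪dh (dt X) α 0 θ, fT X R α θ⟫_ℝ = ⟪dh (dt X) 0 0 θ, fT X R 0 θ⟫_ℝ := by
    rw [fT, fT, inner_smul_right, inner_smul_right, m2 hD F.sm, m2 hD F.sm, ind_dt F.gE]
  have c2 : ⟪dh (dt X) α 0 θ, fU X α θ⟫_ℝ = ⟪dh (dt X) 0 0 θ, fU X 0 θ⟫_ℝ := by
    rw [fU, fU, m4 hD F.sm, m4 hD F.sm, ind_dh F.gG]
  have g : ⟪dt (dt X) α 0 θ, dh (dh X) α 0 θ⟫_ℝ - ⟪dh (dt X) α 0 θ, dh (dt X) α 0 θ⟫_ℝ =
      ⟪dt (dt X) 0 0 θ, dh (dh X) 0 0 θ⟫_ℝ - ⟪dh (dt X) 0 0 θ, dh (dt X) 0 0 θ⟫_ℝ := by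
    rw [m7 hD F.sm, m7 hD F.sm, ind_dt (ind_dh F.gF), ind_dt (ind_dt F.gE), ind_dh (ind_dh F.gG)]
  rw [par2 hC n1 n2 n3 (dt (dt X) α 0 θ) (dh (dh X) α 0 θ),
    par2 hC n1 n2 n3 (dh (dt X) α 0 θ) (dh (dt X) α 0 θ),
    par2 hC k1 k2 k3 (dt (dt X) 0 0 θ) (dh (dh X) 0 0 θ),
    par2 hC k1 k2 k3 (dh (dt X) 0 0 θ) (dh (dt X) 0 0 θ), a1, a2, b1, b2, c1, c2] at g
  have z1 : ⟪dh (dt X) 0 0 θ, cr (fT X R 0 θ) (fU X 0 θ)⟫_ℝ = 0 := tau0 F hD hC θ
  have z2 : ⟪dh (dh X) 0 0 θ, cr (fT X R 0 θ) (fU X 0 θ)⟫_ℝ = 0 := hhN0 F hD hC θ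
  rw [z1, z2] at g
  have t1 : ⟪dh (dt X) α 0 θ, cr (fT X R α θ) (fU X α θ)⟫_ℝ = tau X R α θ := rfl
  have t2 : ⟪dt (dt X) α 0 θ, cr (fT X R α θ) (fU X α θ)⟫_ℝ = ell X R α θ := rfl
  have t3 : ⟪dh (dh X) α 0 θ, cr (fT X R α θ) (fU X α θ)⟫_ℝ = R θ * nu X R α θ := by
    rw [nu, ← mul_assoc, mul_inv_cancel₀ hR.ne', one_mul, fN]
  rw [t1, t2, t3] at g
  linear_combination g

end

end GAUM

open GAUM in
/-- **GAU** -/
theorem specGAU (hDRV : SpecDRV) (hCRS : SpecCRS) : SpecGAU where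
  R := fun F => ⟨R_sm F hDRV, R_per F, by simpa using R_clo F hDRV 1 0, by simpa using R_clo F hDRV 0 1⟩
  on := fun F α θ => on F α θ
  T' := fun F α θ => T' F hDRV hCRS α θ
  U' := fun F α θ => U' F hDRV hCRS α θ
  K := fun F α θ => K F hDRV hCRS α θ
  base := fun F θ => ⟨fN0 F θ, tau0 F hDRV hCRS θ, by
    have := F.nd θ
    rwa [← fN0 F θ] at this⟩

end Rim478
end

section
/-!
# JET: two isometric strips which agree to first order on the rim
-/
set_option autoImplicit false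

open Real MeasureTheory Set Filter Topology Finset
open scoped ContDiff InnerProductSpace Manifold

namespace Rim478

namespace JETM

variable {F G : ℝ → ℝ → ℝ → E3}

theorem smit (D : SpecDRV) {G : ℝ → ℝ → ℝ → E3} (hG : Sm G) : ∀ k : ℕ, Sm (dt^[k] G)
  | 0 => hG
  | k + 1 => by
    rw [Function.iterate_succ_apply']
    exact D.sdt (smit D hG k)

theorem smitR (D : SpecDRV) {G : ℝ → ℝ → ℝ → ℝ} (hG : Sm G) : ∀ k : ℕ, Sm (dt^[k] G)
  | 0 => hG
  | k + 1 => by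
    rw [Function.iterate_succ_apply']
    exact D.sdt (smitR D hG k)

theorem itdh (D : SpecDRV) {G : ℝ → ℝ → ℝ → E3} (hG : Sm G) (k : ℕ) :
    dt^[k] (dh G) = dh (dt^[k] G) := by
  induction k with
  | zero => rfl
  | succ k ih =>
    rw [Function.iterate_succ_apply', ih, Function.iterate_succ_apply', D.comm (smit D hG k)]

/-- Leibniz formula -/
theorem leib (D : SpecDRV) (hF : Sm F) (hG : Sm G) (m : ℕ) :
    dt^[m] (fun α t θ => ⟪F α t θ, G α t θ⟫_ℝ) = fun α t θ =>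
      ∑ ij ∈ antidiagonal m, (m.choose ij.1 : ℝ) *
        ⟪(dt^[ij.1] F) α t θ, (dt^[ij.2] G) α t θ⟫_ℝ := by
  induction m with
  | zero =>
    funext α t θ
    simp
  | succ m ih =>
    rw [Function.iterate_succ_apply', ih]
    funext α t θ
    have h1 : HasDerivAt (fun s => ∑ ij ∈ antidiagonal m, (m.choose ij.1 : ℝ) *
        ⟪(dt^[ij.1] F) α s θ, (dt^[ij.2] G) α s θ⟫_ℝ)
        (∑ ij ∈ antidiagonal m, (m.choose ij.1 : ℝ) *
          (⟪(dt^[ij.1] F) α t θ, (dt^[ij.2 + 1] G) α t θ⟫_ℝ +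
            ⟪(dt^[ij.1 + 1] F) α t θ, (dt^[ij.2] G) α t θ⟫_ℝ)) t := by
      apply HasDerivAt.fun_sum
      intro ij _
      apply HasDerivAt.const_mul
      rw [Function.iterate_succ_apply', Function.iterate_succ_apply']
      exact (D.hdt (smit D hF ij.1) α t θ).inner ℝ (D.hdt (smit D hG ij.2) α t θ)
    have h2 : dt (fun α t θ => ∑ ij ∈ antidiagonal m, (m.choose ij.1 : ℝ) *
        ⟪(dt^[ij.1] F) α t θ, (dt^[ij.2] G) α t θ⟫_ℝ) α t θ =
        ∑ ij ∈ antidiagonal m, (m.choose ij.1 : ℝ) *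
          (⟪(dt^[ij.1] F) α t θ, (dt^[ij.2 + 1] G) α t θ⟫_ℝ +
            ⟪(dt^[ij.1 + 1] F) α t θ, (dt^[ij.2] G) α t θ⟫_ℝ) := h1.deriv
    rw [h2]
    have h3 := Finset.sum_antidiagonal_choose_succ_mul
      (fun i j => ⟪(dt^[i] F) α t θ, (dt^[j] G) α t θ⟫_ℝ) m
    rw [h3, ← Finset.sum_add_distrib]
    refine Finset.sum_congr rfl fun ij hij => ?_
    have h4 : m.choose ij.2 = m.choose ij.1 := by
      rw [← Finset.HasAntidiagonal.mem_antidiagonal.1 hij]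
      exact (Nat.choose_symm_add).symm
    rw [h4]
    ring

theorem lz (D : SpecDRV) (hF : Sm F) (hG : Sm G) {α θ : ℝ} (a b m : ℕ)
    (h1 : ∀ i < a, (dt^[i] F) α 0 θ = 0) (h2 : ∀ j < b, (dt^[j] G) α 0 θ = 0) (hm : m < a + b) :
    (dt^[m] (fun α t θ => ⟪F α t θ, G α t θ⟫_ℝ)) α 0 θ = 0 := by
  rw [leib D hF hG]
  refine Finset.sum_eq_zero fun ij hij => ?_
  have h3 := Finset.HasAntidiagonal.mem_antidiagonal.1 hij
  rcases lt_or_ge ij.1 a with h | h
  · rw [h1 _ h, inner_zero_left, mul_zero]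
  · rw [h2 ij.2 (by omega), inner_zero_right, mul_zero]

theorem l1 (D : SpecDRV) (hF : Sm F) (hG : Sm G) {α θ : ℝ} (m : ℕ)
    (h : ∀ j < m, (dt^[j] G) α 0 θ = 0) :
    (dt^[m] (fun α t θ => ⟪F α t θ, G α t θ⟫_ℝ)) α 0 θ = ⟪F α 0 θ, (dt^[m] G) α 0 θ⟫_ℝ := by
  rw [leib D hF hG]
  show ∑ ij ∈ antidiagonal m, (m.choose ij.1 : ℝ) *
    ⟪(dt^[ij.1] F) α 0 θ, (dt^[ij.2] G) α 0 θ⟫_ℝ = _
  rw [Finset.sum_eq_single (0, m)]
  · simp
  · intro ij hij hne
    have h3 := Finset.HasAntidiagonal.mem_antidiagonal.1 hij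
    have h4 : ij.2 < m := by
      rcases lt_or_ge ij.2 m with h5 | h5
      · exact h5
      · exact absurd (Prod.ext (by simp; omega) (by simp; omega)) hne
    rw [h _ h4, inner_zero_right, mul_zero]
  · intro hn
    exact absurd (Finset.HasAntidiagonal.mem_antidiagonal.2 (by simp)) hn

theorem l2 (D : SpecDRV) (hF : Sm F) (hG : Sm G) {α θ : ℝ} (m : ℕ)
    (h : ∀ j < m, (dt^[j] G) α 0 θ = 0) :
    (dt^[m + 1] (fun α t θ => ⟪F α t θ, G α t θ⟫_ℝ)) α 0 θ =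
      ⟪F α 0 θ, (dt^[m + 1] G) α 0 θ⟫_ℝ + (m + 1) * ⟪(dt F) α 0 θ, (dt^[m] G) α 0 θ⟫_ℝ := by
  rw [leib D hF hG]
  show ∑ ij ∈ antidiagonal (m + 1), ((m + 1).choose ij.1 : ℝ) *
    ⟪(dt^[ij.1] F) α 0 θ, (dt^[ij.2] G) α 0 θ⟫_ℝ = _
  rw [Finset.Nat.sum_antidiagonal_succ, Finset.sum_eq_single (0, m)]
  · simp
  · intro ij hij hne
    have h3 := Finset.HasAntidiagonal.mem_antidiagonal.1 hij
    have h4 : ij.2 < m := by
      rcases lt_or_ge ij.2 m with h5 | h5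
      · exact h5
      · exact absurd (Prod.ext (by simp; omega) (by simp; omega)) hne
    rw [h _ h4, inner_zero_right, mul_zero]
  · intro hn
    exact absurd (Finset.HasAntidiagonal.mem_antidiagonal.2 (by simp)) hn

/-- a linear relation is preserved by `dt` -/
theorem lin3 (D : SpecDRV) {A B C : ℝ → ℝ → ℝ → ℝ} (hA : Sm A) (hB : Sm B) (hC : Sm C)
    (a : ℝ) {α : ℝ} (h : ∀ t θ, a * A α t θ + B α t θ + C α t θ = 0) (m : ℕ) :
    ∀ t θ, a * (dt^[m] A) α t θ + (dt^[m] B) α t θ + (dt^[m] C) α t θ = 0 := by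
  induction m with
  | zero => exact h
  | succ m ih =>
    intro t θ
    rw [Function.iterate_succ_apply', Function.iterate_succ_apply', Function.iterate_succ_apply']
    have h1 := (((D.hdt (smitR D hA m) α t θ).const_mul a).add
      (D.hdt (smitR D hB m) α t θ)).add (D.hdt (smitR D hC m) α t θ)
    have h2 : (((fun s => a * (dt^[m] A) α s θ) + fun s => (dt^[m] B) α s θ) +
        fun s => (dt^[m] C) α s θ) = fun _ => (0 : ℝ) := by
      funext s
      exact ih s θ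
    rw [h2] at h1
    exact h1.unique (hasDerivAt_const t (0 : ℝ))

theorem lin2 (D : SpecDRV) {A B : ℝ → ℝ → ℝ → ℝ} (hA : Sm A) (hB : Sm B)
    (a : ℝ) {α : ℝ} (h : ∀ t θ, a * A α t θ + B α t θ = 0) (m : ℕ) :
    ∀ t θ, a * (dt^[m] A) α t θ + (dt^[m] B) α t θ = 0 := by
  induction m with
  | zero => exact h
  | succ m ih =>
    intro t θ
    rw [Function.iterate_succ_apply', Function.iterate_succ_apply']
    have h1 := ((D.hdt (smitR D hA m) α t θ).const_mul a).add (D.hdt (smitR D hB m) α t θ)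
    have h2 : ((fun s => a * (dt^[m] A) α s θ) + fun s => (dt^[m] B) α s θ) =
        fun _ => (0 : ℝ) := by
      funext s
      exact ih s θ
    rw [h2] at h1
    exact h1.unique (hasDerivAt_const t (0 : ℝ))

/-- the inner product with a vector depending smoothly on `θ` vanishes: differentiate -/
theorem dinner {f g : ℝ → E3} {f' g' : E3} {θ : ℝ} (hf : HasDerivAt f f' θ)
    (hg : HasDerivAt g g' θ) (h : ∀ s, ⟪f s, g s⟫_ℝ = 0) : ⟪f θ, g'⟫_ℝ + ⟪f', g θ⟫_ℝ = 0 := by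
  have h1 := hf.inner ℝ hg
  have h2 : (fun t => ⟪f t, g t⟫_ℝ) = fun _ => (0 : ℝ) := funext h
  rw [h2] at h1
  exact h1.unique (hasDerivAt_const θ (0 : ℝ))

/-- the step -/
theorem step (D : SpecDRV) (Cr : SpecCRS) {X W : ℝ → ℝ → ℝ → E3} {R : ℝ → ℝ} {u₁ u₂ : E3} {α : ℝ}
    (hX : Sm X) (hW : Sm W) (h1 : ‖u₁‖ = 1) (h2 : ‖u₂‖ = 1) (h12 : ⟪u₁, u₂⟫_ℝ = 0)
    (hR : ∀ θ, 0 < R θ)
    (gE : ∀ t θ, 2 * ⟪dh X α t θ, dh W α t θ⟫_ℝ + ⟪dh W α t θ, dh W α t θ⟫_ℝ = 0)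
    (gF : ∀ t θ, 1 * ⟪dt X α t θ, dh W α t θ⟫_ℝ + ⟪dh X α t θ, dt W α t θ⟫_ℝ +
      ⟪dt W α t θ, dh W α t θ⟫_ℝ = 0)
    (gG : ∀ t θ, 2 * ⟪dt X α t θ, dt W α t θ⟫_ℝ + ⟪dt W α t θ, dt W α t θ⟫_ℝ = 0)
    (hT : ∀ θ, dh X α 0 θ = R θ • (cos θ • u₁ + sin θ • u₂))
    (hU : ∀ θ, dt X α 0 θ = -sin θ • u₁ + cos θ • u₂)
    (k : ℕ) (hk : 1 ≤ k) (h0 : ∀ j ≤ k, ∀ θ, (dt^[j] W) α 0 θ = 0) :
    ∀ θ, (dt^[k + 1] W) α 0 θ = ⟪(dt^[k + 1] W) α 0 θ, cr u₁ u₂⟫_ℝ • cr u₁ u₂ ∧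
      2 * (((k : ℝ) + 1) * ⟪(dt (dt X)) α 0 θ, (dt^[k + 1] W) α 0 θ⟫_ℝ) +
        (dt^[k + 1] (fun α t θ => ⟪dt W α t θ, dt W α t θ⟫_ℝ)) α 0 θ = 0 := by
  have sX := D.sdt hX
  have sXh := D.sdh hX
  have sW := D.sdt hW
  have sWh := D.sdh hW
  -- derivatives in `θ` of the vanishing coefficients
  have hw' : ∀ j ≤ k, ∀ θ, (dt^[j] (dh W)) α 0 θ = 0 := by
    intro j hj θ
    rw [itdh D hW]
    have e1 := D.hdh (smit D hW j) α 0 θ
    have e2 : (fun s => (dt^[j] W) α 0 s) = fun _ => (0 : E3) := funext (h0 j hj)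
    rw [e2] at e1
    exact e1.unique (hasDerivAt_const θ (0 : E3))
  have hwt : ∀ j < k, ∀ θ, (dt^[j] (dt W)) α 0 θ = 0 := by
    intro j hj θ
    rw [← Function.iterate_succ_apply]
    exact h0 (j + 1) (by omega) θ
  -- the frame
  have dT : ∀ θ, HasDerivAt (fun s : ℝ => cos s • u₁ + sin s • u₂) (-sin θ • u₁ + cos θ • u₂) θ :=
    fun θ => ((hasDerivAt_cos θ).smul_const u₁).add ((hasDerivAt_sin θ).smul_const u₂)
  have dU : ∀ θ, HasDerivAt (fun s : ℝ => -sin s • u₁ + cos s • u₂)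
      (-cos θ • u₁ + -sin θ • u₂) θ :=
    fun θ => (((hasDerivAt_sin θ).neg).smul_const u₁).add ((hasDerivAt_cos θ).smul_const u₂)
  have hTt : ∀ θ, (dt (dh X)) α 0 θ = -cos θ • u₁ + -sin θ • u₂ := by
    intro θ
    rw [D.comm hX]
    have e1 := D.hdh sX α 0 θ
    have e2 : (fun s => (dt X) α 0 s) = fun s => -sin s • u₁ + cos s • u₂ := funext hU
    rw [e2] at e1
    exact e1.unique (dU θ)
  set w : ℝ → E3 := fun θ => (dt^[k + 1] W) α 0 θ with hw
  set v : ℝ → E3 := fun θ => (dt^[k + 2] W) α 0 θ with hv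
  set w' : ℝ → E3 := fun θ => (dt^[k + 1] (dh W)) α 0 θ with hwd
  set v' : ℝ → E3 := fun θ => (dt^[k + 2] (dh W)) α 0 θ with hvd
  have dw : ∀ θ, HasDerivAt w (w' θ) θ := by
    intro θ
    have := D.hdh (smit D hW (k + 1)) α 0 θ
    rw [← itdh D hW] at this
    exact this
  have dv : ∀ θ, HasDerivAt v (v' θ) θ := by
    intro θ
    have := D.hdh (smit D hW (k + 2)) α 0 θ
    rw [← itdh D hW] at this
    exact this
  -- order `k` of the first two equations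
  have a1 : ∀ θ, ⟪(-sin θ • u₁ + cos θ • u₂ : E3), w θ⟫_ℝ = 0 := by
    intro θ
    have e := lin2 D (D.inn sX sW) (D.inn sW sW) 2 gG k 0 θ
    rw [l1 D sX sW k (fun j hj => hwt j hj θ),
      lz D sW sW k 1 k (fun j hj => hwt j hj θ) (fun j hj => hwt j (by omega) θ) (by omega),
      hU, ← Function.iterate_succ_apply] at e
    show ⟪(-sin θ • u₁ + cos θ • u₂ : E3), (dt^[k + 1] W) α 0 θ⟫_ℝ = 0
    linarith
  have a2 : ∀ θ, ⟪(cos θ • u₁ + sin θ • u₂ : E3), w θ⟫_ℝ = 0 := by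
    intro θ
    have e := lin3 D (D.inn sX sWh) (D.inn sXh sW) (D.inn sW sWh) 1 gF k 0 θ
    rw [l1 D sX sWh k (fun j hj => hw' j (by omega) θ), hw' k le_rfl θ, inner_zero_right,
      l1 D sXh sW k (fun j hj => hwt j hj θ),
      lz D sW sWh k 1 k (fun j hj => hwt j hj θ) (fun j hj => hw' j (by omega) θ) (by omega),
      hT, ← Function.iterate_succ_apply, real_inner_smul_left] at e
    have hR0 := (hR θ).ne'
    have e2 : R θ * ⟪(cos θ • u₁ + sin θ • u₂ : E3), (dt^[k + 1] W) α 0 θ⟫_ℝ = 0 := by linarith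
    exact (mul_eq_zero.1 e2).resolve_left hR0
  -- components along `u₁`, `u₂`
  have comp : ∀ (x : E3) (θ : ℝ), ⟪(cos θ • u₁ + sin θ • u₂ : E3), x⟫_ℝ = 0 →
      ⟪(-sin θ • u₁ + cos θ • u₂ : E3), x⟫_ℝ = 0 → ⟪u₁, x⟫_ℝ = 0 ∧ ⟪u₂, x⟫_ℝ = 0 := by
    intro x θ e1 e2
    rw [inner_add_left, real_inner_smul_left, real_inner_smul_left] at e1 e2
    have e3 := sin_sq_add_cos_sq θ
    constructor
    · have : ⟪u₁, x⟫_ℝ = cos θ * (cos θ * ⟪u₁, x⟫_ℝ + sin θ * ⟪u₂, x⟫_ℝ) -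
          sin θ * (-sin θ * ⟪u₁, x⟫_ℝ + cos θ * ⟪u₂, x⟫_ℝ) := by
        linear_combination (-⟪u₁, x⟫_ℝ) * e3
      rw [this, e1, e2]; ring
    · have : ⟪u₂, x⟫_ℝ = sin θ * (cos θ * ⟪u₁, x⟫_ℝ + sin θ * ⟪u₂, x⟫_ℝ) +
          cos θ * (-sin θ * ⟪u₁, x⟫_ℝ + cos θ * ⟪u₂, x⟫_ℝ) := by
        linear_combination (-⟪u₂, x⟫_ℝ) * e3
      rw [this, e1, e2]; ring
  have b1 : ∀ θ, ⟪u₁, w θ⟫_ℝ = 0 := fun θ => (comp _ θ (a2 θ) (a1 θ)).1
  have b2 : ∀ θ, ⟪u₂, w θ⟫_ℝ = 0 := fun θ => (comp _ θ (a2 θ) (a1 θ)).2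
  have b1' : ∀ θ, ⟪u₁, w' θ⟫_ℝ = 0 := by
    intro θ
    have e := dinner (hasDerivAt_const θ u₁) (dw θ) b1
    rw [inner_zero_left, add_zero] at e
    exact e
  have b2' : ∀ θ, ⟪u₂, w' θ⟫_ℝ = 0 := by
    intro θ
    have e := dinner (hasDerivAt_const θ u₂) (dw θ) b2
    rw [inner_zero_left, add_zero] at e
    exact e
  have lc : ∀ (x : E3) (a b : ℝ), ⟪u₁, x⟫_ℝ = 0 → ⟪u₂, x⟫_ℝ = 0 → ⟪(a • u₁ + b • u₂ : E3), x⟫_ℝ = 0 := by
    intro x a b e1 e2
    rw [inner_add_left, real_inner_smul_left, real_inner_smul_left, e1, e2]; ring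
  -- vanishing for the orders up to `k + 1`
  have hwt1 : ∀ θ, (dt^[k] (dt W)) α 0 θ = w θ := by
    intro θ
    rw [← Function.iterate_succ_apply]
  have hwt2 : ∀ θ, (dt^[k + 1] (dt W)) α 0 θ = v θ := by
    intro θ
    rw [← Function.iterate_succ_apply]
  -- order `k + 1` of the second equation
  have c1 : ∀ θ, ⟪(cos θ • u₁ + sin θ • u₂ : E3), v θ⟫_ℝ = 0 := by
    intro θ
    have e := lin3 D (D.inn sX sWh) (D.inn sXh sW) (D.inn sW sWh) 1 gF (k + 1) 0 θ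
    rw [l1 D sX sWh (k + 1) (fun j hj => hw' j (by omega) θ),
      l2 D sXh sW k (fun j hj => hwt j hj θ),
      lz D sW sWh k (k + 1) (k + 1) (fun j hj => hwt j hj θ) (fun j hj => hw' j (by omega) θ)
        (by omega), hT, hTt, hU, hwt1, hwt2, real_inner_smul_left] at e
    have e1 : ⟪(-sin θ • u₁ + cos θ • u₂ : E3), (dt^[k + 1] (dh W)) α 0 θ⟫_ℝ = 0 :=
      lc _ _ _ (b1' θ) (b2' θ)
    rw [e1, lc _ _ _ (b1 θ) (b2 θ)] at e
    have e2 : R θ * ⟪(cos θ • u₁ + sin θ • u₂ : E3), v θ⟫_ℝ = 0 := by linarith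
    exact (mul_eq_zero.1 e2).resolve_left (hR θ).ne'
  -- order `k + 2` of the third equation
  have c2 : ∀ θ, ⟪(cos θ • u₁ + sin θ • u₂ : E3), v' θ⟫_ℝ = 0 := by
    intro θ
    have e := lin2 D (D.inn sXh sWh) (D.inn sWh sWh) 2 gE (k + 2) 0 θ
    rw [l2 D sXh sWh (k + 1) (fun j hj => hw' j (by omega) θ),
      lz D sWh sWh (k + 1) (k + 1) (k + 2) (fun j hj => hw' j (by omega) θ)
        (fun j hj => hw' j (by omega) θ) (by omega), hT, hTt, real_inner_smul_left] at e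
    have e1 : ⟪(-cos θ • u₁ + -sin θ • u₂ : E3), (dt^[k + 1] (dh W)) α 0 θ⟫_ℝ = 0 :=
      lc _ _ _ (b1' θ) (b2' θ)
    rw [e1] at e
    have e2 : R θ * ⟪(cos θ • u₁ + sin θ • u₂ : E3), v' θ⟫_ℝ = 0 := by
      have : v' θ = (dt^[k + 1 + 1] (dh W)) α 0 θ := rfl
      rw [this]
      linarith
    exact (mul_eq_zero.1 e2).resolve_left (hR θ).ne'
  have c3 : ∀ θ, ⟪(-sin θ • u₁ + cos θ • u₂ : E3), v θ⟫_ℝ = 0 := by
    intro θ
    have e := dinner (dT θ) (dv θ) c1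
    rw [c2 θ, zero_add] at e
    exact e
  intro θ
  constructor
  · have e := Cr.exp u₁ u₂ h1 h2 h12 (w θ)
    rw [real_inner_comm, b1 θ, real_inner_comm, b2 θ, zero_smul, zero_smul, zero_add,
      zero_add] at e
    exact e
  · have e := lin2 D (D.inn sX sW) (D.inn sW sW) 2 gG (k + 1) 0 θ
    rw [l2 D sX sW k (fun j hj => hwt j hj θ), hU, hwt1, hwt2, c3 θ, zero_add] at e
    exact e

/-- the difference satisfies the differenced equations -/
theorem diffs (D : SpecDRV) {X Y : ℝ → ℝ → ℝ → E3} (hX : Sm X) (hY : Sm Y) :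
    Sm (fun α t θ => Y α t θ - X α t θ) ∧
    (∀ k : ℕ, dt^[k] (fun α t θ => Y α t θ - X α t θ) =
      fun α t θ => (dt^[k] Y) α t θ - (dt^[k] X) α t θ) ∧
    (dh (fun α t θ => Y α t θ - X α t θ) = fun α t θ => dh Y α t θ - dh X α t θ) := by
  refine ⟨ContDiff.sub hY hX, ?_, ?_⟩
  · intro k
    induction k with
    | zero => rfl
    | succ k ih =>
      rw [Function.iterate_succ_apply', ih, Function.iterate_succ_apply',
        Function.iterate_succ_apply']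
      funext α t θ
      exact ((D.hdt (smit D hY k) α t θ).sub (D.hdt (smit D hX k) α t θ)).deriv
  · funext α t θ
    exact ((D.hdh hY α t θ).sub (D.hdh hX α t θ)).deriv

end JETM

open JETM in
theorem specJET (D : SpecDRV) (Cr : SpecCRS) : SpecJET := by
  have base : ∀ {X Y : ℝ → ℝ → ℝ → E3} {R : ℝ → ℝ} {u₁ u₂ : E3} {α : ℝ}, Sm X → Sm Y →
      ‖u₁‖ = 1 → ‖u₂‖ = 1 → ⟪u₁, u₂⟫_ℝ = 0 → (∀ θ, 0 < R θ) →
      (∀ t θ, ⟪dh Y α t θ, dh Y α t θ⟫_ℝ = ⟪dh X α t θ, dh X α t θ⟫_ℝ) →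
      (∀ t θ, ⟪dt Y α t θ, dh Y α t θ⟫_ℝ = ⟪dt X α t θ, dh X α t θ⟫_ℝ) →
      (∀ t θ, ⟪dt Y α t θ, dt Y α t θ⟫_ℝ = ⟪dt X α t θ, dt X α t θ⟫_ℝ) →
      (∀ θ, dh X α 0 θ = R θ • (cos θ • u₁ + sin θ • u₂)) →
      (∀ θ, dt X α 0 θ = -sin θ • u₁ + cos θ • u₂) →
      ∀ k : ℕ, 1 ≤ k → (∀ j ≤ k, ∀ θ, (dt^[j] Y) α 0 θ - (dt^[j] X) α 0 θ = 0) →
      ∀ θ, (dt^[k + 1] Y) α 0 θ - (dt^[k + 1] X) α 0 θ =
          ⟪(dt^[k + 1] Y) α 0 θ - (dt^[k + 1] X) α 0 θ, cr u₁ u₂⟫_ℝ • cr u₁ u₂ ∧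
        (k = 1 → 2 * (2 * ⟪(dt (dt X)) α 0 θ, (dt^[2] Y) α 0 θ - (dt^[2] X) α 0 θ⟫_ℝ) +
          2 * ⟪(dt^[2] Y) α 0 θ - (dt^[2] X) α 0 θ, (dt^[2] Y) α 0 θ - (dt^[2] X) α 0 θ⟫_ℝ = 0) ∧
        (2 ≤ k → ⟪(dt (dt X)) α 0 θ, (dt^[k + 1] Y) α 0 θ - (dt^[k + 1] X) α 0 θ⟫_ℝ = 0) := by
    intro X Y R u₁ u₂ α hX hY h1 h2 h12 hR gE gF gG hT hU k hk h0 θ
    obtain ⟨hW, hWt, hWh⟩ := diffs D hX hY
    set W : ℝ → ℝ → ℝ → E3 := fun α t θ => Y α t θ - X α t θ with hWdef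
    have hdt : dt W = fun α t θ => dt Y α t θ - dt X α t θ := hWt 1
    have hWk : ∀ (j : ℕ) (s : ℝ), (dt^[j] W) α 0 s = (dt^[j] Y) α 0 s - (dt^[j] X) α 0 s :=
      fun j s => by rw [hWt j]
    have gE' : ∀ t θ, 2 * ⟪dh X α t θ, dh W α t θ⟫_ℝ + ⟪dh W α t θ, dh W α t θ⟫_ℝ = 0 := by
      intro t θ
      rw [hWh]
      have := gE t θ
      simp only [inner_sub_left, inner_sub_right]
      rw [real_inner_comm (dh X α t θ) (dh Y α t θ)]
      linarith
    have gG' : ∀ t θ, 2 * ⟪dt X α t θ, dt W α t θ⟫_ℝ + ⟪dt W α t θ, dt W α t θ⟫_ℝ = 0 := by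
      intro t θ
      rw [hdt]
      have := gG t θ
      simp only [inner_sub_left, inner_sub_right]
      rw [real_inner_comm (dt X α t θ) (dt Y α t θ)]
      linarith
    have gF' : ∀ t θ, 1 * ⟪dt X α t θ, dh W α t θ⟫_ℝ + ⟪dh X α t θ, dt W α t θ⟫_ℝ +
        ⟪dt W α t θ, dh W α t θ⟫_ℝ = 0 := by
      intro t θ
      rw [hdt, hWh]
      have := gF t θ
      simp only [inner_sub_left, inner_sub_right]
      have c1 := real_inner_comm (dh X α t θ) (dt Y α t θ)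
      have c2 := real_inner_comm (dh X α t θ) (dt X α t θ)
      linarith
    have S := step D Cr hX hW h1 h2 h12 hR gE' gF' gG' hT hU k hk
      (fun j hj s => by rw [hWk]; exact h0 j hj s) θ
    rw [hWk (k + 1) θ] at S
    have z1 : ∀ j < k, (dt^[j] (dt W)) α 0 θ = 0 := by
      intro j hj
      rw [← Function.iterate_succ_apply, hWk]
      exact h0 (j + 1) (by omega) θ
    refine ⟨S.1, ?_, ?_⟩
    · rintro rfl
      have e := S.2
      have e2 : (dt^[1 + 1] (fun α t θ => ⟪dt W α t θ, dt W α t θ⟫_ℝ)) α 0 θ =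
          2 * ⟪(dt^[2] Y) α 0 θ - (dt^[2] X) α 0 θ, (dt^[2] Y) α 0 θ - (dt^[2] X) α 0 θ⟫_ℝ := by
        rw [l2 D (D.sdt hW) (D.sdt hW) 1 z1]
        have z0 : dt W α 0 θ = 0 := z1 0 (by norm_num)
        have z2 : dt (dt W) α 0 θ = (dt^[2] Y) α 0 θ - (dt^[2] X) α 0 θ := hWk 2 θ
        have z3 : (dt^[1] (dt W)) α 0 θ = (dt^[2] Y) α 0 θ - (dt^[2] X) α 0 θ := hWk 2 θ
        rw [z0, inner_zero_left, z2, z3]
        push_cast
        ring
      rw [e2] at e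
      push_cast at e
      linarith
    · intro hk2
      have e := S.2
      rw [lz D (D.sdt hW) (D.sdt hW) k k (k + 1) z1 z1 (by omega), add_zero] at e
      have hk0 : (0 : ℝ) < (k : ℝ) + 1 := by positivity
      have e2 : ((k : ℝ) + 1) *
          ⟪(dt (dt X)) α 0 θ, (dt^[k + 1] Y) α 0 θ - (dt^[k + 1] X) α 0 θ⟫_ℝ = 0 := by linarith
      exact (mul_eq_zero.1 e2).resolve_left hk0.ne'
  refine ⟨?_, ?_⟩
  · intro X Y R u₁ u₂ α hX hY h1 h2 h12 hR gE gF gG hT hU hY0 hY1 θ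
    have h0 : ∀ j ≤ 1, ∀ θ, (dt^[j] Y) α 0 θ - (dt^[j] X) α 0 θ = 0 := by
      intro j hj s
      interval_cases j
      · exact sub_eq_zero.2 (hY0 s)
      · exact sub_eq_zero.2 (hY1 s)
    obtain ⟨e1, e2, -⟩ := base hX hY h1 h2 h12 hR gE gF gG hT hU 1 le_rfl h0 θ
    have e2 := e2 rfl
    have hn : ⟪cr u₁ u₂, cr u₁ u₂⟫_ℝ = 1 := by
      rw [real_inner_self_eq_norm_sq, Cr.nrm u₁ u₂ h1 h2 h12]; norm_num
    have e3 : (dt^[2] Y) α 0 θ - (dt^[2] X) α 0 θ =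
        ⟪(dt^[2] Y) α 0 θ - (dt^[2] X) α 0 θ, cr u₁ u₂⟫_ℝ • cr u₁ u₂ := e1
    set c : ℝ := ⟪(dt^[2] Y) α 0 θ - (dt^[2] X) α 0 θ, cr u₁ u₂⟫_ℝ with hc
    rw [e3, real_inner_smul_right, real_inner_smul_left, real_inner_smul_right, hn] at e2
    have hc2 : c = ⟪dt (dt Y) α 0 θ, cr u₁ u₂⟫_ℝ - ⟪dt (dt X) α 0 θ, cr u₁ u₂⟫_ℝ := by
      rw [hc, inner_sub_left]; rfl
    have e4 : c * (c + 2 * ⟪dt (dt X) α 0 θ, cr u₁ u₂⟫_ℝ) = 0 := by linarith
    rcases mul_eq_zero.1 e4 with h | h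
    · left; linarith
    · right; linarith
  · intro X Y R u₁ u₂ α hX hY h1 h2 h12 hR gE gF gG hT hU hY0 hY1 hne heq
    have hn : ⟪cr u₁ u₂, cr u₁ u₂⟫_ℝ = 1 := by
      rw [real_inner_self_eq_norm_sq, Cr.nrm u₁ u₂ h1 h2 h12]; norm_num
    have main : ∀ k : ℕ, ∀ j ≤ k, ∀ θ, (dt^[j] Y) α 0 θ - (dt^[j] X) α 0 θ = 0 := by
      intro k
      induction k with
      | zero =>
        intro j hj s
        interval_cases j
        exact sub_eq_zero.2 (hY0 s)
      | succ k ih =>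
        intro j hj s
        rcases Nat.lt_or_ge j (k + 1) with h | h
        · exact ih j (by omega) s
        · obtain rfl : j = k + 1 := by omega
          rcases Nat.eq_zero_or_pos k with rfl | hk
          · exact sub_eq_zero.2 (hY1 s)
          obtain ⟨e1, -, e3⟩ := base hX hY h1 h2 h12 hR gE gF gG hT hU k hk ih s
          set c : ℝ := ⟪(dt^[k + 1] Y) α 0 s - (dt^[k + 1] X) α 0 s, cr u₁ u₂⟫_ℝ with hc
          have hc0 : c = 0 := by
            rcases Nat.lt_or_ge k 2 with h2' | h2'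
            · obtain rfl : k = 1 := by omega
              rw [hc, inner_sub_left]
              have := heq s
              have e5 : ⟪(dt^[1 + 1] Y) α 0 s, cr u₁ u₂⟫_ℝ = ⟪dt (dt Y) α 0 s, cr u₁ u₂⟫_ℝ := rfl
              have e6 : ⟪(dt^[1 + 1] X) α 0 s, cr u₁ u₂⟫_ℝ = ⟪dt (dt X) α 0 s, cr u₁ u₂⟫_ℝ := rfl
              rw [e5, e6]
              linarith
            · have e4 := e3 h2'
              rw [e1, real_inner_smul_right] at e4
              exact (mul_eq_zero.1 e4).resolve_right (hne s)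
          rw [e1, hc0, zero_smul]
    intro k θ
    exact sub_eq_zero.1 (main k k le_rfl θ)

end Rim478
end

section
set_option autoImplicit false

/-!
# QFM: constrained Wirtinger inequality

`h(θ) = ∫_0^θ R(φ) sin(θ - φ) dφ`, `h'' + h = R`, `2π`-periodic, `∮ h R > 0`. For `a` with `∮ a R = 0` put
`w = a - λ h`, `λ = ∮ a / ∮ R`: mean zero, and WIR.w0 for `w` is `∮ a'^2 - ∮ a^2 ≥ λ^2 ∮ h R`. WIR.w2 for `a - ā`.
-/

open Real MeasureTheory Set Filter Topology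
open scoped ContDiff InnerProductSpace Manifold

namespace Rim478

namespace QFMM

variable (R : ℝ → ℝ)

/-- `∫_0^θ R cos` -/
noncomputable def C (θ : ℝ) : ℝ := ∫ x in (0:ℝ)..θ, R x * cos x
/-- `∫_0^θ R sin` -/
noncomputable def S (θ : ℝ) : ℝ := ∫ x in (0:ℝ)..θ, R x * sin x
/-- support function -/
noncomputable def h (θ : ℝ) : ℝ := sin θ * C R θ - cos θ * S R θ
/-- its derivative -/
noncomputable def h' (θ : ℝ) : ℝ := cos θ * C R θ + sin θ * S R θ

variable {R}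

theorem dC (hR : Continuous R) (θ : ℝ) : HasDerivAt (C R) (R θ * cos θ) θ :=
  intervalIntegral.integral_hasDerivAt_right
    ((hR.mul continuous_cos).intervalIntegrable _ _)
    ((hR.mul continuous_cos).stronglyMeasurableAtFilter _ _)
    (hR.mul continuous_cos).continuousAt

theorem dS (hR : Continuous R) (θ : ℝ) : HasDerivAt (S R) (R θ * sin θ) θ :=
  intervalIntegral.integral_hasDerivAt_right
    ((hR.mul continuous_sin).intervalIntegrable _ _)
    ((hR.mul continuous_sin).stronglyMeasurableAtFilter _ _)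
    (hR.mul continuous_sin).continuousAt

theorem dh1 (hR : Continuous R) (θ : ℝ) : HasDerivAt (h R) (h' R θ) θ := by
  have := ((hasDerivAt_sin θ).mul (dC hR θ)).sub ((hasDerivAt_cos θ).mul (dS hR θ))
  refine this.congr_deriv ?_
  simp only [QFMM.h']
  ring

theorem dh2 (hR : Continuous R) (θ : ℝ) : HasDerivAt (h' R) (R θ - h R θ) θ := by
  have := ((hasDerivAt_cos θ).mul (dC hR θ)).add ((hasDerivAt_sin θ).mul (dS hR θ))
  refine this.congr_deriv ?_
  simp only [QFMM.h]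
  linear_combination (R θ) * (sin_sq_add_cos_sq θ)

theorem ch (hR : Continuous R) : Continuous (h R) :=
  continuous_iff_continuousAt.2 fun θ => (dh1 hR θ).continuousAt

theorem ch' (hR : Continuous R) : Continuous (h' R) :=
  continuous_iff_continuousAt.2 fun θ => (dh2 hR θ).continuousAt

theorem deriv_h (hR : Continuous R) : deriv (h R) = h' R := funext fun θ => (dh1 hR θ).deriv

theorem cdh (hR : Continuous R) : ContDiff ℝ 1 (h R) := by
  rw [contDiff_one_iff_deriv]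
  refine ⟨fun θ => (dh1 hR θ).differentiableAt, ?_⟩
  rw [deriv_h hR]
  exact ch' hR

theorem perC (hR : Continuous R) (hp : ∀ x, R (x + 2 * π) = R x)
    (hc : ∫ x in (0:ℝ)..(2 * π), R x * cos x = 0) (θ : ℝ) : C R (θ + 2 * π) = C R θ := by
  have hper : Function.Periodic (fun x => R x * cos x) (2 * π) := fun x => by
    simp only [hp, cos_add_two_pi]
  have h1 := hper.intervalIntegral_add_eq θ 0
  rw [zero_add, hc] at h1
  have hi : ∀ a b, IntervalIntegrable (fun x => R x * cos x) volume a b := fun a b =>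
    (hR.mul continuous_cos).intervalIntegrable _ _
  have h3 := intervalIntegral.integral_add_adjacent_intervals (hi 0 θ) (hi θ (θ + 2 * π))
  rw [h1, add_zero] at h3
  exact h3.symm

theorem perS (hR : Continuous R) (hp : ∀ x, R (x + 2 * π) = R x)
    (hc : ∫ x in (0:ℝ)..(2 * π), R x * sin x = 0) (θ : ℝ) : S R (θ + 2 * π) = S R θ := by
  have hper : Function.Periodic (fun x => R x * sin x) (2 * π) := fun x => by
    simp only [hp, sin_add_two_pi]
  have h1 := hper.intervalIntegral_add_eq θ 0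
  rw [zero_add, hc] at h1
  have hi : ∀ a b, IntervalIntegrable (fun x => R x * sin x) volume a b := fun a b =>
    (hR.mul continuous_sin).intervalIntegrable _ _
  have h3 := intervalIntegral.integral_add_adjacent_intervals (hi 0 θ) (hi θ (θ + 2 * π))
  rw [h1, add_zero] at h3
  exact h3.symm

/-- `h(θ) = ∫_0^θ R(φ) sin(θ - φ)` -/
theorem h_eq (hR : Continuous R) (θ : ℝ) : h R θ = ∫ x in (0:ℝ)..θ, R x * sin (θ - x) := by
  unfold h C S
  rw [← intervalIntegral.integral_const_mul, ← intervalIntegral.integral_const_mul,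
    ← intervalIntegral.integral_sub]
  · apply intervalIntegral.integral_congr
    intro x _
    simp only
    rw [sin_sub]
    ring
  · apply Continuous.intervalIntegrable
    fun_prop
  · apply Continuous.intervalIntegrable
    fun_prop

/-- for `θ ∈ [π, 2π]` -/
theorem h_eq' (hR : Continuous R) (hc : ∫ x in (0:ℝ)..(2 * π), R x * cos x = 0)
    (hs : ∫ x in (0:ℝ)..(2 * π), R x * sin x = 0) (θ : ℝ) :
    h R θ = ∫ x in θ..(2 * π), R x * sin (x - θ) := by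
  have hi : ∀ a b, IntervalIntegrable (fun x => R x * sin (x - θ)) volume a b := fun a b => by
    apply Continuous.intervalIntegrable
    fun_prop
  have h3 := intervalIntegral.integral_add_adjacent_intervals (hi 0 θ) (hi θ (2 * π))
  have h4 : ∫ x in (0:ℝ)..(2 * π), R x * sin (x - θ) = 0 := by
    have e : ∫ x in (0:ℝ)..(2 * π), R x * sin (x - θ) =
        cos θ * (∫ x in (0:ℝ)..(2 * π), R x * sin x) - sin θ * ∫ x in (0:ℝ)..(2 * π), R x * cos x := by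
      rw [← intervalIntegral.integral_const_mul, ← intervalIntegral.integral_const_mul,
        ← intervalIntegral.integral_sub]
      · apply intervalIntegral.integral_congr
        intro x _
        simp only
        rw [sin_sub]
        ring
      · apply Continuous.intervalIntegrable
        fun_prop
      · apply Continuous.intervalIntegrable
        fun_prop
    rw [e, hc, hs]
    ring
  have h5 : ∫ x in (0:ℝ)..θ, R x * sin (x - θ) = -h R θ := by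
    rw [h_eq hR, ← intervalIntegral.integral_neg]
    apply intervalIntegral.integral_congr
    intro x _
    simp only
    rw [← neg_sub θ x, sin_neg]
    ring
  rw [h4, h5] at h3
  linarith

theorem h_nonneg (hR : Continuous R) (h0 : ∀ x, 0 < R x)
    (hc : ∫ x in (0:ℝ)..(2 * π), R x * cos x = 0) (hs : ∫ x in (0:ℝ)..(2 * π), R x * sin x = 0)
    (θ : ℝ) (h1 : 0 ≤ θ) (h2 : θ ≤ 2 * π) : 0 ≤ h R θ := by
  rcases le_total θ π with h | h
  · rw [h_eq hR]
    apply intervalIntegral.integral_nonneg h1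
    intro x hx
    exact mul_nonneg (h0 x).le (sin_nonneg_of_nonneg_of_le_pi (by linarith [hx.2]) (by linarith [hx.1]))
  · rw [h_eq' hR hc hs]
    apply intervalIntegral.integral_nonneg h2
    intro x hx
    exact mul_nonneg (h0 x).le (sin_nonneg_of_nonneg_of_le_pi (by linarith [hx.1]) (by linarith [hx.2]))

theorem h_pos (hR : Continuous R) (h0 : ∀ x, 0 < R x) : 0 < h R (π / 2) := by
  have hpi := Real.pi_pos
  rw [h_eq hR]
  apply intervalIntegral.integral_pos (by linarith)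
  · apply Continuous.continuousOn
    fun_prop
  · intro x hx
    exact mul_nonneg (h0 x).le (sin_nonneg_of_nonneg_of_le_pi (by linarith [hx.2]) (by linarith [hx.1]))
  · refine ⟨0, ⟨le_rfl, by linarith⟩, ?_⟩
    rw [sub_zero, sin_pi_div_two, mul_one]
    exact h0 0

theorem hR_pos (hR : Continuous R) (h0 : ∀ x, 0 < R x)
    (hc : ∫ x in (0:ℝ)..(2 * π), R x * cos x = 0) (hs : ∫ x in (0:ℝ)..(2 * π), R x * sin x = 0) :
    0 < ∫ x in (0:ℝ)..(2 * π), h R x * R x := by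
  have hpi := Real.pi_pos
  apply intervalIntegral.integral_pos (by linarith)
  · exact ((ch hR).mul hR).continuousOn
  · intro x hx
    exact mul_nonneg (h_nonneg hR h0 hc hs x hx.1.le hx.2) (h0 x).le
  · exact ⟨π / 2, ⟨by linarith, by linarith⟩, mul_pos (h_pos hR h0) (h0 _)⟩

/-- partial integration against `h'` -/
theorem parts (hR : Continuous R) (hp : ∀ x, R (x + 2 * π) = R x)
    (hc : ∫ x in (0:ℝ)..(2 * π), R x * cos x = 0) (hs : ∫ x in (0:ℝ)..(2 * π), R x * sin x = 0)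
    (u : ℝ → ℝ) (hu : ContDiff ℝ 1 u) (hup : ∀ x, u (x + 2 * π) = u x) :
    ∫ x in (0:ℝ)..(2 * π), deriv u x * h' R x =
      (∫ x in (0:ℝ)..(2 * π), u x * h R x) - ∫ x in (0:ℝ)..(2 * π), u x * R x := by
  have hh' : h' R (2 * π) = h' R 0 := by
    have h1 := perC hR hp hc 0
    have h2 := perS hR hp hs 0
    rw [zero_add] at h1 h2
    unfold h'
    rw [h1, h2, cos_two_pi, sin_two_pi, cos_zero, sin_zero]
  have hu0 : u (2 * π) = u 0 := by
    have := hup 0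
    rwa [zero_add] at this
  have h1 := intervalIntegral.integral_mul_deriv_eq_deriv_mul (a := 0) (b := 2 * π)
    (u := u) (v := h' R) (u' := deriv u) (v' := fun x => R x - h R x)
    (fun x _ => (hu.differentiable one_ne_zero x).hasDerivAt) (fun x _ => dh2 hR x)
    ((hu.continuous_deriv le_rfl).intervalIntegrable _ _) ((hR.sub (ch hR)).intervalIntegrable _ _)
  rw [hu0, hh', sub_self, zero_sub] at h1
  have h2 : ∫ x in (0:ℝ)..(2 * π), u x * (R x - h R x) =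
      (∫ x in (0:ℝ)..(2 * π), u x * R x) - ∫ x in (0:ℝ)..(2 * π), u x * h R x := by
    rw [← intervalIntegral.integral_sub]
    · apply intervalIntegral.integral_congr
      intro x _
      simp only
      ring
    · exact (hu.continuous.mul hR).intervalIntegrable _ _
    · exact (hu.continuous.mul (ch hR)).intervalIntegrable _ _
  rw [h2] at h1
  linarith

theorem per_h (hR : Continuous R) (hp : ∀ x, R (x + 2 * π) = R x)
    (hc : ∫ x in (0:ℝ)..(2 * π), R x * cos x = 0) (hs : ∫ x in (0:ℝ)..(2 * π), R x * sin x = 0)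
    (x : ℝ) : h R (x + 2 * π) = h R x := by
  unfold h
  rw [perC hR hp hc, perS hR hp hs, sin_add_two_pi, cos_add_two_pi]

/-- expansion of a square -/
theorem expand (f g : ℝ → ℝ) (hf : Continuous f) (hg : Continuous g) (s : ℝ) :
    ∫ x in (0:ℝ)..(2 * π), (f x - s * g x) ^ 2 = (∫ x in (0:ℝ)..(2 * π), f x ^ 2) -
      2 * s * (∫ x in (0:ℝ)..(2 * π), f x * g x) + s ^ 2 * ∫ x in (0:ℝ)..(2 * π), g x ^ 2 := by
  have i1 : IntervalIntegrable (fun x => f x ^ 2) volume 0 (2 * π) :=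
    (hf.pow 2).intervalIntegrable _ _
  have i2 : IntervalIntegrable (fun x => 2 * s * (f x * g x)) volume 0 (2 * π) :=
    (continuous_const.mul (hf.mul hg)).intervalIntegrable _ _
  have i3 : IntervalIntegrable (fun x => s ^ 2 * g x ^ 2) volume 0 (2 * π) :=
    (continuous_const.mul (hg.pow 2)).intervalIntegrable _ _
  rw [← intervalIntegral.integral_const_mul, ← intervalIntegral.integral_const_mul,
    ← intervalIntegral.integral_sub i1 i2, ← intervalIntegral.integral_add (i1.sub i2) i3]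
  apply intervalIntegral.integral_congr
  intro x _
  simp only
  ring

end QFMM

open QFMM in
theorem specQFM (hWIR : SpecWIR) : SpecQFM := by
  intro R hR hp h0 hc hs
  have hpi := Real.pi_pos
  have hA := hR_pos hR h0 hc hs
  have hRR : 0 < ∫ x in (0:ℝ)..(2 * π), R x := by
    apply intervalIntegral.intervalIntegral_pos_of_pos (hR.intervalIntegrable _ _) h0 (by linarith)
  set I := ∫ x in (0:ℝ)..(2 * π), R x with hI
  set A := ∫ x in (0:ℝ)..(2 * π), h R x * R x with hAd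
  -- `∮ h = ∮ R`
  have hhR : ∫ x in (0:ℝ)..(2 * π), h R x = I := by
    have h1 := parts hR hp hc hs (fun _ => 1) contDiff_const (fun _ => rfl)
    simp only [deriv_const', zero_mul, one_mul, intervalIntegral.integral_zero] at h1
    linarith
  -- `D ≥ (A / I²) (∮ a)²`
  set c := A / I ^ 2 with hcd
  have hc0 : 0 < c := by positivity
  refine ⟨(3 * c / 4) / (c + 1 / (2 * π)), by positivity, fun a ha hap haR hac has => ?_⟩
  set X := ∫ x in (0:ℝ)..(2 * π), deriv a x ^ 2 with hX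
  set Y := ∫ x in (0:ℝ)..(2 * π), a x ^ 2 with hY
  set m := ∫ x in (0:ℝ)..(2 * π), a x with hm
  have hca := ha.continuous
  have hcda := ha.continuous_deriv le_rfl
  have step1 : c * m ^ 2 ≤ X - Y := by
    have hw := hWIR.w0 (fun x => a x - (m / I) * h R x)
      (ha.sub (contDiff_const.mul (cdh hR)))
      (fun x => by simp only [hap, per_h hR hp hc hs]) ?_
    · have hd : ∀ x, deriv (fun x => a x - (m / I) * h R x) x =
          deriv a x - (m / I) * h' R x := fun x =>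
        ((ha.differentiable one_ne_zero x).hasDerivAt.sub ((dh1 hR x).const_mul (m / I))).deriv
      simp only [hd] at hw
      rw [expand a (h R) hca (ch hR), expand (deriv a) (h' R) hcda (ch' hR),
        parts hR hp hc hs a ha hap, haR] at hw
      have h3 := parts hR hp hc hs (h R) (cdh hR) (per_h hR hp hc hs)
      rw [deriv_h hR] at h3
      have e1 : ∫ x in (0:ℝ)..(2 * π), h' R x ^ 2 = ∫ x in (0:ℝ)..(2 * π), h' R x * h' R x :=
        intervalIntegral.integral_congr fun x _ => by simp only [sq]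
      have e2 : ∫ x in (0:ℝ)..(2 * π), h R x ^ 2 = ∫ x in (0:ℝ)..(2 * π), h R x * h R x :=
        intervalIntegral.integral_congr fun x _ => by simp only [sq]
      rw [e1, e2, h3] at hw
      have e3 : c * m ^ 2 = (m / I) ^ 2 * A := by
        rw [hcd]
        field_simp
      rw [e3]
      linarith
    · have i2 : IntervalIntegrable (fun x => m / I * h R x) volume 0 (2 * π) :=
        (continuous_const.mul (ch hR)).intervalIntegrable _ _
      rw [intervalIntegral.integral_sub (hca.intervalIntegrable _ _) i2,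
        intervalIntegral.integral_const_mul, hhR, div_mul_cancel₀ _ hRR.ne', sub_self]
  have step2 : 4 * (Y - m ^ 2 / (2 * π)) ≤ X := by
    have hcos : ∫ x in (0:ℝ)..(2 * π), cos x = 0 := by simp
    have hsin : ∫ x in (0:ℝ)..(2 * π), sin x = 0 := by simp
    have hw := hWIR.w2 (fun x => a x - (m / (2 * π)) * 1)
      (ha.sub contDiff_const) (fun x => by simp only [hap]) ?_ ?_ ?_
    · have hd : ∀ x, deriv (fun x => a x - (m / (2 * π)) * 1) x = deriv a x := fun x => by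
        rw [deriv_sub_const]
      simp only [hd] at hw
      rw [expand a (fun _ => 1) hca continuous_const] at hw
      simp only [mul_one, one_pow, intervalIntegral.integral_const, smul_eq_mul, sub_zero] at hw
      have e : Y - m ^ 2 / (2 * π) = Y - 2 * (m / (2 * π)) * m + (m / (2 * π)) ^ 2 * (2 * π) := by
        field_simp
        ring
      rw [e]
      exact hw
    · rw [intervalIntegral.integral_sub (hca.intervalIntegrable _ _)
        (continuous_const.intervalIntegrable _ _)]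
      simp only [mul_one, intervalIntegral.integral_const, smul_eq_mul, sub_zero]
      field_simp
      simp [hm]
    · have e : ∫ x in (0:ℝ)..(2 * π), (a x - m / (2 * π) * 1) * cos x =
          (∫ x in (0:ℝ)..(2 * π), a x * cos x) - m / (2 * π) * ∫ x in (0:ℝ)..(2 * π), cos x := by
        rw [← intervalIntegral.integral_const_mul, ← intervalIntegral.integral_sub]
        · exact intervalIntegral.integral_congr fun x _ => by ring
        · exact (hca.mul continuous_cos).intervalIntegrable _ _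
        · exact (continuous_const.mul continuous_cos).intervalIntegrable _ _
      rw [e, hac, hcos]
      ring
    · have e : ∫ x in (0:ℝ)..(2 * π), (a x - m / (2 * π) * 1) * sin x =
          (∫ x in (0:ℝ)..(2 * π), a x * sin x) - m / (2 * π) * ∫ x in (0:ℝ)..(2 * π), sin x := by
        rw [← intervalIntegral.integral_const_mul, ← intervalIntegral.integral_sub]
        · exact intervalIntegral.integral_congr fun x _ => by ring
        · exact (hca.mul continuous_sin).intervalIntegrable _ _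
        · exact (continuous_const.mul continuous_sin).intervalIntegrable _ _
      rw [e, has, hsin]
      ring
  -- conclusion
  have hX0 : 0 ≤ X := intervalIntegral.integral_nonneg (by linarith) fun x _ => sq_nonneg _
  have hk : 0 < c + 1 / (2 * π) := by positivity
  rw [div_mul_eq_mul_div, div_le_iff₀ hk]
  have h5 : m ^ 2 / (2 * π) = (1 / (2 * π)) * m ^ 2 := by ring
  rw [h5] at step2
  have hq : 0 < 1 / (2 * π) := by positivity
  set q := 1 / (2 * π) with hqd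
  -- `c m² ≤ D`, `4 (Y - q m²) ≤ X`; want `(3c/4) X ≤ D (c + q)`
  nlinarith [mul_le_mul_of_nonneg_left step1 hq.le, mul_le_mul_of_nonneg_left step2 hc0.le]

end Rim478
end

section
set_option autoImplicit false

/-!
# WIR: Wirtinger inequalities
-/

open Real MeasureTheory Set Filter Topology
open scoped ContDiff InnerProductSpace Manifold

namespace Rim478

namespace WIRM

theorem h2 : (0:ℝ) < 2 * π := Real.two_pi_pos

/-- Fourier coefficient on `[0, 2π]` -/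
noncomputable def cf (u : ℝ → ℝ) (n : ℤ) : ℂ := fourierCoeffOn h2 (fun x => (u x : ℂ)) n

theorem cf_eq (u : ℝ → ℝ) (n : ℤ) : cf u n =
    (1 / (2 * π)) • ∫ x in (0:ℝ)..(2 * π), Complex.exp (-(n * x * Complex.I)) * (u x : ℂ) := by
  rw [cf, fourierCoeffOn_eq_integral, sub_zero]
  congr 1
  apply intervalIntegral.integral_congr
  intro x _
  simp only [smul_eq_mul]
  rw [fourier_coe_apply]
  congr 2
  push_cast
  have : (π : ℂ) ≠ 0 := by exact_mod_cast Real.pi_ne_zero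
  field_simp

theorem parseval (u : ℝ → ℝ) (hu : Continuous u) :
    HasSum (fun n : ℤ => ‖cf u n‖ ^ 2) ((2 * π)⁻¹ * ∫ x in (0:ℝ)..(2 * π), u x ^ 2) := by
  have hc : Continuous (fun x => (u x : ℂ)) := Complex.continuous_ofReal.comp hu
  have hL : MemLp (fun x => (u x : ℂ)) 2 (volume.restrict (Ioc (0:ℝ) (2 * π))) := by
    obtain ⟨C, hC⟩ := (isCompact_Icc (a := (0:ℝ)) (b := 2 * π)).exists_bound_of_continuousOn
      hc.continuousOn
    refine MemLp.of_bound hc.aestronglyMeasurable C ?_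
    filter_upwards [ae_restrict_mem measurableSet_Ioc] with x hx
    exact hC x (Ioc_subset_Icc_self hx)
  have h := hasSum_sq_fourierCoeffOn h2 hL
  rw [sub_zero, smul_eq_mul] at h
  have e : ∫ x in (0:ℝ)..(2 * π), ‖(u x : ℂ)‖ ^ 2 = ∫ x in (0:ℝ)..(2 * π), u x ^ 2 := by
    apply intervalIntegral.integral_congr
    intro x _
    simp only [Complex.norm_real, Real.norm_eq_abs, sq_abs]
  rw [e] at h
  exact h

theorem cf_deriv (u : ℝ → ℝ) (hu : ContDiff ℝ 1 u) (hp : ∀ x, u (x + 2 * π) = u x) (n : ℤ)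
    (hn : n ≠ 0) : ‖cf (deriv u) n‖ = |(n : ℝ)| * ‖cf u n‖ := by
  have hd : ∀ x, HasDerivAt u (deriv u x) x := fun x =>
    (hu.differentiable one_ne_zero x).hasDerivAt
  have hc : Continuous (deriv u) := hu.continuous_deriv le_rfl
  have h := fourierCoeffOn_of_hasDerivAt h2 (f := fun x => (u x : ℂ))
    (f' := fun x => ((deriv u x : ℝ) : ℂ)) hn (fun x _ => (hd x).ofReal_comp)
    ((Complex.continuous_ofReal.comp hc).intervalIntegrable _ _)
  have h0 : u (2 * π) = u 0 := by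
    have := hp 0
    rwa [zero_add] at this
  rw [h0, sub_self, mul_zero] at h
  have h3 : cf u n = 1 / (Complex.I * n) * cf (deriv u) n := by
    unfold cf
    rw [h]
    have : (π : ℂ) ≠ 0 := by exact_mod_cast Real.pi_ne_zero
    have hn' : (n : ℂ) ≠ 0 := by exact_mod_cast hn
    push_cast
    field_simp
    ring
  rw [h3, norm_mul, norm_div, norm_mul, Complex.norm_I, norm_one, one_mul, Complex.norm_intCast]
  have : |(n : ℝ)| ≠ 0 := by
    rw [abs_ne_zero]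
    exact_mod_cast hn
  field_simp

theorem key (u : ℝ → ℝ) (hu : ContDiff ℝ 1 u) (hp : ∀ x, u (x + 2 * π) = u x) (K : ℝ)
    (hK : ∀ n : ℤ, cf u n = 0 ∨ (n ≠ 0 ∧ K ≤ (n : ℝ) ^ 2)) :
    K * ∫ x in (0:ℝ)..(2 * π), u x ^ 2 ≤ ∫ x in (0:ℝ)..(2 * π), deriv u x ^ 2 := by
  have h1 := (parseval u hu.continuous).mul_left K
  have h3 := parseval (deriv u) (hu.continuous_deriv le_rfl)
  have h4 := hasSum_le (fun n : ℤ => ?_) h1 h3
  · have hpi := Real.pi_pos
    have e : K * ((2 * π)⁻¹ * ∫ x in (0:ℝ)..(2 * π), u x ^ 2) =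
        (2 * π)⁻¹ * (K * ∫ x in (0:ℝ)..(2 * π), u x ^ 2) := by ring
    rw [e] at h4
    exact le_of_mul_le_mul_left h4 (by positivity)
  · rcases hK n with h | ⟨hn, h⟩
    · rw [h, norm_zero]
      simp only [ne_eq, OfNat.ofNat_ne_zero, not_false_eq_true, zero_pow, mul_zero]
      positivity
    · rw [cf_deriv u hu hp n hn, mul_pow, sq_abs]
      exact mul_le_mul_of_nonneg_right h (by positivity)

theorem cf_zero (u : ℝ → ℝ) (h0 : ∫ x in (0:ℝ)..(2 * π), u x = 0) : cf u 0 = 0 := by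
  rw [cf_eq]
  have : ∫ x in (0:ℝ)..(2 * π), Complex.exp (-((0:ℤ) * x * Complex.I)) * (u x : ℂ) =
      ((∫ x in (0:ℝ)..(2 * π), u x : ℝ) : ℂ) := by
    rw [← intervalIntegral.integral_ofReal]
    apply intervalIntegral.integral_congr
    intro x _
    simp
  rw [this, h0]
  simp

theorem cf_one (u : ℝ → ℝ) (hu : Continuous u) (hc : ∫ x in (0:ℝ)..(2 * π), u x * cos x = 0)
    (hs : ∫ x in (0:ℝ)..(2 * π), u x * sin x = 0) (n : ℤ) (hn : n = 1 ∨ n = -1) : cf u n = 0 := by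
  rw [cf_eq]
  have : ∫ x in (0:ℝ)..(2 * π), Complex.exp (-(n * x * Complex.I)) * (u x : ℂ) =
      ((∫ x in (0:ℝ)..(2 * π), u x * cos x : ℝ) : ℂ) -
        n * Complex.I * ((∫ x in (0:ℝ)..(2 * π), u x * sin x : ℝ) : ℂ) := by
    rw [← intervalIntegral.integral_ofReal, ← intervalIntegral.integral_ofReal,
      ← intervalIntegral.integral_const_mul, ← intervalIntegral.integral_sub]
    · apply intervalIntegral.integral_congr
      intro x _
      simp only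
      have e : Complex.exp (-(n * x * Complex.I)) = Complex.cos (n * x) - Complex.sin (n * x) * Complex.I := by
        rw [← neg_mul, Complex.exp_mul_I, Complex.cos_neg, Complex.sin_neg]
        ring
      rw [e]
      push_cast
      rcases hn with rfl | rfl
      · push_cast
        rw [one_mul]
        ring
      · push_cast
        rw [neg_one_mul, Complex.cos_neg, Complex.sin_neg]
        ring
    · apply Continuous.intervalIntegrable
      fun_prop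
    · apply Continuous.intervalIntegrable
      fun_prop
  rw [this, hc, hs]
  simp

end WIRM

open WIRM in
theorem specWIR : SpecWIR := by
  constructor
  · intro u hu hp h0
    have := key u hu hp 1 (fun n => ?_)
    · rwa [one_mul] at this
    · rcases eq_or_ne n 0 with rfl | hn
      · exact Or.inl (cf_zero u h0)
      · right
        refine ⟨hn, ?_⟩
        have : (1:ℤ) ≤ n ^ 2 := by
          have := Int.one_le_abs hn
          nlinarith [sq_abs n]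
        exact_mod_cast this
  · intro u hu hp h0 hc hs
    refine key u hu hp 4 (fun n => ?_)
    rcases eq_or_ne n 0 with rfl | hn
    · exact Or.inl (cf_zero u h0)
    · by_cases h1 : n = 1 ∨ n = -1
      · exact Or.inl (cf_one u hu.continuous hc hs n h1)
      · right
        refine ⟨hn, ?_⟩
        have h2 : (2:ℤ) ≤ |n| := by
          push Not at h1
          rcases abs_cases n with ⟨h, _⟩ | ⟨h, _⟩ <;> omega
        have : (4:ℤ) ≤ n ^ 2 := by
          nlinarith [sq_abs n]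
        exact_mod_cast this

end Rim478
end

section
/-!
# MP_478c11_gt, module WND (helper49): the winding number
-/
set_option autoImplicit false

open Real MeasureTheory Set Filter Topology
open scoped ContDiff InnerProductSpace Manifold

namespace Rim478

namespace WNDM

theorem cr_lin (a b c : E3) (t : ℝ) : cr a (b + t • c) = cr a b + t • cr a c := by
  ext i
  fin_cases i <;> simp [cr] <;> ring

/-- a closed continuously differentiable curve in the plane without zero has an integral winding number -/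
theorem wind {p q p' q' : ℝ → ℝ} (hp : ∀ θ, HasDerivAt p (p' θ) θ) (hq : ∀ θ, HasDerivAt q (q' θ) θ)
    (cp : Continuous p') (cq : Continuous q') (h0 : ∀ θ, 0 < p θ ^ 2 + q θ ^ 2)
    (hp2 : p (2 * π) = p 0) (hq2 : q (2 * π) = q 0) :
    ∃ n : ℤ, ∫ θ in (0:ℝ)..(2 * π), (p θ * q' θ - q θ * p' θ) / (p θ ^ 2 + q θ ^ 2) = 2 * π * n := by
  have hcp : Continuous p := continuous_iff_continuousAt.2 fun θ => (hp θ).continuousAt
  have hcq : Continuous q := continuous_iff_continuousAt.2 fun θ => (hq θ).continuousAt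
  set z : ℝ → ℂ := fun θ => (p θ : ℂ) + (q θ : ℂ) * Complex.I with hz
  set z' : ℝ → ℂ := fun θ => (p' θ : ℂ) + (q' θ : ℂ) * Complex.I with hz'
  have hd : ∀ θ, HasDerivAt z (z' θ) θ := fun θ =>
    (hp θ).ofReal_comp.add ((hq θ).ofReal_comp.mul_const Complex.I)
  have hzne : ∀ θ, z θ ≠ 0 := by
    intro θ h
    have h1 : p θ = 0 := by simpa [hz] using congrArg Complex.re h
    have h2 : q θ = 0 := by simpa [hz] using congrArg Complex.im h
    have := h0 θ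
    rw [h1, h2] at this
    norm_num at this
  have hzc : Continuous z := continuous_iff_continuousAt.2 fun θ => (hd θ).continuousAt
  have hzc' : Continuous z' :=
    (Complex.continuous_ofReal.comp cp).add ((Complex.continuous_ofReal.comp cq).mul continuous_const)
  set g : ℝ → ℂ := fun θ => z' θ / z θ with hg
  have hgc : Continuous g := hzc'.div hzc hzne
  have hG : ∀ θ, HasDerivAt (fun θ => ∫ x in (0:ℝ)..θ, g x) (g θ) θ := fun θ =>
    intervalIntegral.integral_hasDerivAt_right (hgc.intervalIntegrable _ _)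
      hgc.stronglyMeasurable.stronglyMeasurableAtFilter hgc.continuousAt
  have hE : ∀ θ, HasDerivAt (fun θ => Complex.exp (-∫ x in (0:ℝ)..θ, g x) * z θ) 0 θ := by
    intro θ
    have h1 := ((hG θ).neg.cexp).mul (hd θ)
    have e : g θ * z θ = z' θ := div_mul_cancel₀ _ (hzne θ)
    have h2 : (0 : ℂ) = Complex.exp (-∫ x in (0:ℝ)..θ, g x) * (-g θ) * z θ +
      Complex.exp (-∫ x in (0:ℝ)..θ, g x) * z' θ := by
      rw [← e]
      ring
    rw [h2]
    exact h1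
  have hc : (fun θ => Complex.exp (-∫ x in (0:ℝ)..θ, g x) * z θ) (2 * π) =
      (fun θ => Complex.exp (-∫ x in (0:ℝ)..θ, g x) * z θ) 0 :=
    is_const_of_deriv_eq_zero (fun θ => (hE θ).differentiableAt) (fun θ => (hE θ).deriv) _ _
  have hz0 : z (2 * π) = z 0 := by simp only [hz, hp2, hq2]
  have h1 : Complex.exp (-∫ x in (0:ℝ)..(2 * π), g x) = 1 := by
    simp only [intervalIntegral.integral_same, neg_zero, Complex.exp_zero, one_mul, hz0] at hc
    exact mul_right_cancel₀ (hzne 0) (by rw [hc, one_mul])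
  obtain ⟨n, hn⟩ := Complex.exp_eq_one_iff.1 h1
  refine ⟨-n, ?_⟩
  have h2 : ∫ x in (0:ℝ)..(2 * π), (g x).im = (∫ x in (0:ℝ)..(2 * π), g x).im :=
    Complex.imCLM.intervalIntegral_comp_comm (hgc.intervalIntegrable _ _)
  have h3 : (∫ x in (0:ℝ)..(2 * π), g x) = -(n * (2 * π * Complex.I)) := by
    rw [← hn, neg_neg]
  have h4 : ∀ x, (g x).im = (p x * q' x - q x * p' x) / (p x ^ 2 + q x ^ 2) := by
    intro x
    simp only [hg, hz, hz', Complex.div_im, Complex.normSq_apply]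
    simp
    have := (h0 x).ne'
    have e : p x * p x + q x * q x = p x ^ 2 + q x ^ 2 := by ring
    rw [e]
    ring
  rw [← intervalIntegral.integral_congr (fun x _ => h4 x), h2, h3]
  simp
  ring

end WNDM

open WNDM in
theorem specWND (hCRS : SpecCRS) : SpecWND := by
  intro T U nu e hT hU hnu hT' hper hon he hlt
  obtain ⟨v1, v2, h1, h2, h12, hcr⟩ := hCRS.frm e he
  have hcc : Continuous fun θ => cr (T θ) (U θ) := hCRS.sm.continuous.comp (hT.prodMk hU)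
  have hD : ∀ v : E3, ∀ θ, HasDerivAt (fun θ => ⟪T θ, v⟫_ℝ) ⟪U θ + nu θ • cr (T θ) (U θ), v⟫_ℝ θ := by
    intro v θ
    have := (hT' θ).inner ℝ (hasDerivAt_const θ v)
    simpa using this
  have hC : ∀ v : E3, Continuous fun θ => ⟪U θ + nu θ • cr (T θ) (U θ), v⟫_ℝ := fun v =>
    (hU.add (hnu.smul hcc)).inner continuous_const
  have hpar : ∀ θ, ⟪T θ, v1⟫_ℝ ^ 2 + ⟪T θ, v2⟫_ℝ ^ 2 = 1 - ⟪T θ, e⟫_ℝ ^ 2 := by
    intro θ
    have := hCRS.par v1 v2 h1 h2 h12 (T θ)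
    rw [hcr, (hon θ).1] at this
    linarith
  obtain ⟨n, hn⟩ := wind (hD v1) (hD v2) (hC v1) (hC v2)
    (fun θ => by rw [hpar]; linarith [hlt θ]) (by rw [hper]) (by rw [hper])
  refine ⟨n, ?_⟩
  rw [← hn]
  refine intervalIntegral.integral_congr fun θ _ => ?_
  rw [hpar θ]
  congr 1
  have h3 := hCRS.lag (T θ) (U θ + nu θ • cr (T θ) (U θ)) v1 v2
  rw [hcr, cr_lin, hCRS.dbl, (hon θ).2.2, real_inner_self_eq_norm_sq, (hon θ).1] at h3
  simp only [zero_smul, one_pow, one_smul, zero_sub, smul_neg] at h3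
  rw [inner_add_left, inner_neg_left, real_inner_smul_left] at h3
  linarith

end Rim478
end

section
set_option autoImplicit false

open Real MeasureTheory Set Filter Topology
open scoped ContDiff InnerProductSpace Manifold

namespace Rim478

namespace MANM

variable {M : Type} [TopologicalSpace M] [ChartedSpace E2 M] [IsManifold 𝓘(ℝ, E2) ω M]

/-- a smooth map in a chart -/
theorem contDiffOn_chart {u : M → E3} (hu : ContMDiff 𝓘(ℝ, E2) 𝓘(ℝ, E3) ω u) (x : M) :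
    ContDiffOn ℝ ω (u ∘ (extChartAt 𝓘(ℝ, E2) x).symm) (extChartAt 𝓘(ℝ, E2) x).target :=
  contMDiffOn_iff_contDiffOn.1
    (hu.comp_contMDiffOn (contMDiffOn_extChartAt_symm (I := 𝓘(ℝ, E2)) (n := ω) x))

theorem analytic_chart {u : M → E3} (hu : ContMDiff 𝓘(ℝ, E2) 𝓘(ℝ, E3) ω u) (x : M) :
    AnalyticOnNhd ℝ (u ∘ (extChartAt 𝓘(ℝ, E2) x).symm) (extChartAt 𝓘(ℝ, E2) x).target := by
  intro y hy
  exact ((contDiffOn_chart hu x).contDiffAt
    ((isOpen_extChartAt_target (I := 𝓘(ℝ, E2)) x).mem_nhds hy)).analyticAt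

/-- the set where `u = v` near the point is closed -/
theorem closed_step {u v : M → E3} (hu : ContMDiff 𝓘(ℝ, E2) 𝓘(ℝ, E3) ω u)
    (hv : ContMDiff 𝓘(ℝ, E2) 𝓘(ℝ, E3) ω v) :
    IsClosed {x : M | u =ᶠ[𝓝 x] v} := by
  rw [← closure_subset_iff_isClosed]
  intro x hx
  set c := extChartAt 𝓘(ℝ, E2) x with hc
  have htar : IsOpen c.target := isOpen_extChartAt_target (I := 𝓘(ℝ, E2)) x
  have hxt : c x ∈ c.target := mem_extChartAt_target (I := 𝓘(ℝ, E2)) x
  obtain ⟨r, hr, hball⟩ := Metric.isOpen_iff.1 htar (c x) hxt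
  -- the preimage of the ball is a neighbourhood of x
  have hnb : c.source ∩ c ⁻¹' Metric.ball (c x) r ∈ 𝓝 x := by
    refine Filter.inter_mem (extChartAt_source_mem_nhds (I := 𝓘(ℝ, E2)) x) ?_
    exact (continuousAt_extChartAt (I := 𝓘(ℝ, E2)) x).preimage_mem_nhds
      (Metric.ball_mem_nhds _ hr)
  obtain ⟨y, hy1, hy2⟩ := mem_closure_iff_nhds.1 hx _ hnb
  have hy3 : u =ᶠ[𝓝 y] v := hy2
  have hcy : c y ∈ Metric.ball (c x) r := hy1.2
  -- eventually equal at c y in the chart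
  have hsym : Tendsto c.symm (𝓝 (c y)) (𝓝 y) := by
    have h1 : ContinuousAt c.symm (c y) := continuousAt_extChartAt_symm'' (hball hcy)
    have h2 : c.symm (c y) = y := c.left_inv hy1.1
    have h3 : Tendsto c.symm (𝓝 (c y)) (𝓝 (c.symm (c y))) := h1
    rwa [h2] at h3
  have hev : (u ∘ c.symm) =ᶠ[𝓝 (c y)] (v ∘ c.symm) := hsym.eventually hy3
  have hu' : AnalyticOnNhd ℝ (u ∘ c.symm) (Metric.ball (c x) r) :=
    fun z hz => analytic_chart hu x z (hball hz)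
  have hv' : AnalyticOnNhd ℝ (v ∘ c.symm) (Metric.ball (c x) r) :=
    fun z hz => analytic_chart hv x z (hball hz)
  have heq := hu'.eqOn_of_preconnected_of_eventuallyEq hv'
    (convex_ball (c x) r).isPreconnected hcy hev
  show u =ᶠ[𝓝 x] v
  filter_upwards [hnb] with z hz
  have := heq hz.2
  simpa [c.left_inv hz.1] using this

end MANM

open MANM in
theorem specMAN : SpecMAN := by
  intro M _ _ _ _ f u v ψ hf hu hv hψ hinj heq
  -- the chart at ψ 0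
  set c := extChartAt 𝓘(ℝ, E2) (ψ 0) with hc
  have htar : IsOpen c.target := isOpen_extChartAt_target (I := 𝓘(ℝ, E2)) (ψ 0)
  have hxt : c (ψ 0) ∈ c.target := mem_extChartAt_target (I := 𝓘(ℝ, E2)) (ψ 0)
  have hψc : Continuous ψ := hψ.continuous
  have hsrc : ∀ᶠ p in 𝓝 (0 : ℝ × ℝ), ψ p ∈ c.source :=
    hψc.continuousAt.preimage_mem_nhds (extChartAt_source_mem_nhds (I := 𝓘(ℝ, E2)) (ψ 0))
  -- g = c ∘ ψ
  have hg : ContDiffAt ℝ ω (fun p => c (ψ p)) 0 := by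
    have h1 : ContMDiffAt 𝓘(ℝ, E2) 𝓘(ℝ, E2) ω c (ψ 0) :=
      contMDiffAt_extChartAt (I := 𝓘(ℝ, E2)) (n := ω)
    have h2 : ContMDiffAt 𝓘(ℝ, ℝ × ℝ) 𝓘(ℝ, E2) ω (fun p => c (ψ p)) 0 :=
      ContMDiffAt.comp (0 : ℝ × ℝ) h1 (hψ 0)
    exact contMDiffAt_iff_contDiffAt.1 h2
  have hF : ContDiffAt ℝ ω (f ∘ c.symm) (c (ψ 0)) :=
    (contDiffOn_chart hf (ψ 0)).contDiffAt (htar.mem_nhds hxt)
  have hone : (ω : WithTop ℕ∞) ≠ 0 := by simp
  have hgs := hg.hasStrictFDerivAt hone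
  have hFd : DifferentiableAt ℝ (f ∘ c.symm) (c (ψ 0)) := hF.differentiableAt hone
  have hgd : DifferentiableAt ℝ (fun p => c (ψ p)) 0 := hg.differentiableAt hone
  have hcomp : fderiv ℝ (fun p => f (ψ p)) 0 =
      (fderiv ℝ (f ∘ c.symm) (c (ψ 0))).comp (fderiv ℝ (fun p => c (ψ p)) 0) := by
    have h1 : (fun p => f (ψ p)) =ᶠ[𝓝 (0 : ℝ × ℝ)] (f ∘ c.symm) ∘ (fun p => c (ψ p)) := by
      filter_upwards [hsrc] with p hp
      simp [c.left_inv hp]
    rw [h1.fderiv_eq]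
    exact fderiv_comp (0 : ℝ × ℝ) hFd hgd
  have hginj : Function.Injective (fderiv ℝ (fun p => c (ψ p)) 0) := by
    intro a b hab
    apply hinj
    rw [hcomp]
    simp only [ContinuousLinearMap.comp_apply]
    rw [hab]
  have hsurj : Function.Surjective (fderiv ℝ (fun p => c (ψ p)) 0) := by
    have hdim : Module.finrank ℝ (ℝ × ℝ) = Module.finrank ℝ E2 := by simp
    exact (LinearMap.injective_iff_surjective_of_finrank_eq_finrank (f := (fderiv ℝ (fun p => c (ψ p)) 0).toLinearMap) hdim).1 hginj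
  have hrange : (fderiv ℝ (fun p => c (ψ p)) 0).range = ⊤ :=
    LinearMap.range_eq_top.2 hsurj
  have hmap : map (fun p => c (ψ p)) (𝓝 (0 : ℝ × ℝ)) = 𝓝 (c (ψ 0)) :=
    hgs.map_nhds_eq_of_surj hrange
  -- u = v near c (ψ 0) in the chart
  have hev : (u ∘ c.symm) =ᶠ[𝓝 (c (ψ 0))] (v ∘ c.symm) := by
    rw [← hmap]
    show ∀ᶠ y in map (fun p => c (ψ p)) (𝓝 (0 : ℝ × ℝ)), (u ∘ c.symm) y = (v ∘ c.symm) y
    rw [eventually_map]
    filter_upwards [hsrc] with p hp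
    simp [c.left_inv hp, heq p]
  have h0 : u =ᶠ[𝓝 (ψ 0)] v := by
    have h1 : Tendsto c (𝓝 (ψ 0)) (𝓝 (c (ψ 0))) := continuousAt_extChartAt (I := 𝓘(ℝ, E2)) (ψ 0)
    filter_upwards [h1.eventually hev, extChartAt_source_mem_nhds (I := 𝓘(ℝ, E2)) (ψ 0)] with z hz hz2
    have hz' : (u ∘ c.symm) (c z) = (v ∘ c.symm) (c z) := hz
    simpa [c.left_inv hz2] using hz'
  have hopen : IsOpen {x : M | u =ᶠ[𝓝 x] v} := by
    rw [isOpen_iff_mem_nhds]
    intro x hx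
    exact eventually_eventually_nhds.2 hx
  have huniv : {x : M | u =ᶠ[𝓝 x] v} = Set.univ :=
    IsClopen.eq_univ ⟨closed_step hu hv, hopen⟩ ⟨ψ 0, h0⟩
  intro x
  have hx : x ∈ {x : M | u =ᶠ[𝓝 x] v} := huniv ▸ Set.mem_univ x
  exact (show u =ᶠ[𝓝 x] v from hx).eq_of_nhds

end Rim478
end
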