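import Pool.Agent.Lib.MP_478c11_gt.Spec

set_option autoImplicit false

open Real MeasureTheory Set Filter Topology
open scoped ContDiff InnerProductSpace Manifold

namespace Rim478
namespace RMPM

theorem mulAbs_hasDerivAt (x : ℝ) : HasDerivAt (fun y : ℝ => y * |y|) (2 * |x|) x := by
  rcases lt_trichotomy x 0 with h | h | h
  · have h1 := (hasDerivAt_id x).mul (hasDerivAt_abs_neg h)
    have h2 : HasDerivAt (fun y : ℝ => y * |y|) (1 * |x| + x * (-1)) x := h1
    rw [abs_of_neg h] at h2 ⊢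
    convert h2 using 1
    ring
  · subst h
    rw [hasDerivAt_iff_isLittleO_nhds_zero]
    simp only [zero_add, abs_zero, mul_zero, sub_zero, smul_zero]
    have h1 : (fun h : ℝ => |h|) =o[𝓝 0] (fun _ : ℝ => (1 : ℝ)) := by
      rw [Asymptotics.isLittleO_one_iff]
      have : Tendsto (fun h : ℝ => |h|) (𝓝 0) (𝓝 |0|) := continuous_abs.tendsto 0
      simpa using this
    have h2 := (Asymptotics.isBigO_refl (fun h : ℝ => h) (𝓝 0)).mul_isLittleO h1
    simpa using h2
  · have h1 := (hasDerivAt_id x).mul (hasDerivAt_abs_pos h)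
    have h2 : HasDerivAt (fun y : ℝ => y * |y|) (1 * |x| + x * 1) x := h1
    rw [abs_of_pos h] at h2 ⊢
    convert h2 using 1
    ring

/-- the integral over a period -/
noncomputable def J (f : ℝ → ℝ) : ℝ := ∫ x in (0:ℝ)..(2 * π), f x

theorem two_pi_nonneg : (0:ℝ) ≤ 2 * π := by positivity

theorem J_mono {f g : ℝ → ℝ} (hf : Continuous f) (hg : Continuous g) (h : ∀ x, f x ≤ g x) : J f ≤ J g :=
  intervalIntegral.integral_mono two_pi_nonneg (hf.intervalIntegrable _ _) (hg.intervalIntegrable _ _) h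

theorem J_add {f g : ℝ → ℝ} (hf : Continuous f) (hg : Continuous g) : J (fun x => f x + g x) = J f + J g :=
  intervalIntegral.integral_add (hf.intervalIntegrable _ _) (hg.intervalIntegrable _ _)

theorem J_mul (c : ℝ) (f : ℝ → ℝ) : J (fun x => c * f x) = c * J f :=
  intervalIntegral.integral_const_mul c f

theorem J_nonneg {f : ℝ → ℝ} (h : ∀ x, 0 ≤ f x) : 0 ≤ J f :=
  intervalIntegral.integral_nonneg_of_forall two_pi_nonneg h

theorem J_comb {f g h k : ℝ → ℝ} (hf : Continuous f) (hg : Continuous g) (hh : Continuous h) (hk : Continuous k)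
    (c d e : ℝ) (H : ∀ x, f x ≤ c * g x + d * h x + e * k x) : J f ≤ c * J g + d * J h + e * J k := by
  have h1 : J f ≤ J (fun x => c * g x + d * h x + e * k x) :=
    J_mono hf (((continuous_const.mul hg).add (continuous_const.mul hh)).add (continuous_const.mul hk)) H
  have h2 : J (fun x => c * g x + d * h x + e * k x) = c * J g + d * J h + e * J k := by
    rw [J_add (f := fun x => c * g x + d * h x) (g := fun x => e * k x)
        ((continuous_const.mul hg).add (continuous_const.mul hh)) (continuous_const.mul hk),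
      J_add (f := fun x => c * g x) (g := fun x => d * h x) (continuous_const.mul hg) (continuous_const.mul hh),
      J_mul, J_mul, J_mul]
  rw [h2] at h1
  exact h1

theorem J_deriv {G G' : ℝ → ℝ} (h : ∀ x, HasDerivAt G (G' x) x) (hc : Continuous G') (he : G (2 * π) = G 0) :
    J G' = 0 := by
  have := intervalIntegral.integral_eq_sub_of_hasDerivAt (a := 0) (b := 2 * π) (f := G) (f' := G')
    (fun x _ => h x) (hc.intervalIntegrable _ _)
  rw [J, this, he, sub_self]

theorem zero_of_J {f : ℝ → ℝ} (hf : Continuous f) (hp : ∀ x, f (x + 2 * π) = f x)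
    (h : J (fun x => f x ^ 2) ≤ 0) : ∀ x, f x = 0 := by
  have h0 : ∀ x ∈ Icc (0:ℝ) (2 * π), f x = 0 := by
    by_contra hcon
    push Not at hcon
    obtain ⟨x, hx, hfx⟩ := hcon
    have hpos : 0 < J (fun x => f x ^ 2) := by
      refine intervalIntegral.integral_pos (by positivity) ((hf.pow 2).continuousOn) (fun y _ => by positivity) ⟨x, hx, ?_⟩
      positivity
    linarith
  intro x
  have hper : Function.Periodic f (2 * π) := hp
  obtain ⟨y, hy, hxy⟩ := hper.exists_mem_Ico₀ (by positivity) x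
  rw [hxy]
  exact h0 y ⟨hy.1, hy.2.le⟩

theorem key {R : ℝ → ℝ} {Λ c₀ ε : ℝ} (hR : Continuous R) (hRpos : ∀ x, 0 < R x) (hΛ : 0 ≤ Λ) (hc₀ : 0 < c₀)
    (hε : 0 < ε) (hε1 : ε ≤ 1 / 2) (hε2 : 40 * (Λ * ε) ≤ 1) (hε3 : 300 * (ε * (1 + Λ)) ≤ c₀)
    (a b c ν τ : ℝ → ℝ) (ha : ContDiff ℝ ∞ a) (hb : ContDiff ℝ ∞ b) (hν : Continuous ν)
    (hpa : ∀ x, a (x + 2 * π) = a x) (hpb : ∀ x, b (x + 2 * π) = b x)
    (hda : ∀ x, deriv a x = b x + ν x * c x) (hdb : ∀ x, deriv b x = -a x + τ x * c x)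
    (hντ : ∀ x, |ν x| ≤ Λ * τ x ^ 2) (hc1 : ∀ x, 1 / 2 ≤ c x) (hc2 : ∀ x, c x ≤ 1)
    (hae : ∀ x, |a x| ≤ ε) (hbe : ∀ x, |b x| ≤ ε) (hb2 : ∀ x, |iteratedDeriv 2 b x| ≤ ε)
    (haR : ∫ x in (0:ℝ)..(2 * π), a x * R x = 0)
    (hW : c₀ * ∫ x in (0:ℝ)..(2 * π), deriv a x ^ 2 ≤
      (∫ x in (0:ℝ)..(2 * π), deriv a x ^ 2) - ∫ x in (0:ℝ)..(2 * π), a x ^ 2)
    (hI : 0 ≤ ∫ x in (0:ℝ)..(2 * π), ((a x ^ 2 - b x ^ 2) / 2 - ν x * b x) / (1 - a x ^ 2)) :
    ∀ x, a x = 0 ∧ b x = 0 ∧ τ x = 0 := by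
  have ca : Continuous a := ha.continuous
  have cb : Continuous b := hb.continuous
  have cda : Continuous (deriv a) := ha.continuous_deriv (by simp)
  have cdb : Continuous (deriv b) := hb.continuous_deriv (by simp)
  have hb' : ContDiff ℝ ∞ (deriv b) := by
    exact (contDiff_infty_iff_deriv.1 hb).2
  have cddb : Continuous (deriv (deriv b)) := hb'.continuous_deriv (by simp)
  have hb2' : ∀ x, |deriv (deriv b) x| ≤ ε := by
    intro x
    have h := hb2 x
    rw [iteratedDeriv_succ, iteratedDeriv_one] at h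
    exact h
  have Db : ∀ x, HasDerivAt b (deriv b x) x := fun x => (hb.differentiable (by simp) x).hasDerivAt
  have Ddb : ∀ x, HasDerivAt (deriv b) (deriv (deriv b) x) x :=
    fun x => (hb'.differentiable (by simp) x).hasDerivAt
  have pdb : ∀ x, deriv b (x + 2 * π) = deriv b x := by
    intro x
    have h1 : (fun y => b (y + 2 * π)) = b := funext hpb
    have h2 := deriv_comp_add_const b (2 * π) x
    rw [h1] at h2
    exact h2.symm
  have pda : ∀ x, deriv a (x + 2 * π) = deriv a x := by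
    intro x
    have h1 : (fun y => a (y + 2 * π)) = a := funext hpa
    have h2 := deriv_comp_add_const a (2 * π) x
    rw [h1] at h2
    exact h2.symm
  have eb : b (2 * π) = b 0 := by have := hpb 0; rwa [zero_add] at this
  have edb : deriv b (2 * π) = deriv b 0 := by have := pdb 0; rwa [zero_add] at this
  -- names
  set A : ℝ := J (fun x => deriv a x ^ 2) with hA
  set a2 : ℝ := J (fun x => a x ^ 2) with ha2
  set B : ℝ := J (fun x => b x ^ 2) with hB
  have A0 : 0 ≤ A := J_nonneg fun x => by positivity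
  have a20 : 0 ≤ a2 := J_nonneg fun x => by positivity
  have B0 : 0 ≤ B := J_nonneg fun x => by positivity
  have hW' : c₀ * A ≤ A - a2 := hW
  have a2A : a2 ≤ A := by
    have := mul_nonneg hc₀.le A0
    linarith only [this, hW']
  -- integration by parts
  have P1 : J (fun x => |b x| * deriv b x ^ 2) ≤ ε / 2 * B := by
    have h0 : J (fun x => 2 * |b x| * deriv b x * deriv b x + b x * |b x| * deriv (deriv b) x) = 0 := by
      refine J_deriv (G := fun x => (b x * |b x|) * deriv b x) (fun x => ?_) (by fun_prop) ?_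
      · have h1 := ((mulAbs_hasDerivAt (b x)).comp x (Db x)).mul (Ddb x)
        exact h1
      · simp only [eb, edb]
    have h1 : J (fun x => |b x| * deriv b x ^ 2) ≤
        1 / 2 * J (fun x => 2 * |b x| * deriv b x * deriv b x + b x * |b x| * deriv (deriv b) x) +
          ε / 2 * J (fun x => b x ^ 2) + 0 * J (fun x => b x ^ 2) := by
      refine J_comb (by fun_prop) (by fun_prop) (by fun_prop) (by fun_prop) _ _ _ (fun x => ?_)
      have h2 : -(b x * |b x| * deriv (deriv b) x) ≤ ε * b x ^ 2 := by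
        have h3 : |b x * |b x| * deriv (deriv b) x| ≤ ε * b x ^ 2 := by
          rw [abs_mul, abs_mul, abs_abs, ← sq, sq_abs]
          have := mul_le_mul_of_nonneg_left (hb2' x) (sq_nonneg (b x))
          linarith
        have := neg_abs_le (b x * |b x| * deriv (deriv b) x)
        linarith only [this, h3]
      linarith only [h2]
    rw [h0] at h1
    linarith
  have P2 : J (fun x => deriv b x ^ 4) ≤ 3 / 2 * ε ^ 2 * B := by
    have h0 : J (fun x => deriv b x * deriv b x ^ 3 + b x * (3 * deriv b x ^ 2 * deriv (deriv b) x)) = 0 := by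
      refine J_deriv (G := fun x => b x * deriv b x ^ 3) (fun x => ?_) (by fun_prop) ?_
      · have h1 : HasDerivAt (fun x => b x * deriv b x ^ 3) (deriv b x * deriv b x ^ 3 +
            b x * (((3 : ℕ) : ℝ) * deriv b x ^ (3 - 1) * deriv (deriv b) x)) x := (Db x).mul ((Ddb x).pow 3)
        simpa using h1
      · simp only [eb, edb]
    have h1 : J (fun x => deriv b x ^ 4) ≤
        1 * J (fun x => deriv b x * deriv b x ^ 3 + b x * (3 * deriv b x ^ 2 * deriv (deriv b) x)) +
          3 * ε * J (fun x => |b x| * deriv b x ^ 2) + 0 * J (fun x => b x ^ 2) := by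
      refine J_comb (by fun_prop) (by fun_prop) (by fun_prop) (by fun_prop) _ _ _ (fun x => ?_)
      have h2 : -(b x * (3 * deriv b x ^ 2 * deriv (deriv b) x)) ≤ 3 * ε * (|b x| * deriv b x ^ 2) := by
        have h3 : |b x * (3 * deriv b x ^ 2 * deriv (deriv b) x)| ≤ 3 * ε * (|b x| * deriv b x ^ 2) := by
          rw [abs_mul, abs_mul, abs_of_nonneg (by positivity : (0:ℝ) ≤ 3 * deriv b x ^ 2)]
          have := mul_le_mul_of_nonneg_left (hb2' x) (by positivity : (0:ℝ) ≤ |b x| * (3 * deriv b x ^ 2))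
          linarith
        have := neg_abs_le (b x * (3 * deriv b x ^ 2 * deriv (deriv b) x))
        linarith only [this, h3]
      linarith only [h2]
    rw [h0] at h1
    have := mul_le_mul_of_nonneg_left P1 (by positivity : (0:ℝ) ≤ 3 * ε)
    linarith only [this, h1]
  -- tau and nu
  have hτ : ∀ x, τ x ^ 2 ≤ 8 * (deriv b x ^ 2 + a x ^ 2) := by
    intro x
    have h1 : τ x * c x = deriv b x + a x := by rw [hdb]; ring
    have h2 : (τ x) ^ 2 ≤ 4 * (τ x * c x) ^ 2 := by
      have h3 : 1 / 4 ≤ c x ^ 2 := by nlinarith only [hc1 x]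
      have := mul_le_mul_of_nonneg_left h3 (sq_nonneg (τ x))
      linarith only [this]
    rw [h1] at h2
    linarith only [h2, sq_nonneg (deriv b x - a x)]
  have hν1 : ∀ x, |ν x| ≤ 8 * Λ * (deriv b x ^ 2 + a x ^ 2) := by
    intro x
    have := mul_le_mul_of_nonneg_left (hτ x) hΛ
    have := hντ x
    linarith
  have N1 : J (fun x => |ν x| * |b x|) ≤ 8 * Λ * (ε / 2 * B + ε * A) := by
    have h1 : J (fun x => |ν x| * |b x|) ≤ 8 * Λ * J (fun x => |b x| * deriv b x ^ 2) +
        8 * Λ * ε * J (fun x => a x ^ 2) + 0 * J (fun x => a x ^ 2) := by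
      refine J_comb (by fun_prop) (by fun_prop) (by fun_prop) (by fun_prop) _ _ _ (fun x => ?_)
      have h2 := mul_le_mul_of_nonneg_right (hν1 x) (abs_nonneg (b x))
      have h3 := mul_le_mul_of_nonneg_left (hbe x) (by positivity : (0:ℝ) ≤ 8 * Λ * a x ^ 2)
      linarith
    have h2 := mul_le_mul_of_nonneg_left P1 (by positivity : (0:ℝ) ≤ 8 * Λ)
    have h3 := mul_le_mul_of_nonneg_left a2A (by positivity : (0:ℝ) ≤ 8 * Λ * ε)
    linarith
  have N2 : J (fun x => ν x ^ 2) ≤ 64 * Λ ^ 2 * (3 * ε ^ 2 * B + 2 * ε ^ 2 * A) := by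
    have h1 : J (fun x => ν x ^ 2) ≤ 128 * Λ ^ 2 * J (fun x => deriv b x ^ 4) +
        128 * Λ ^ 2 * ε ^ 2 * J (fun x => a x ^ 2) + 0 * J (fun x => a x ^ 2) := by
      refine J_comb (by fun_prop) (by fun_prop) (by fun_prop) (by fun_prop) _ _ _ (fun x => ?_)
      have h2 : ν x ^ 2 ≤ (8 * Λ * (deriv b x ^ 2 + a x ^ 2)) ^ 2 := by
        rw [← sq_abs (ν x)]
        exact pow_le_pow_left₀ (abs_nonneg _) (hν1 x) 2
      have h3 : a x ^ 2 ≤ ε ^ 2 := by
        rw [← sq_abs (a x)]
        exact pow_le_pow_left₀ (abs_nonneg _) (hae x) 2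
      have h4 : (deriv b x ^ 2 + a x ^ 2) ^ 2 ≤ 2 * deriv b x ^ 4 + 2 * (ε ^ 2 * a x ^ 2) := by
        have := mul_le_mul_of_nonneg_right h3 (sq_nonneg (a x))
        linarith only [this, sq_nonneg (deriv b x ^ 2 - a x ^ 2)]
      have h5 := mul_le_mul_of_nonneg_left h4 (by positivity : (0:ℝ) ≤ 64 * Λ ^ 2)
      linarith only [h2, h5]
    have h2 := mul_le_mul_of_nonneg_left P2 (by positivity : (0:ℝ) ≤ 128 * Λ ^ 2)
    have h3 := mul_le_mul_of_nonneg_left a2A (by positivity : (0:ℝ) ≤ 128 * Λ ^ 2 * ε ^ 2)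
    linarith only [h1, h2, h3]
  -- step 1
  have hD : ∀ x, 3 / 4 ≤ 1 - a x ^ 2 := by
    intro x
    have h3 : a x ^ 2 ≤ (1 / 2) ^ 2 := by
      rw [← sq_abs (a x)]
      exact pow_le_pow_left₀ (abs_nonneg _) ((hae x).trans hε1) 2
    linarith
  have S1 : B ≤ a2 + 2 * (ε ^ 2 * a2) + 4 * J (fun x => |ν x| * |b x|) := by
    have h1 : J (fun x => ((a x ^ 2 - b x ^ 2) / 2 - ν x * b x) / (1 - a x ^ 2)) ≤
        (1 / 2 + ε ^ 2) * J (fun x => a x ^ 2) + (-1 / 2) * J (fun x => b x ^ 2) +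
          2 * J (fun x => |ν x| * |b x|) := by
      refine J_comb ?_ (by fun_prop) (by fun_prop) (by fun_prop) _ _ _ (fun x => ?_)
      · refine Continuous.div (by fun_prop) (by fun_prop) (fun x => ?_)
        have := hD x
        linarith
      · have hD' := hD x
        rw [div_le_iff₀ (by linarith)]
        have h3 : a x ^ 2 ≤ ε ^ 2 := by
          rw [← sq_abs (a x)]
          exact pow_le_pow_left₀ (abs_nonneg _) (hae x) 2
        have hp : 0 ≤ |ν x| * |b x| := by positivity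
        have hq : -(ν x * b x) ≤ |ν x| * |b x| := by
          rw [← abs_mul]; exact neg_le_abs _
        have e1 : (|ν x| * |b x|) * (3 / 4) ≤ (|ν x| * |b x|) * (1 - a x ^ 2) :=
          mul_le_mul_of_nonneg_left hD' hp
        have e2 : 0 ≤ a x ^ 2 * b x ^ 2 := by positivity
        have e3 : a x ^ 2 * a x ^ 2 ≤ ε ^ 2 * a x ^ 2 := mul_le_mul_of_nonneg_right h3 (sq_nonneg _)
        have e4 : ε ^ 2 * a x ^ 2 * (3 / 4) ≤ ε ^ 2 * a x ^ 2 * (1 - a x ^ 2) :=
          mul_le_mul_of_nonneg_left hD' (by positivity)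
        linarith only [hq, hp, e1, e2, e3, e4, mul_nonneg (sq_nonneg (a x)) (sq_nonneg (a x))]
    have h2 : 0 ≤ J (fun x => ((a x ^ 2 - b x ^ 2) / 2 - ν x * b x) / (1 - a x ^ 2)) := hI
    linarith
  have S2 : A ≤ B + 2 * J (fun x => |ν x| * |b x|) + J (fun x => ν x ^ 2) := by
    have h1 : J (fun x => deriv a x ^ 2) ≤ 1 * J (fun x => b x ^ 2) + 2 * J (fun x => |ν x| * |b x|) +
        1 * J (fun x => ν x ^ 2) := by
      refine J_comb (by fun_prop) (by fun_prop) (by fun_prop) (by fun_prop) _ _ _ (fun x => ?_)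
      rw [hda x]
      have hc1' := hc1 x
      have hc2' := hc2 x
      have e1 : ν x ^ 2 * c x ^ 2 ≤ ν x ^ 2 * 1 :=
        mul_le_mul_of_nonneg_left (by nlinarith only [hc1', hc2']) (sq_nonneg _)
      have e2 : b x * ν x * c x ≤ |ν x| * |b x| := by
        have : |b x * ν x * c x| ≤ |ν x| * |b x| := by
          rw [abs_mul, abs_mul, abs_of_nonneg (by linarith : (0:ℝ) ≤ c x)]
          have := mul_le_mul_of_nonneg_left hc2' (by positivity : (0:ℝ) ≤ |b x| * |ν x|)
          linarith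
        exact (le_abs_self _).trans this
      linarith only [e1, e2]
    linarith
  have S3 : B ≤ 2 * A + 2 * J (fun x => ν x ^ 2) := by
    have h1 : J (fun x => b x ^ 2) ≤ 2 * J (fun x => deriv a x ^ 2) + 2 * J (fun x => ν x ^ 2) +
        0 * J (fun x => ν x ^ 2) := by
      refine J_comb (by fun_prop) (by fun_prop) (by fun_prop) (by fun_prop) _ _ _ (fun x => ?_)
      have hc1' := hc1 x
      have hc2' := hc2 x
      have e1 : ν x ^ 2 * c x ^ 2 ≤ ν x ^ 2 * 1 :=
        mul_le_mul_of_nonneg_left (by nlinarith only [hc1', hc2']) (sq_nonneg _)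
      have e2 : b x = deriv a x - ν x * c x := by rw [hda x]; ring
      rw [e2]
      linarith only [e1, sq_nonneg (deriv a x + ν x * c x)]
    linarith
  -- conclusion of the estimates
  set k : ℝ := Λ * ε with hk
  have k0 : 0 ≤ k := by positivity
  have k1 : k ≤ 1 / 40 := by linarith
  set n1 : ℝ := J (fun x => |ν x| * |b x|)
  set n2 : ℝ := J (fun x => ν x ^ 2)
  have N1' : n1 ≤ 4 * k * B + 8 * k * A := by rw [hk]; linarith
  have N2' : n2 ≤ 192 * k ^ 2 * B + 128 * k ^ 2 * A := by rw [hk]; linarith only [N2]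
  have k2 : k ^ 2 ≤ 1 / 1600 := by nlinarith only [k0, k1]
  have k2' : k ^ 2 ≤ k / 40 := by nlinarith only [k0, k1]
  have hBA : B ≤ 3 * A := by
    have e1 := mul_le_mul_of_nonneg_right k2 B0
    have e2 := mul_le_mul_of_nonneg_right k2 A0
    linarith only [S3, N2', e1, e2, A0, B0]
  have hAz : A ≤ 0 := by
    have e1 : n1 ≤ 20 * k * A := by
      have := mul_le_mul_of_nonneg_left hBA (by positivity : (0:ℝ) ≤ 4 * k)
      linarith
    have e2 : n2 ≤ 704 * k ^ 2 * A := by
      have := mul_le_mul_of_nonneg_left hBA (by positivity : (0:ℝ) ≤ 192 * k ^ 2)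
      linarith
    have e3 : 704 * k ^ 2 * A ≤ 18 * k * A := by
      have := mul_le_mul_of_nonneg_right k2' A0
      linarith only [this, mul_nonneg k0 A0]
    have e4 : ε ^ 2 * a2 ≤ ε / 2 * A := by
      have h1 : ε ^ 2 ≤ ε / 2 := by nlinarith only [hε, hε1]
      have h2 := mul_le_mul_of_nonneg_left a2A (sq_nonneg ε)
      have h3 := mul_le_mul_of_nonneg_right h1 A0
      linarith
    have e5 : c₀ * A ≤ ε * A + 138 * k * A := by linarith
    have e6 : 300 * (ε * (1 + Λ)) * A ≤ c₀ * A := mul_le_mul_of_nonneg_right hε3 A0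
    have e7 : ε * A + 138 * k * A ≤ 150 * (ε * (1 + Λ)) * A := by
      rw [hk]
      have h1 : 0 ≤ ε * A := by positivity
      have h2 : 0 ≤ Λ * ε * A := by positivity
      linarith only [h1, h2]
    have e8 : 150 * (ε * (1 + Λ)) * A ≤ 0 := by linarith
    have e9 : 0 < 150 * (ε * (1 + Λ)) := by positivity
    by_contra hcon
    push Not at hcon
    have := mul_pos e9 hcon
    linarith
  have hda0 : ∀ x, deriv a x = 0 := zero_of_J cda pda hAz
  have hbz : ∀ x, b x = 0 := zero_of_J cb hpb (by linarith)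
  have haz : ∀ x, a x = 0 := by
    have hconst : ∀ x, a x = a 0 := fun x =>
      is_const_of_deriv_eq_zero (ha.differentiable (by simp)) hda0 x 0
    have h1 : ∫ x in (0:ℝ)..(2 * π), a x * R x = a 0 * ∫ x in (0:ℝ)..(2 * π), R x := by
      rw [← intervalIntegral.integral_const_mul]
      exact intervalIntegral.integral_congr (fun x _ => by simp only [hconst x])
    have h2 : 0 < ∫ x in (0:ℝ)..(2 * π), R x :=
      intervalIntegral.intervalIntegral_pos_of_pos (hR.intervalIntegrable _ _) hRpos (by positivity)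
    rw [h1] at haR
    rcases mul_eq_zero.1 haR with h | h
    · intro x; rw [hconst x, h]
    · exact absurd h h2.ne'
  intro x
  refine ⟨haz x, hbz x, ?_⟩
  have h1 : deriv b x = 0 := by
    have : b = fun _ => 0 := funext hbz
    rw [this]; simp
  have h2 := hdb x
  rw [h1, haz x, neg_zero, zero_add] at h2
  have hc1' := hc1 x
  rcases mul_eq_zero.1 h2.symm with h | h
  · exact h
  · linarith

end RMPM

theorem specRMP (hQFM : SpecQFM) : SpecRMP := by
  intro R hR hpR hRpos hRc hRs Λ hΛ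
  obtain ⟨c₀, hc₀, hW⟩ := hQFM R hR hpR hRpos hRc hRs
  refine ⟨min (1 / 2) (min (1 / (40 * (1 + Λ))) (c₀ / (300 * (1 + Λ)))), by positivity, ?_⟩
  set ε := min (1 / 2 : ℝ) (min (1 / (40 * (1 + Λ))) (c₀ / (300 * (1 + Λ)))) with hε
  have e0 : 0 < ε := by rw [hε]; positivity
  have e1 : ε ≤ 1 / 2 := min_le_left _ _
  have e2 : ε ≤ 1 / (40 * (1 + Λ)) := (min_le_right _ _).trans (min_le_left _ _)
  have e3 : ε ≤ c₀ / (300 * (1 + Λ)) := (min_le_right _ _).trans (min_le_right _ _)
  rw [le_div_iff₀ (by positivity)] at e2 e3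
  intro a b c ν τ ha hb _ hν _ hpa hpb hda hdb hντ hc1 hc2 hae hbe hb2 _ haR hac has hI
  exact RMPM.key hR hRpos hΛ hc₀ e0 e1 (by nlinarith only [e0, e2]) (by linarith) a b c ν τ ha hb hν hpa hpb hda hdb hντ hc1
    hc2 hae hbe hb2 haR (hW a (ha.of_le (by simp)) hpa haR hac has) hI

end Rim478
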