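import Mathlib

set_option autoImplicit false

/-!
# MP_478c11_gt (helper9): RIM RIGIDITY, a non-deformability theorem for nonconvex surfaces

THEOREM.  `f_α` a smooth family of isometric immersions of a surface.  Suppose that a plane touches `M_0` along a closed convex curve `γ` (a RIM; a torus
lying on a table) and that the normal curvature of `M_0` across `γ` is not zero.  Then, up to rigid motions, all `f_α` agree with `f_0` to infinite order along `γ`.  If everything is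
real analytic then all `f_α` are congruent.

Everything happens on a strip `X α t θ` (`t = 0` is the rim, `θ` the tangent angle of `γ`, `R` the radius of curvature, `X_t` the unit inner normal on the rim).
`T = X_θ / R`, `U = X_t`, `N = T × U` on the rim: `T' = U + ν N`, `U' = -T + τ N` (the geodesic curvature is fixed), `R ν ℓ = τ²` (`K = 0` on the rim, `ℓ = X_tt · N`).
Module `XXX` = file `Pool/Agent/Lib/MP_478c11_gt/XXX.lean` (import this file), theorem `specXXX (hYYY : SpecYYY) … : SpecXXX`, namespace `Rim478`, own lemmas in the namespace `Rim478.XXXM`.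
-/

open Real MeasureTheory Set Filter Topology
open scoped ContDiff InnerProductSpace Manifold

namespace Rim478

abbrev E3 := EuclideanSpace ℝ (Fin 3)
abbrev E2 := EuclideanSpace ℝ (Fin 2)

/-- cross product -/
noncomputable def cr (a b : E3) : E3 :=
  !₂[a 1 * b 2 - a 2 * b 1, a 2 * b 0 - a 0 * b 2, a 0 * b 1 - a 1 * b 0]

section
variable {V : Type} [NormedAddCommGroup V] [NormedSpace ℝ V]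

/-- derivative in `t` of a function of `(α, t, θ)` -/
noncomputable def dt (G : ℝ → ℝ → ℝ → V) : ℝ → ℝ → ℝ → V := fun α t θ => deriv (fun s => G α s θ) t

/-- derivative in `θ` of a function of `(α, t, θ)` -/
noncomputable def dh (G : ℝ → ℝ → ℝ → V) : ℝ → ℝ → ℝ → V := fun α t θ => deriv (fun s => G α t s) θ

/-- jointly smooth -/
def Sm (G : ℝ → ℝ → ℝ → V) : Prop := ContDiff ℝ ∞ (fun p : ℝ × ℝ × ℝ => G p.1 p.2.1 p.2.2)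

end

/-- **DRV** (120 lines).  Partial derivatives.  `dt G α t θ = fderiv ℝ (uncurried G) (α, t, θ) (0, 1, 0)`, smooth; symmetry of the second derivative (`ContDiffAt.isSymmSndFDerivAt`). -/
structure SpecDRV : Prop where
  sdt : ∀ {V : Type} [NormedAddCommGroup V] [NormedSpace ℝ V] {G : ℝ → ℝ → ℝ → V}, Sm G → Sm (dt G)
  sdh : ∀ {V : Type} [NormedAddCommGroup V] [NormedSpace ℝ V] {G : ℝ → ℝ → ℝ → V}, Sm G → Sm (dh G)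
  hdt : ∀ {V : Type} [NormedAddCommGroup V] [NormedSpace ℝ V] {G : ℝ → ℝ → ℝ → V}, Sm G →
    ∀ α t θ, HasDerivAt (fun s => G α s θ) (dt G α t θ) t
  hdh : ∀ {V : Type} [NormedAddCommGroup V] [NormedSpace ℝ V] {G : ℝ → ℝ → ℝ → V}, Sm G →
    ∀ α t θ, HasDerivAt (fun s => G α t s) (dh G α t θ) θ
  comm : ∀ {V : Type} [NormedAddCommGroup V] [NormedSpace ℝ V] {G : ℝ → ℝ → ℝ → V}, Sm G →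
    dt (dh G) = dh (dt G)
  inn : ∀ {F G : ℝ → ℝ → ℝ → E3}, Sm F → Sm G → Sm (fun α t θ => ⟪F α t θ, G α t θ⟫_ℝ)
  idt : ∀ {F G : ℝ → ℝ → ℝ → E3}, Sm F → Sm G → ∀ α t θ,
    dt (fun α t θ => ⟪F α t θ, G α t θ⟫_ℝ) α t θ = ⟪dt F α t θ, G α t θ⟫_ℝ + ⟪F α t θ, dt G α t θ⟫_ℝ
  idh : ∀ {F G : ℝ → ℝ → ℝ → E3}, Sm F → Sm G → ∀ α t θ,
    dh (fun α t θ => ⟪F α t θ, G α t θ⟫_ℝ) α t θ = ⟪dh F α t θ, G α t θ⟫_ℝ + ⟪F α t θ, dh G α t θ⟫_ℝ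
  itd : ∀ {V : Type} [NormedAddCommGroup V] [NormedSpace ℝ V] {G : ℝ → ℝ → ℝ → V}, Sm G → ∀ (k : ℕ) (α t θ : ℝ),
    iteratedDeriv k (fun s => G α s θ) t = (dt^[k] G) α t θ

/-- **CRS** (120 lines).  The cross product.  `mot`: orthonormal bases (`OrthonormalBasis.equiv` or `LinearIsometryEquiv`); `frm`: a unit vector `e` is completed to an
oriented orthonormal frame. -/
structure SpecCRS : Prop where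
  sm : ContDiff ℝ ∞ (fun p : E3 × E3 => cr p.1 p.2)
  o1 : ∀ a b, ⟪cr a b, a⟫_ℝ = 0
  o2 : ∀ a b, ⟪cr a b, b⟫_ℝ = 0
  lag : ∀ a b c d, ⟪cr a b, cr c d⟫_ℝ = ⟪a, c⟫_ℝ * ⟪b, d⟫_ℝ - ⟪a, d⟫_ℝ * ⟪b, c⟫_ℝ
  dbl : ∀ a b, cr a (cr a b) = ⟪a, b⟫_ℝ • a - ⟪a, a⟫_ℝ • b
  nrm : ∀ a b, ‖a‖ = 1 → ‖b‖ = 1 → ⟪a, b⟫_ℝ = 0 → ‖cr a b‖ = 1
  exp : ∀ a b, ‖a‖ = 1 → ‖b‖ = 1 → ⟪a, b⟫_ℝ = 0 → ∀ x, x = ⟪x, a⟫_ℝ • a + ⟪x, b⟫_ℝ • b + ⟪x, cr a b⟫_ℝ • cr a b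
  par : ∀ a b, ‖a‖ = 1 → ‖b‖ = 1 → ⟪a, b⟫_ℝ = 0 → ∀ x,
    ‖x‖ ^ 2 = ⟪x, a⟫_ℝ ^ 2 + ⟪x, b⟫_ℝ ^ 2 + ⟪x, cr a b⟫_ℝ ^ 2
  mot : ∀ a b a' b', ‖a‖ = 1 → ‖b‖ = 1 → ⟪a, b⟫_ℝ = 0 → ‖a'‖ = 1 → ‖b'‖ = 1 → ⟪a', b'⟫_ℝ = 0 →
    ∃ g : E3 ≃ₗᵢ[ℝ] E3, g a = a' ∧ g b = b' ∧ g (cr a b) = cr a' b'
  frm : ∀ e, ‖e‖ = 1 → ∃ a b, ‖a‖ = 1 ∧ ‖b‖ = 1 ∧ ⟪a, b⟫_ℝ = 0 ∧ cr a b = e

/-- **WND** (from CRS; 100 lines).  Winding number.  CRS.frm: `e = v₁ × v₂`; `ζ = ⟨T, v₁⟩ + i ⟨T, v₂⟩`, `|ζ|² = 1 - ⟨T, e⟩² > 0` (CRS.par).  `Im (conj ζ ζ') = ⟨T × T', e⟩` (CRS.lag) `= ⟨N, e⟩ - ν ⟨U, e⟩`, as `T' = U + ν N`,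
`T × U = N`, `T × N = -U` (CRS.dbl).  `exp (∫_0^θ ζ'/ζ) = ζ(θ)/ζ(0)`, so `∫_0^{2π} ζ'/ζ ∈ 2πi ℤ`; take imaginary parts. -/
def SpecWND : Prop := ∀ (T U : ℝ → E3) (nu : ℝ → ℝ) (e : E3), Continuous T → Continuous U → Continuous nu →
  (∀ θ, HasDerivAt T (U θ + nu θ • cr (T θ) (U θ)) θ) → T (2 * π) = T 0 →
  (∀ θ, ‖T θ‖ = 1 ∧ ‖U θ‖ = 1 ∧ ⟪T θ, U θ⟫_ℝ = 0) → ‖e‖ = 1 → (∀ θ, ⟪T θ, e⟫_ℝ ^ 2 < 1) →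
  ∃ n : ℤ, ∫ θ in (0:ℝ)..(2 * π), (⟪cr (T θ) (U θ), e⟫_ℝ - nu θ * ⟪U θ, e⟫_ℝ) / (1 - ⟪T θ, e⟫_ℝ ^ 2) = 2 * π * n

/-- **WIR** (150 lines).  Wirtinger inequalities.  Parseval (`tsum_sq_fourierCoeff` for `AddCircle (2π)` or `fourierCoeffOn`), coefficients of the derivative (`fourierCoeffOn_of_hasDerivAt`). -/
structure SpecWIR : Prop where
  w0 : ∀ u : ℝ → ℝ, ContDiff ℝ 1 u → (∀ x, u (x + 2 * π) = u x) → ∫ x in (0:ℝ)..(2 * π), u x = 0 →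
    ∫ x in (0:ℝ)..(2 * π), u x ^ 2 ≤ ∫ x in (0:ℝ)..(2 * π), deriv u x ^ 2
  w2 : ∀ u : ℝ → ℝ, ContDiff ℝ 1 u → (∀ x, u (x + 2 * π) = u x) → ∫ x in (0:ℝ)..(2 * π), u x = 0 →
    ∫ x in (0:ℝ)..(2 * π), u x * cos x = 0 → ∫ x in (0:ℝ)..(2 * π), u x * sin x = 0 →
    4 * ∫ x in (0:ℝ)..(2 * π), u x ^ 2 ≤ ∫ x in (0:ℝ)..(2 * π), deriv u x ^ 2

/-- **QFM** (from WIR; 200 lines).  Constrained Wirtinger inequality.  `h(θ) = ∫_0^θ R(φ) sin(θ - φ) dφ` is `C²`, `h'' + h = R`, `2π`-periodic (closing condition), `h ≥ 0` (on `[π, 2π]` write it as `∫_θ^{2π} R(φ) sin(φ - θ) dφ`), so `2A := ∮ h R > 0`.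
`Q(u, v) := ∮ u'v' - uv`.  `Q(u, u) ≥ 0` if `∮ u = 0` (WIR.w0), so Cauchy-Schwarz for `Q` on functions with mean `0`.  `h̄ = R̄` (means).  `v = h - h̄`: `Q(v, v) = ∮ (h'² - h²) + 2π h̄² = -2A + 2π R̄²`.  `u = a - ā`: `∮ u R = ∮ u (h'' + h) = -Q(u, v)`;
`∮ a R = 0`: `∮ u R = -2π ā R̄`.  So `4π² ā² R̄² ≤ Q(u, u) (2π R̄² - 2A)`, and `∮ (a'² - a²) = Q(u, u) - 2π ā² ≥ Q(u, u) A/(π R̄²)`, `Q(u, u) ≥ (3/4) ∮ a'²` (WIR.w2 for `u`).  `c₀ = 3A/(4π R̄²)`. -/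
def SpecQFM : Prop := ∀ R : ℝ → ℝ, Continuous R → (∀ x, R (x + 2 * π) = R x) → (∀ x, 0 < R x) →
  ∫ x in (0:ℝ)..(2 * π), R x * cos x = 0 → ∫ x in (0:ℝ)..(2 * π), R x * sin x = 0 →
  ∃ c₀ : ℝ, 0 < c₀ ∧ ∀ a : ℝ → ℝ, ContDiff ℝ 1 a → (∀ x, a (x + 2 * π) = a x) →
    ∫ x in (0:ℝ)..(2 * π), a x * R x = 0 → ∫ x in (0:ℝ)..(2 * π), a x * cos x = 0 →
    ∫ x in (0:ℝ)..(2 * π), a x * sin x = 0 →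
    c₀ * ∫ x in (0:ℝ)..(2 * π), deriv a x ^ 2 ≤
      (∫ x in (0:ℝ)..(2 * π), deriv a x ^ 2) - ∫ x in (0:ℝ)..(2 * π), a x ^ 2

/-- **RMP** (from QFM; 350 lines).  The rim inequality.  `A' := ∮ a'²`, `B_j := ‖b^{(j)}‖_{L²}`.
(1) `0 ≤ ∮ (a² - b² - 2νb)/(1 - a²)`, `1/(1 - a²) = 1 + a²/(1 - a²)`, `a² ≤ 1/2`: `∮ (b² - a²) ≤ ∮ (2a⁴ + 4|ν||b|)`.  (2) `a' = b + νc`: `∮ a'² ≤ ∮ b² + 2∮|b||ν| + ∮ν²`.  So with QFM `c₀ A' ≤ ∮ (a'² - a²) ≤ 2∮a⁴ + 6∮|ν||b| + ∮ν²`, and `∮ a² ≤ A'`.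
(3) `|τ| ≤ 2|b' + a|`: `τ² ≤ 8(b'² + a²)`, `|ν| ≤ Λτ²`.  (4) INTERPOLATION by partial integration: `B_1² ≤ B_0 B_2`, `B_2² ≤ B_1 B_3`; so `B_0 B_1² ≤ B_0² B_2`, `B_1³ ≤ B_0² B_3` (from `B_1^{3/2} ≤ B_0 B_3^{1/2}`), `B_2² B_1² ≤ B_0² B_3²` (`B_2² B_1² ≤ B_2³ B_0`, `B_2^{3/2} ≤ B_0^{1/2} B_3`).  `sup|b| ≤ B_0 + 3B_1`,
`sup|b'| ≤ 3B_2`, `sup|a|² ≤ 10 A'`.  (5) `6∮|ν||b| ≤ 48Λ (sup|b| B_1² + sup|b| ∮a²)`, `sup|b| B_1² ≤ B_0² (B_2 + 3B_3)`; `∮ν² ≤ Λ² sup τ² ∮τ² ≤ 64Λ² (sup|b'|² + sup|a|²)(B_1² + ∮a²)`, where `sup|b'|² B_1² ≤ 9 B_2² B_1² ≤ 9 B_0² B_3²`, `sup|a|² B_1² ≤ 10 A' B_0 B_2`, the other two are `≤ small · A'`.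
(6) `B_0² ≤ 2A' + 2∮ν²`, so `B_0² ≤ 5A'` for small `ε`.  Together `c₀ A' ≤ C ε A'`, so `A' = 0`: `a` is constant, `∮aR = 0`: `a = 0`; `B_0 = 0`: `b = 0`; `τ c = b' + a = 0`. -/
def SpecRMP : Prop := ∀ R : ℝ → ℝ, Continuous R → (∀ x, R (x + 2 * π) = R x) → (∀ x, 0 < R x) →
  ∫ x in (0:ℝ)..(2 * π), R x * cos x = 0 → ∫ x in (0:ℝ)..(2 * π), R x * sin x = 0 → ∀ Λ : ℝ, 0 ≤ Λ →
  ∃ ε : ℝ, 0 < ε ∧ ∀ a b c ν τ : ℝ → ℝ, ContDiff ℝ ∞ a → ContDiff ℝ ∞ b → Continuous c → Continuous ν →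
    Continuous τ → (∀ x, a (x + 2 * π) = a x) → (∀ x, b (x + 2 * π) = b x) →
    (∀ x, deriv a x = b x + ν x * c x) → (∀ x, deriv b x = -a x + τ x * c x) → (∀ x, |ν x| ≤ Λ * τ x ^ 2) →
    (∀ x, 1 / 2 ≤ c x) → (∀ x, c x ≤ 1) → (∀ x, |a x| ≤ ε) → (∀ x, |b x| ≤ ε) →
    (∀ x, |iteratedDeriv 2 b x| ≤ ε) → (∀ x, |iteratedDeriv 3 b x| ≤ ε) →
    ∫ x in (0:ℝ)..(2 * π), a x * R x = 0 → ∫ x in (0:ℝ)..(2 * π), a x * cos x = 0 →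
    ∫ x in (0:ℝ)..(2 * π), a x * sin x = 0 →
    0 ≤ ∫ x in (0:ℝ)..(2 * π), ((a x ^ 2 - b x ^ 2) / 2 - ν x * b x) / (1 - a x ^ 2) →
    ∀ x, a x = 0 ∧ b x = 0 ∧ τ x = 0

/-! ## The strip -/

/-- a family of isometric strips; `X 0` has the rim `t = 0` in a plane orthogonal to `e`, touched along it, `θ` = tangent angle, `R` = radius of curvature -/
structure Fam (X : ℝ → ℝ → ℝ → E3) (R : ℝ → ℝ) (u₁ u₂ e : E3) : Prop where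
  sm : Sm X
  per : ∀ α t θ, X α t (θ + 2 * π) = X α t θ
  gE : ∀ α t θ, ⟪dh X α t θ, dh X α t θ⟫_ℝ = ⟪dh X 0 t θ, dh X 0 t θ⟫_ℝ
  gF : ∀ α t θ, ⟪dt X α t θ, dh X α t θ⟫_ℝ = ⟪dt X 0 t θ, dh X 0 t θ⟫_ℝ
  gG : ∀ α t θ, ⟪dt X α t θ, dt X α t θ⟫_ℝ = ⟪dt X 0 t θ, dt X 0 t θ⟫_ℝ
  h1 : ‖u₁‖ = 1
  h2 : ‖u₂‖ = 1
  h12 : ⟪u₁, u₂⟫_ℝ = 0
  he : e = cr u₁ u₂
  Rpos : ∀ θ, 0 < R θ
  tan : ∀ θ, dh X 0 0 θ = R θ • (cos θ • u₁ + sin θ • u₂)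
  nor : ∀ θ, dt X 0 0 θ = -sin θ • u₁ + cos θ • u₂
  nd : ∀ θ, ⟪dt (dt X) 0 0 θ, e⟫_ℝ ≠ 0

noncomputable def fT (X : ℝ → ℝ → ℝ → E3) (R : ℝ → ℝ) (α θ : ℝ) : E3 := (R θ)⁻¹ • dh X α 0 θ
noncomputable def fU (X : ℝ → ℝ → ℝ → E3) (α θ : ℝ) : E3 := dt X α 0 θ
noncomputable def fN (X : ℝ → ℝ → ℝ → E3) (R : ℝ → ℝ) (α θ : ℝ) : E3 := cr (fT X R α θ) (fU X α θ)
noncomputable def tau (X : ℝ → ℝ → ℝ → E3) (R : ℝ → ℝ) (α θ : ℝ) : ℝ := ⟪dh (dt X) α 0 θ, fN X R α θ⟫_ℝ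
noncomputable def nu (X : ℝ → ℝ → ℝ → E3) (R : ℝ → ℝ) (α θ : ℝ) : ℝ :=
  (R θ)⁻¹ * ⟪dh (dh X) α 0 θ, fN X R α θ⟫_ℝ
noncomputable def ell (X : ℝ → ℝ → ℝ → E3) (R : ℝ → ℝ) (α θ : ℝ) : ℝ := ⟪dt (dt X) α 0 θ, fN X R α θ⟫_ℝ

/-- **GAU** (helper9; from DRV, CRS).  The rim equations. -/
structure SpecGAU : Prop where
  R : ∀ {X : ℝ → ℝ → ℝ → E3} {R : ℝ → ℝ} {u₁ u₂ e : E3}, Fam X R u₁ u₂ e → ContDiff ℝ ∞ R ∧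
    (∀ θ, R (θ + 2 * π) = R θ) ∧ ∫ x in (0:ℝ)..(2 * π), R x * cos x = 0 ∧ ∫ x in (0:ℝ)..(2 * π), R x * sin x = 0
  on : ∀ {X : ℝ → ℝ → ℝ → E3} {R : ℝ → ℝ} {u₁ u₂ e : E3}, Fam X R u₁ u₂ e → ∀ α θ,
    ‖fT X R α θ‖ = 1 ∧ ‖fU X α θ‖ = 1 ∧ ⟪fT X R α θ, fU X α θ⟫_ℝ = 0
  T' : ∀ {X : ℝ → ℝ → ℝ → E3} {R : ℝ → ℝ} {u₁ u₂ e : E3}, Fam X R u₁ u₂ e → ∀ α θ,
    HasDerivAt (fun s => fT X R α s) (fU X α θ + nu X R α θ • fN X R α θ) θ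
  U' : ∀ {X : ℝ → ℝ → ℝ → E3} {R : ℝ → ℝ} {u₁ u₂ e : E3}, Fam X R u₁ u₂ e → ∀ α θ,
    HasDerivAt (fun s => fU X α s) (-fT X R α θ + tau X R α θ • fN X R α θ) θ
  K : ∀ {X : ℝ → ℝ → ℝ → E3} {R : ℝ → ℝ} {u₁ u₂ e : E3}, Fam X R u₁ u₂ e → ∀ α θ,
    R θ * nu X R α θ * ell X R α θ = tau X R α θ ^ 2
  base : ∀ {X : ℝ → ℝ → ℝ → E3} {R : ℝ → ℝ} {u₁ u₂ e : E3}, Fam X R u₁ u₂ e → ∀ θ,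
    fN X R 0 θ = e ∧ tau X R 0 θ = 0 ∧ ell X R 0 θ ≠ 0

/-- **OPN** (helper9; from GAU, WND, RMP, CRS, DRV).  The rim stays planar near `α₀`. -/
def SpecOPN : Prop := ∀ {X : ℝ → ℝ → ℝ → E3} {R : ℝ → ℝ} {u₁ u₂ e : E3}, Fam X R u₁ u₂ e → ∀ α₀,
  (∀ θ, tau X R α₀ θ = 0) → (∀ θ, ell X R α₀ θ ≠ 0) → ∀ᶠ α in 𝓝 α₀, ∀ θ, tau X R α θ = 0

/-- **MOV** (helper9; from GAU, CRS, DRV). -/
def SpecMOV : Prop := ∀ {X : ℝ → ℝ → ℝ → E3} {R : ℝ → ℝ} {u₁ u₂ e : E3}, Fam X R u₁ u₂ e → ∀ α,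
  (∀ θ, tau X R α θ = 0) → (∀ θ, ell X R α θ ≠ 0) → ∃ (g : E3 ≃ₗᵢ[ℝ] E3) (b : E3), (∀ θ, g (X α 0 θ) + b = X 0 0 θ) ∧
    (∀ θ, g (dt X α 0 θ) = dt X 0 0 θ) ∧ ∀ θ, g (fN X R α θ) = e

/-- **JET** (from DRV, CRS; 250 lines).  Two isometric strips which agree to first order on the rim.  `w = Y - X`, `w_k := (dt^[k] w) α 0 ·`.
LEIBNIZ (induction on `m`, for all smooth `F`, `G` of one variable or of `(α, t, θ)`): if `G^{(j)} = 0` at the point for `j < m` then `⟨F, G⟩^{(m)} = ⟨F, G^{(m)}⟩` and `⟨F, G⟩^{(m+1)} = ⟨F, G^{(m+1)}⟩ + (m+1) ⟨F', G^{(m)}⟩`.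
STEP: `k ≥ 1`, `w_j = 0` for `j ≤ k`.  Derivatives at `t = 0` of `2⟨X_t, w_t⟩ + |w_t|² = 0`, `⟨X_t, w_θ⟩ + ⟨X_θ, w_t⟩ + ⟨w_t, w_θ⟩ = 0`, `2⟨X_θ, w_θ⟩ + |w_θ|² = 0`: order `k` of the first two: `⟨X_t, w_{k+1}⟩ = ⟨X_θ, w_{k+1}⟩ = 0`, so `w_{k+1} = c(θ) e`.
Order `k+1` of the second: `⟨X_t, w_{k+1}'⟩ + ⟨X_θ, w_{k+2}⟩ + (k+1)⟨X_θt, w_{k+1}⟩ = 0`, `X_θt = U' = -T`: `⟨X_θ, w_{k+2}⟩ = 0`.  Order `k+2` of the third: `⟨X_θ, w_{k+2}'⟩ + (k+2)⟨X_θt, w_{k+1}'⟩ = 0`: `⟨X_θ, w_{k+2}'⟩ = 0`.  So `⟨X_θθ, w_{k+2}⟩ = 0`, `X_θθ = R'T + RU`: `⟨U, w_{k+2}⟩ = 0`.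
Order `k+1` of the first: `2(k+1)⟨X_tt, w_{k+1}⟩ + [k = 1] 2|w_2|² = 0`.  `k ≥ 2`: `ℓ c = 0`.  `k = 1`: `c (2ℓ + c) = 0`. -/
structure SpecJET : Prop where
  two : ∀ {X Y : ℝ → ℝ → ℝ → E3} {R : ℝ → ℝ} {u₁ u₂ : E3} {α : ℝ}, Sm X → Sm Y →
    ‖u₁‖ = 1 → ‖u₂‖ = 1 → ⟪u₁, u₂⟫_ℝ = 0 → (∀ θ, 0 < R θ) →
    (∀ t θ, ⟪dh Y α t θ, dh Y α t θ⟫_ℝ = ⟪dh X α t θ, dh X α t θ⟫_ℝ) →
    (∀ t θ, ⟪dt Y α t θ, dh Y α t θ⟫_ℝ = ⟪dt X α t θ, dh X α t θ⟫_ℝ) →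
    (∀ t θ, ⟪dt Y α t θ, dt Y α t θ⟫_ℝ = ⟪dt X α t θ, dt X α t θ⟫_ℝ) →
    (∀ θ, dh X α 0 θ = R θ • (cos θ • u₁ + sin θ • u₂)) → (∀ θ, dt X α 0 θ = -sin θ • u₁ + cos θ • u₂) →
    (∀ θ, Y α 0 θ = X α 0 θ) → (∀ θ, dt Y α 0 θ = dt X α 0 θ) → ∀ θ,
    ⟪dt (dt Y) α 0 θ, cr u₁ u₂⟫_ℝ = ⟪dt (dt X) α 0 θ, cr u₁ u₂⟫_ℝ ∨
      ⟪dt (dt Y) α 0 θ, cr u₁ u₂⟫_ℝ = -⟪dt (dt X) α 0 θ, cr u₁ u₂⟫_ℝ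
  all : ∀ {X Y : ℝ → ℝ → ℝ → E3} {R : ℝ → ℝ} {u₁ u₂ : E3} {α : ℝ}, Sm X → Sm Y →
    ‖u₁‖ = 1 → ‖u₂‖ = 1 → ⟪u₁, u₂⟫_ℝ = 0 → (∀ θ, 0 < R θ) →
    (∀ t θ, ⟪dh Y α t θ, dh Y α t θ⟫_ℝ = ⟪dh X α t θ, dh X α t θ⟫_ℝ) →
    (∀ t θ, ⟪dt Y α t θ, dh Y α t θ⟫_ℝ = ⟪dt X α t θ, dh X α t θ⟫_ℝ) →
    (∀ t θ, ⟪dt Y α t θ, dt Y α t θ⟫_ℝ = ⟪dt X α t θ, dt X α t θ⟫_ℝ) →
    (∀ θ, dh X α 0 θ = R θ • (cos θ • u₁ + sin θ • u₂)) → (∀ θ, dt X α 0 θ = -sin θ • u₁ + cos θ • u₂) →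
    (∀ θ, Y α 0 θ = X α 0 θ) → (∀ θ, dt Y α 0 θ = dt X α 0 θ) →
    (∀ θ, ⟪dt (dt X) α 0 θ, cr u₁ u₂⟫_ℝ ≠ 0) →
    (∀ θ, ⟪dt (dt Y) α 0 θ, cr u₁ u₂⟫_ℝ = ⟪dt (dt X) α 0 θ, cr u₁ u₂⟫_ℝ) →
    ∀ (k : ℕ) (θ : ℝ), (dt^[k] Y) α 0 θ = (dt^[k] X) α 0 θ

/-- **CLP** (helper9; from OPN, MOV, JET, GAU, CRS, DRV).  Infinite order rigidity of the rim. -/
def SpecCLP : Prop := ∀ {X : ℝ → ℝ → ℝ → E3} {R : ℝ → ℝ} {u₁ u₂ e : E3}, Fam X R u₁ u₂ e → ∀ α,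
  ∃ (g : E3 ≃ₗᵢ[ℝ] E3) (b : E3), ∀ (k : ℕ) (θ : ℝ),
    iteratedDeriv k (fun t => g (X α t θ) + b) 0 = iteratedDeriv k (fun t => X 0 t θ) 0

/-! ## The manifold -/

/-- **MAN** (150 lines).  Identity theorem.  `ψ : ℝ² → M` is a local diffeomorphism at `0`, because the derivative of `f ∘ ψ` at `0` is injective, so in a chart the image of a neighbourhood of `0` contains a neighbourhood of `ψ 0` (`HasStrictFDerivAt.map_nhds_eq_of_surj` for `extChartAt ∘ ψ`), where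
`u = v`.  The interior of `{u = v}` is nonempty, open and closed: identity theorem for analytic functions in charts (`contMDiff_iff`, `ContDiffOn.analyticOn` for `ω`, `AnalyticOnNhd.eqOn_of_preconnected_of_eventuallyEq` on a ball in the chart). -/
def SpecMAN : Prop := ∀ {M : Type} [TopologicalSpace M] [ChartedSpace E2 M] [IsManifold 𝓘(ℝ, E2) ω M]
  [ConnectedSpace M] (f u v : M → E3) (ψ : ℝ × ℝ → M), ContMDiff 𝓘(ℝ, E2) 𝓘(ℝ, E3) ω f →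
  ContMDiff 𝓘(ℝ, E2) 𝓘(ℝ, E3) ω u → ContMDiff 𝓘(ℝ, E2) 𝓘(ℝ, E3) ω v →
  ContMDiff 𝓘(ℝ, ℝ × ℝ) 𝓘(ℝ, E2) ω ψ → Function.Injective (fderiv ℝ (fun p => f (ψ p)) 0) →
  (∀ p, u (ψ p) = v (ψ p)) → ∀ x, u x = v x

/-- **ANA** (40 lines).  An analytic function of one variable with all derivatives `0` at `0` vanishes (`AnalyticOnNhd`, `HasFPowerSeriesAt`, identity theorem). -/
def SpecANA : Prop := ∀ w : ℝ → E3, ContDiff ℝ ω w → (∀ k : ℕ, iteratedDeriv k w 0 = 0) → ∀ t, w t = 0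

end Rim478
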